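import Mathlib

/-!
R.e. sets as projections of primitive recursive relations.
-/

set_option autoImplicit false

namespace Pool.Agent.Helper4RED

open Nat.Partrec (Code)
open Nat.Partrec.Code

/-- the numbers enumerated by `c` before stage `s` -/
def stg (c : Code) (s z : ℕ) : Prop := (evaln s c z).isSome = true

theorem stg_primrec (c : Code) : PrimrecPred fun p : ℕ × ℕ => stg c p.1 p.2 := by
  have h1 : Primrec fun p : ℕ × ℕ => evaln p.1 c p.2 :=
    primrec_evaln.comp (((Primrec.fst).pair (Primrec.const c)).pair Primrec.snd)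
  exact Primrec.eq.comp (Primrec.option_isSome.comp h1) (Primrec.const true)

theorem stg_mono {c : Code} {s t z : ℕ} (h : s ≤ t) (hz : stg c s z) : stg c t z := by
  unfold stg at hz ⊢
  rw [Option.isSome_iff_exists] at hz ⊢
  obtain ⟨x, hx⟩ := hz
  exact ⟨x, evaln_mono h hx⟩

/-- every r.e. set is the increasing union of uniformly primitive recursive finite stages -/
theorem re_stage {A : ℕ → Prop} (hA : REPred A) : ∃ a : ℕ → ℕ → Prop,
    (PrimrecPred fun p : ℕ × ℕ => a p.1 p.2) ∧ (∀ s t z, s ≤ t → a s z → a t z) ∧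
    ∀ z, A z ↔ ∃ s, a s z := by
  have h1 : Partrec fun z : ℕ => (Part.assert (A z) fun _ => Part.some ()).map fun _ => (0 : ℕ) :=
    Partrec.map hA (Computable.const 0).to₂
  obtain ⟨c, hc⟩ := exists_code.1 (Partrec.nat_iff.1 h1)
  refine ⟨stg c, stg_primrec c, fun s t z => stg_mono, fun z => ?_⟩
  have h2 : A z ↔ (eval c z).Dom := by
    rw [hc]
    simp [Part.assert]
  rw [h2, Part.dom_iff_mem]
  unfold stg
  constructor
  · rintro ⟨x, hx⟩
    obtain ⟨k, hk⟩ := evaln_complete.1 hx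
    exact ⟨k, Option.isSome_iff_exists.2 ⟨x, hk⟩⟩
  · rintro ⟨s, hs⟩
    obtain ⟨x, hx⟩ := Option.isSome_iff_exists.1 hs
    exact ⟨x, evaln_sound hx⟩

/-- projections of primitive recursive relations are r.e. -/
theorem re_of_primrec {α : Type*} [Primcodable α] {q : α → ℕ → Prop}
    (hq : PrimrecPred fun p : α × ℕ => q p.1 p.2) : REPred fun x => ∃ t, q x t := by
  classical
  have h1 : ComputablePred fun p : α × ℕ => q p.1 p.2 := hq.computablePred
  have h2 : Partrec fun x : α => Nat.rfind fun n => Part.some (decide (q x n)) :=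
    Partrec.rfind h1.decide.partrec
  refine h2.dom_re.of_eq fun x => ?_
  rw [Nat.rfind_dom]
  simp

/-- computable preimages and intersections of r.e. sets -/
theorem re_and {A B : ℕ → Prop} {f g : ℕ → ℕ} (hA : REPred A) (hB : REPred B) (hf : Primrec f)
    (hg : Primrec g) : REPred fun n => A (f n) ∧ B (g n) := by
  obtain ⟨a, ha, ha1, ha2⟩ := re_stage hA
  obtain ⟨b, hb, hb1, hb2⟩ := re_stage hB
  have h1 : PrimrecPred fun p : ℕ × ℕ => a p.2 (f p.1) ∧ b p.2 (g p.1) :=
    PrimrecPred.and (ha.comp (Primrec.snd.pair (hf.comp Primrec.fst)))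
      (hb.comp (Primrec.snd.pair (hg.comp Primrec.fst)))
  refine (re_of_primrec (q := fun n t => a t (f n) ∧ b t (g n)) h1).of_eq fun n => ?_
  rw [ha2, hb2]
  constructor
  · rintro ⟨t, h2, h3⟩
    exact ⟨⟨t, h2⟩, ⟨t, h3⟩⟩
  · rintro ⟨⟨s, h2⟩, ⟨t, h3⟩⟩
    exact ⟨max s t, ha1 s _ _ (le_max_left _ _) h2, hb1 t _ _ (le_max_right _ _) h3⟩

end Pool.Agent.Helper4RED
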