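import Pool.Agent.Helper4_RED.Enum

/-!
Monotone maps that send uniformly computable sequences to uniformly computable sequences.
-/

set_option autoImplicit false

namespace Pool.Agent.Helper4RED

variable {A E : ℕ → Prop} {F : (ℕ → Prop) → (ℕ → Prop)} {O : Set (ℕ →. ℕ)}

theorem cp_of_comp {P : ℕ → Prop} (h : ComputablePred P) : Cp O (ind P) := by
  classical
  refine Cp.computable ?_
  have h1 : Computable fun n => decide (P n) := h.decide
  refine (Computable.cond h1 (Computable.const 1) (Computable.const 0)).of_eq fun n => ?_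
  by_cases h2 : P n
  · rw [ind_of h2]
    simp [h2]
  · rw [ind_of_not h2]
    simp [h2]

theorem computable_of_cp {f : ℕ → ℕ} (h : Cp ∅ f) : Computable f := by
  have h1 : Nat.Partrec fun n => (f n : Part ℕ) :=
    Nat.RecursiveIn.partrec_of_oracle (fun g hg => absurd hg (Set.notMem_empty g)) h
  exact Partrec.nat_iff.2 h1

theorem comp_of_cp {P : ℕ → Prop} (h : Cp ∅ (ind P)) : ComputablePred P := by
  classical
  have h1 : Computable (ind P) := computable_of_cp h
  have h2 : Computable fun n => decide (ind P n = 1) :=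
    (Primrec.eq (α := ℕ)).decide.to_comp.comp h1 (Computable.const 1)
  refine ⟨inferInstance, h2.of_eq fun n => ?_⟩
  by_cases h3 : P n
  · simp [ind_of h3, h3]
  · simp [ind_of_not h3, h3]

/-- the sets `l` and `l ∪ [N, ∞)`, `l` finite -/
def fin (l : List ℕ) : ℕ → Prop := fun x => x ∈ l

/-- the set `l ∪ [N, ∞)` -/
def cof (l : List ℕ) (N : ℕ) : ℕ → Prop := fun x => x ∈ l ∨ N ≤ x

theorem mem_primrec : PrimrecRel fun (l : List ℕ) (x : ℕ) => x ∈ l := by
  have h1 : PrimrecRel fun (a x : ℕ) => a = x := Primrec.eq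
  refine h1.exists_mem_list.of_eq fun l x => ?_
  constructor
  · rintro ⟨a, h2, rfl⟩
    exact h2
  · intro h2
    exact ⟨x, h2, rfl⟩

theorem fin_primrec (l : List ℕ) : PrimrecPred (fin l) :=
  PrimrecRel.comp mem_primrec (Primrec.const l) Primrec.id

theorem cof_primrec (l : List ℕ) (N : ℕ) : PrimrecPred (cof l N) :=
  (fin_primrec l).or (Primrec.nat_le.comp (Primrec.const N) Primrec.id)

theorem fin_seq : PrimrecPred (seqJoin fun e => fin (Denumerable.ofNat (List ℕ) e)) := by
  have h1 : PrimrecPred fun n : ℕ => n.unpair.2 ∈ Denumerable.ofNat (List ℕ) n.unpair.1 :=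
    PrimrecRel.comp mem_primrec
      ((Primrec.ofNat (List ℕ)).comp (Primrec.fst.comp Primrec.unpair))
      (Primrec.snd.comp Primrec.unpair)
  exact h1

theorem re_of_prim {P : ℕ → Prop} (h : PrimrecPred P) : REPred P := h.computablePred.to_re

/-- a sequence with `y ∈ F (C_m)` iff `m ∈ A` makes `A` computable -/
theorem comp_of_seq (hb : SeqComputable F) {C : ℕ → ℕ → Prop}
    (hC : PrimrecPred (seqJoin C)) (y : ℕ) (h : ∀ m, F (C m) y ↔ A m) : TLE A fun _ => False := by
  have h1 : Cp {chi fun _ => False} (ind (seqJoin fun i => F (C i))) :=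
    cp_of_comp (hb C hC.computablePred)
  have h2 : Cp {chi fun _ => False} fun m => Nat.pair m y :=
    (Cp.prim Primrec.id).pair (Cp.prim (Primrec.const y))
  rw [tle_iff]
  refine (h1.comp h2).of_eq fun m => ind_congr ?_
  unfold seqJoin
  simp [h]

theorem comp_of_seq_not (hb : SeqComputable F) {C : ℕ → ℕ → Prop}
    (hC : PrimrecPred (seqJoin C)) (y : ℕ) (h : ∀ m, F (C m) y ↔ ¬ A m) :
    TLE A fun _ => False := by
  have h1 : Cp {chi fun _ => False} (ind (seqJoin fun i => F (C i))) :=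
    cp_of_comp (hb C hC.computablePred)
  have h2 : Cp {chi fun _ => False} fun m => Nat.pair m y :=
    (Cp.prim Primrec.id).pair (Cp.prim (Primrec.const y))
  rw [tle_iff]
  refine ((Cp.prim (Primrec.const 1)).sub (h1.comp h2)).of_eq fun m => ?_
  by_cases h3 : A m
  · have h4 : ¬ (seqJoin fun i => F (C i)) (Nat.pair m y) := by
      unfold seqJoin
      simp [h, h3]
    rw [ind_of h3, ind_of_not h4]
  · have h4 : (seqJoin fun i => F (C i)) (Nat.pair m y) := by
      unfold seqJoin
      simp [h, h3]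
    rw [ind_of_not h3, ind_of h4]

theorem list_bound {a : ℕ → ℕ → Prop} {m : ℕ} (h : ∃ s, a s m) (hm : ∀ s t z, s ≤ t → a s z → a t z)
    (P : ℕ → Prop) : ∃ l : List ℕ, ∀ x, x ∈ l ↔ (P x ∧ ¬ a x m) := by
  classical
  obtain ⟨s, hs⟩ := h
  refine ⟨(List.range s).filter fun x => P x ∧ ¬ a x m, fun x => ?_⟩
  rw [List.mem_filter, List.mem_range, decide_eq_true_iff]
  constructor
  · exact fun h => h.2
  · intro h
    refine ⟨?_, h⟩
    by_contra h1
    exact h.2 (hm _ _ _ (not_lt.1 h1) hs)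

/-- compactness -/
theorem bm_compact (hb : SeqComputable F) (hA : REPred A) (h0 : ¬ TLE A fun _ => False)
    {X : ℕ → Prop} (hX : PrimrecPred X) {y : ℕ} (hy : F X y) :
    ∃ l : List ℕ, F (fin l) y ∧ ∀ u ∈ l, X u := by
  by_contra hc
  push Not at hc
  obtain ⟨a, ha, hmo, hAa⟩ := re_stage hA
  let C : ℕ → ℕ → Prop := fun m x => X x ∧ ¬ a x m
  have hC : PrimrecPred (seqJoin C) := by
    refine PrimrecPred.and ?_ (PrimrecPred.not ?_)
    · exact hX.comp (Primrec.snd.comp Primrec.unpair)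
    · exact ha.comp ((Primrec.snd.comp Primrec.unpair).pair (Primrec.fst.comp Primrec.unpair))
  refine h0 (comp_of_seq_not hb hC y fun m => ?_)
  constructor
  · intro h1 h2
    obtain ⟨l, hl⟩ := list_bound ((hAa m).1 h2) hmo X
    have h3 : C m = fin l := funext fun x => propext (hl x).symm
    rw [h3] at h1
    obtain ⟨u, h4, h5⟩ := hc l h1
    exact h5 ((hl u).1 h4).1
  · intro h1
    have h2 : C m = X := by
      refine funext fun x => propext ⟨fun h => h.1, fun h => ⟨h, fun h3 => h1 ?_⟩⟩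
      exact (hAa m).2 ⟨x, h3⟩
    rw [h2]
    exact hy

/-- the lower bound -/
theorem bm_lower (hm : Mono F) (hb : SeqComputable F) (hF : OrdMap F) (hA : REPred A) :
    TLE A (F A) := by
  classical
  by_cases h0 : TLE A fun _ => False
  · exact h0.of_trivial _
  have hP : ComputablePred (seqJoin fun e => F (fin (Denumerable.ofNat (List ℕ) e))) := by
    exact hb (fun e => fin (Denumerable.ofNat (List ℕ) e)) fin_seq.computablePred
  have hW2 : ∀ X : ℕ → Prop, PrimrecPred X → ∀ y, F X y →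
      ∃ l : List ℕ, F (fin l) y ∧ ∀ u ∈ l, X u := fun X hX y hy => bm_compact hb hA h0 hX hy
  have hW1 : ∀ X : ℕ → Prop, REPred X → ∀ (y : ℕ) (l : List ℕ), F (fin l) y → (∀ u ∈ l, X u) →
      F X y := fun X hX y l h1 h2 => hm _ _ (re_of_prim (fin_primrec l)) hX h2 y h1
  have hq : ∃ q : (ℕ × List ℕ) × ℕ → Bool, ComputableIn {chi fun _ => False} q ∧
      ∀ (y : ℕ) (l : List ℕ), F (fin l) y ↔ ∃ v, q ((y, l), v) = true := by
    refine ⟨fun p => decide (F (fin p.1.2) p.1.1), Computable.computableIn ?_, fun y l => ?_⟩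
    · have h1 := hP.decide
      have h2 : Primrec fun p : (ℕ × List ℕ) × ℕ => Nat.pair (Encodable.encode p.1.2) p.1.1 :=
        Primrec₂.natPair.comp (Primrec.encode.comp (Primrec.snd.comp Primrec.fst))
          (Primrec.fst.comp Primrec.fst)
      refine (h1.comp h2.to_comp).of_eq fun p => ?_
      unfold seqJoin
      simp
    · simp
  have h1 := enum_core (E := fun _ => False) hm (fun y l => F (fin l) y) hq hW1 hW2 hF hA
  exact h1.tle (tle_of_primrec primrec_false _)

/-- continuity at infinity -/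
theorem bm_cont (hm : Mono F) (hb : SeqComputable F) (hA : REPred A)
    (h0 : ¬ TLE A fun _ => False) (l : List ℕ) (y : ℕ) (hy : ¬ F (fin l) y) :
    ∃ N, ¬ F (cof l N) y := by
  by_contra hc
  push Not at hc
  obtain ⟨a, ha, hmo, hAa⟩ := re_stage hA
  let C : ℕ → ℕ → Prop := fun m x => x ∈ l ∨ a x m
  have hC : PrimrecPred (seqJoin C) := by
    refine PrimrecPred.or ?_ ?_
    · exact (fin_primrec l).comp (Primrec.snd.comp Primrec.unpair)
    · exact ha.comp ((Primrec.snd.comp Primrec.unpair).pair (Primrec.fst.comp Primrec.unpair))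
  refine h0 (comp_of_seq hb hC y fun m => ?_)
  constructor
  · intro h1
    by_contra h2
    apply hy
    have h3 : C m = fin l := by
      refine funext fun x => propext ⟨fun h => ?_, fun h => Or.inl h⟩
      rcases h with h | h
      · exact h
      · exact absurd ((hAa m).2 ⟨x, h⟩) h2
    rw [← h3]
    exact h1
  · intro h1
    obtain ⟨s, hs⟩ := (hAa m).1 h1
    refine hm (cof l s) (C m) (re_of_prim (cof_primrec l s)) ?_ ?_ y (hc s)
    · have h2 : PrimrecPred (C m) := (fin_primrec l).or (ha.comp (Primrec.id.pair (Primrec.const m)))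
      exact re_of_prim h2
    · rintro x (h2 | h2)
      · exact Or.inl h2
      · exact Or.inr (hmo _ _ _ h2 hs)

theorem common {Q : ℕ → ℕ → Prop} (hQ : ∀ e N N', N ≤ N' → Q e N → Q e N')
    (h : ∀ e, ∃ N, Q e N) (k : ℕ) : ∃ N, ∀ e < k, Q e N := by
  induction k with
  | zero => exact ⟨0, fun e he => absurd he (Nat.not_lt_zero e)⟩
  | succ k ih =>
    obtain ⟨N, hN⟩ := ih
    obtain ⟨N', hN'⟩ := h k
    refine ⟨max N N', fun e he => ?_⟩
    rcases Nat.lt_succ_iff_lt_or_eq.1 he with h1 | rfl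
    · exact hQ _ _ _ (le_max_left _ _) (hN e h1)
    · exact hQ _ _ _ (le_max_right _ _) hN'

/-- `N` is a modulus of continuity for the finite sets with a code `≤ M` and `y ≤ M` -/
def Good (F : (ℕ → Prop) → (ℕ → Prop)) (M N : ℕ) : Prop :=
  ∀ e ≤ M, ∀ y ≤ M, F (fin (Denumerable.ofNat (List ℕ) e)) y ∨
    ¬ F (cof (Denumerable.ofNat (List ℕ) e) N) y

theorem exists_good (hm : Mono F) (hb : SeqComputable F) (hA : REPred A)
    (h0 : ¬ TLE A fun _ => False) (M : ℕ) : ∃ N, Good F M N := by
  let Q : ℕ → ℕ → Prop := fun e N => ∀ y < M + 1, F (fin (Denumerable.ofNat (List ℕ) e)) y ∨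
    ¬ F (cof (Denumerable.ofNat (List ℕ) e) N) y
  have h1 : ∀ e y N N', N ≤ N' → (F (fin (Denumerable.ofNat (List ℕ) e)) y ∨
      ¬ F (cof (Denumerable.ofNat (List ℕ) e) N) y) →
      (F (fin (Denumerable.ofNat (List ℕ) e)) y ∨
        ¬ F (cof (Denumerable.ofNat (List ℕ) e) N') y) := by
    intro e y N N' hN h
    rcases h with h | h
    · exact Or.inl h
    · refine Or.inr fun h2 => h ?_
      refine hm _ _ (re_of_prim (cof_primrec _ _)) (re_of_prim (cof_primrec _ _)) ?_ y h2
      rintro x (h3 | h3)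
      · exact Or.inl h3
      · exact Or.inr (hN.trans h3)
  have h2 : ∀ e, ∃ N, Q e N := fun e =>
    common (Q := fun y N => F (fin (Denumerable.ofNat (List ℕ) e)) y ∨
      ¬ F (cof (Denumerable.ofNat (List ℕ) e) N) y) (fun y => h1 e y) (fun y => by
        by_cases h3 : F (fin (Denumerable.ofNat (List ℕ) e)) y
        · exact ⟨0, Or.inl h3⟩
        · obtain ⟨N, hN⟩ := bm_cont hm hb hA h0 _ y h3
          exact ⟨N, Or.inr hN⟩) (M + 1)
  obtain ⟨N, hN⟩ := common (Q := Q) (fun e N N' hN h y hy => h1 e y N N' hN (h y hy)) h2 (M + 1)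
  exact ⟨N, fun e he y hy => hN e (Nat.lt_succ_of_le he) y (Nat.lt_succ_of_le hy)⟩

theorem good_cp (hb : SeqComputable F) :
    Cp ∅ (ind fun m : ℕ => ¬ Good F m.unpair.1 m.unpair.2) := by
  have hP1 : Cp ∅ (ind (seqJoin fun e => F (fin (Denumerable.ofNat (List ℕ) e)))) := by
    exact cp_of_comp (hb (fun e => fin (Denumerable.ofNat (List ℕ) e)) fin_seq.computablePred)
  have hP2 : Cp ∅ (ind (seqJoin fun i =>
      F (cof (Denumerable.ofNat (List ℕ) i.unpair.1) i.unpair.2))) := by
    refine cp_of_comp (hb (fun i => cof (Denumerable.ofNat (List ℕ) i.unpair.1) i.unpair.2) ?_)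
    have h1 : PrimrecPred (seqJoin fun i =>
        cof (Denumerable.ofNat (List ℕ) i.unpair.1) i.unpair.2) := by
      refine PrimrecPred.or ?_ ?_
      · exact PrimrecRel.comp mem_primrec
          ((Primrec.ofNat (List ℕ)).comp (Primrec.fst.comp (Primrec.unpair.comp
            (Primrec.fst.comp Primrec.unpair))))
          (Primrec.snd.comp Primrec.unpair)
      · exact Primrec.nat_le.comp (Primrec.snd.comp (Primrec.unpair.comp
            (Primrec.fst.comp Primrec.unpair))) (Primrec.snd.comp Primrec.unpair)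
    exact h1.computablePred
  -- the matrix, with m = ⟨⟨N, M⟩, e⟩, y
  let P : ℕ → ℕ → Prop := fun x y => ¬ F (fin (Denumerable.ofNat (List ℕ) x.unpair.2)) y ∧
    F (cof (Denumerable.ofNat (List ℕ) x.unpair.2) x.unpair.1.unpair.1) y
  have hP : Cp ∅ (ind fun m : ℕ => P m.unpair.1 m.unpair.2) := by
    have h1 : Cp ∅ fun m : ℕ => Nat.pair m.unpair.1.unpair.2 m.unpair.2 :=
      (Cp.right.comp Cp.left).pair Cp.right
    have h2 : Cp ∅ fun m : ℕ => Nat.pair (Nat.pair m.unpair.1.unpair.2
        m.unpair.1.unpair.1.unpair.1) m.unpair.2 :=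
      ((Cp.right.comp Cp.left).pair (Cp.left.comp (Cp.left.comp Cp.left))).pair Cp.right
    refine ((Cp.sub (Cp.prim (Primrec.const 1)) (hP1.comp h1)).mul (hP2.comp h2)).of_eq
      fun m => ?_
    have h3 : (seqJoin fun e => F (fin (Denumerable.ofNat (List ℕ) e)))
        (Nat.pair m.unpair.1.unpair.2 m.unpair.2) ↔
        F (fin (Denumerable.ofNat (List ℕ) m.unpair.1.unpair.2)) m.unpair.2 := by
      unfold seqJoin
      simp
    have h4 : (seqJoin fun i => F (cof (Denumerable.ofNat (List ℕ) i.unpair.1) i.unpair.2))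
        (Nat.pair (Nat.pair m.unpair.1.unpair.2 m.unpair.1.unpair.1.unpair.1) m.unpair.2) ↔
        F (cof (Denumerable.ofNat (List ℕ) m.unpair.1.unpair.2)
          m.unpair.1.unpair.1.unpair.1) m.unpair.2 := by
      unfold seqJoin
      simp
    by_cases h5 : F (fin (Denumerable.ofNat (List ℕ) m.unpair.1.unpair.2)) m.unpair.2
    · have h6 : ind (fun m : ℕ => P m.unpair.1 m.unpair.2) m = 0 := ind_of_not fun h => h.1 h5
      rw [h6, ind_of (h3.2 h5), Nat.sub_self, zero_mul]
    · rw [ind_of_not fun h => h5 (h3.1 h)]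
      by_cases h6 : F (cof (Denumerable.ofNat (List ℕ) m.unpair.1.unpair.2)
          m.unpair.1.unpair.1.unpair.1) m.unpair.2
      · have h7 : ind (fun m : ℕ => P m.unpair.1 m.unpair.2) m = 1 := ind_of ⟨h5, h6⟩
        rw [h7, ind_of (h4.2 h6)]
      · have h7 : ind (fun m : ℕ => P m.unpair.1 m.unpair.2) m = 0 := ind_of_not fun h => h6 h.2
        rw [h7, ind_of_not fun h => h6 (h4.1 h), mul_zero]
  have hB := Cp.bex hP
  let P' : ℕ → ℕ → Prop := fun x e => ∃ y < x.unpair.2 + 1, P (Nat.pair x e) y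
  have hP' : Cp ∅ (ind fun m : ℕ => P' m.unpair.1 m.unpair.2) := by
    have h1 : Cp ∅ fun m : ℕ => Nat.pair m (m.unpair.1.unpair.2 + 1) :=
      (Cp.prim Primrec.id).pair ((Cp.right.comp Cp.left).add (Cp.prim (Primrec.const 1)))
    refine (hB.comp h1).of_eq fun m => ind_congr ?_
    simp [P']
  have hB' := Cp.bex hP'
  have h1 : Cp ∅ fun m : ℕ => Nat.pair (Nat.pair m.unpair.2 m.unpair.1) (m.unpair.1 + 1) :=
    (Cp.right.pair Cp.left).pair (Cp.left.add (Cp.prim (Primrec.const 1)))
  refine (hB'.comp h1).of_eq fun m => ind_congr ?_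
  unfold Good
  simp only [Nat.unpair_pair, P', P, Nat.lt_succ_iff]
  push Not
  rfl

end Pool.Agent.Helper4RED
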