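import Mathlib

/-!
Total functions computable from a set of oracles: closure properties.
-/

set_option autoImplicit false

namespace Pool.Agent.Helper4RED

/-- the total function `f` is computable from the oracles in `O` -/
def Cp (O : Set (ℕ →. ℕ)) (f : ℕ → ℕ) : Prop := Nat.RecursiveIn O (fun n => (f n : Part ℕ))

variable {O O' : Set (ℕ →. ℕ)} {f g : ℕ → ℕ}

theorem Cp.of_eq (hf : Cp O f) (h : ∀ n, f n = g n) : Cp O g := by
  rw [← funext h]
  exact hf

theorem Cp.prim (hf : Primrec f) : Cp O f := Nat.Primrec.recursiveIn (Primrec.nat_iff.1 hf)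

theorem Cp.computable (hf : Computable f) : Cp O f := Nat.Partrec.recursiveIn (Partrec.nat_iff.1 hf)

theorem Cp.comp (hf : Cp O f) (hg : Cp O g) : Cp O fun n => f (g n) := by
  refine (Nat.RecursiveIn.comp hf hg).of_eq fun n => ?_
  exact Part.bind_some (g n) _

theorem Cp.pair (hf : Cp O f) (hg : Cp O g) : Cp O fun n => Nat.pair (f n) (g n) := by
  refine (Nat.RecursiveIn.pair hf hg).of_eq fun n => ?_
  simp [Seq.seq]

theorem Cp.prec (hf : Cp O f) (hg : Cp O g) :
    Cp O fun p => Nat.rec (f (Nat.unpair p).1)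
      (fun y i => g (Nat.pair (Nat.unpair p).1 (Nat.pair y i))) (Nat.unpair p).2 := by
  refine (Nat.RecursiveIn.prec hf hg).of_eq fun p => ?_
  simp only
  generalize (Nat.unpair p).1 = a
  generalize (Nat.unpair p).2 = n
  induction n with
  | zero => rfl
  | succ n ih =>
    change (Nat.rec _ _ n : Part ℕ) >>= _ = _
    rw [ih]
    exact Part.bind_some _ _

theorem Cp.rfind (hf : Cp O f) (hg : ∀ a, f (Nat.pair a (g a)) = 0)
    (hg' : ∀ a, ∀ n < g a, f (Nat.pair a n) ≠ 0) : Cp O g := by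
  refine (Nat.RecursiveIn.rfind hf).of_eq_tot fun a => ?_
  refine Nat.mem_rfind.2 ⟨?_, fun {m} hm => ?_⟩
  · simp [hg a]
  · simp [hg' a m hm]

/-- unbounded search -/
theorem Cp.search (hf : Cp O f) (hex : ∀ x, ∃ w, f (Nat.pair x w) = 0) :
    ∃ g : ℕ → ℕ, Cp O g ∧ ∀ x, f (Nat.pair x (g x)) = 0 := by
  classical
  refine ⟨fun x => Nat.find (hex x), hf.rfind (fun a => Nat.find_spec (hex a))
    fun a n hn => Nat.find_min (hex a) hn, fun x => Nat.find_spec (hex x)⟩

theorem Cp.mono (hf : Cp O f) (h : ∀ g ∈ O, Nat.RecursiveIn O' g) : Cp O' f :=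
  Nat.RecursiveIn.subst hf h

theorem Cp.left : Cp O fun n => n.unpair.1 := Cp.prim (Primrec.fst.comp Primrec.unpair)

theorem Cp.right : Cp O fun n => n.unpair.2 := Cp.prim (Primrec.snd.comp Primrec.unpair)

/-- application of a primitive recursive function of two variables -/
theorem Cp.map₂ {h : ℕ → ℕ → ℕ} (hh : Primrec₂ h) (hf : Cp O f) (hg : Cp O g) :
    Cp O fun n => h (f n) (g n) := by
  have h1 : Cp O fun m => h m.unpair.1 m.unpair.2 :=
    Cp.prim (hh.comp (Primrec.fst.comp Primrec.unpair) (Primrec.snd.comp Primrec.unpair))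
  refine (h1.comp (hf.pair hg)).of_eq fun n => ?_
  simp

theorem Cp.add (hf : Cp O f) (hg : Cp O g) : Cp O fun n => f n + g n :=
  Cp.map₂ Primrec.nat_add hf hg

theorem Cp.mul (hf : Cp O f) (hg : Cp O g) : Cp O fun n => f n * g n :=
  Cp.map₂ Primrec.nat_mul hf hg

theorem Cp.sub (hf : Cp O f) (hg : Cp O g) : Cp O fun n => f n - g n :=
  Cp.map₂ Primrec.nat_sub hf hg

/-- finite sums -/
theorem Cp.sum {p : ℕ → ℕ → ℕ} (hp : Cp O fun m => p m.unpair.1 m.unpair.2) :
    Cp O fun m => ∑ z ∈ Finset.range m.unpair.2, p m.unpair.1 z := by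
  have h1 : Cp O fun m => m.unpair.2.unpair.2 + p m.unpair.1 m.unpair.2.unpair.1 := by
    refine Cp.add (Cp.right.comp Cp.right) ?_
    refine (hp.comp (Cp.left.pair (Cp.left.comp Cp.right))).of_eq fun n => ?_
    simp
  refine (Cp.prec (Cp.prim (Primrec.const 0)) h1).of_eq fun m => ?_
  generalize m.unpair.1 = a
  generalize m.unpair.2 = n
  induction n with
  | zero => rfl
  | succ n ih =>
    rw [Finset.sum_range_succ, ← ih]
    simp

open Classical in
/-- the indicator function of a set, as a number function -/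
noncomputable def ind (A : ℕ → Prop) : ℕ → ℕ := fun n => if A n then 1 else 0

theorem ind_of {A : ℕ → Prop} {n : ℕ} (h : A n) : ind A n = 1 := if_pos h

theorem ind_of_not {A : ℕ → Prop} {n : ℕ} (h : ¬ A n) : ind A n = 0 := if_neg h

theorem ind_eq_zero {A : ℕ → Prop} {n : ℕ} : ind A n = 0 ↔ ¬ A n := by
  unfold ind
  split <;> simp_all

theorem ind_congr {A B : ℕ → Prop} {n m : ℕ} (h : A n ↔ B m) : ind A n = ind B m := by
  by_cases h1 : A n
  · rw [ind_of h1, ind_of (h.1 h1)]
  · rw [ind_of_not h1, ind_of_not fun h2 => h1 (h.2 h2)]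

theorem Cp.ind_prim {P : ℕ → Prop} (hP : PrimrecPred P) : Cp O (ind P) := by
  classical
  refine Cp.prim ?_
  exact Primrec.ite hP (Primrec.const 1) (Primrec.const 0)

/-- bounded existence -/
theorem Cp.bex {P : ℕ → ℕ → Prop} (hP : Cp O (ind fun m => P m.unpair.1 m.unpair.2)) :
    Cp O (ind fun m => ∃ z < m.unpair.2, P m.unpair.1 z) := by
  have h0 : Cp O fun m => ind (P m.unpair.1) m.unpair.2 := hP
  have h1 := Cp.sum (p := fun x z => ind (P x) z) h0
  have h2 : Primrec fun n : ℕ => 1 - (1 - n) :=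
    Primrec.nat_sub.comp (Primrec.const 1) (Primrec.nat_sub.comp (Primrec.const 1) Primrec.id)
  refine ((Cp.prim h2).comp h1).of_eq fun m => ?_
  by_cases h : ∃ z < m.unpair.2, P m.unpair.1 z
  · rw [ind_of h]
    obtain ⟨z, hz, hz'⟩ := h
    have h3 : 1 ≤ ∑ z ∈ Finset.range m.unpair.2, ind (P m.unpair.1) z := by
      calc 1 = ind (P m.unpair.1) z := (ind_of hz').symm
        _ ≤ _ := Finset.single_le_sum (f := fun z => ind (P m.unpair.1) z)
          (fun _ _ => Nat.zero_le _) (Finset.mem_range.2 hz)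
    omega
  · rw [ind_of_not h]
    have h3 : ∑ z ∈ Finset.range m.unpair.2, ind (P m.unpair.1) z = 0 := by
      refine Finset.sum_eq_zero fun z hz => ?_
      rw [ind_eq_zero]
      exact fun h4 => h ⟨z, Finset.mem_range.1 hz, h4⟩
    omega

end Pool.Agent.Helper4RED
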