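import Pool.Agent.Helper4_RED.Cand

/-!
Functions on r.e. indices which transform reductions with boundedly many candidates.
-/

set_option autoImplicit false

namespace Pool.Agent.Helper4RED

open Nat.Partrec (Code)
open Nat.Partrec.Code

variable {O : Set (ℕ →. ℕ)}

theorem prim_stg : PrimrecPred fun q : ℕ =>
    stg (cd q.unpair.1) q.unpair.2.unpair.1 q.unpair.2.unpair.2 := by
  have h0 : Primrec fun q : ℕ => q.unpair.1 := Primrec.fst.comp Primrec.unpair
  have h1 : Primrec fun q : ℕ => q.unpair.2 := Primrec.snd.comp Primrec.unpair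
  exact stg_code_primrec.comp ((((Primrec.ofNat Code).comp h0).pair (h0.comp h1)).pair
    (h1.comp h1))

/-- one of the first `M` functionals of a sequence computes the initial segments of `A` -/
theorem cp_of_cand {A B : ℕ → Prop} {x : ℕ → ℕ} {M : ℕ} (hB : Cp O (ind B)) (hx : Cp O x)
    (hcand : ∀ k, ∃ p < M, Computes (cd (x (Nat.pair p k))) B fun n => n < k ∧ A n) :
    Dc O A := by
  let D0 : ℕ → ℕ → Prop := fun q y => y.unpair.1 < 2 ^ q.unpair.2 ∧ ∀ n < q.unpair.2,
    ∃ z < y.unpair.2, stg (cd (x q)) z.unpair.2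
      (Nat.pair (Nat.pair n (bt y.unpair.1 n)) (Nat.pair z.unpair.1 (ini B z.unpair.1)))
  have hl : Primrec fun q : ℕ => q.unpair.1 := Primrec.fst.comp Primrec.unpair
  have hr : Primrec fun q : ℕ => q.unpair.2 := Primrec.snd.comp Primrec.unpair
  have hD : Dc O fun m => D0 m.unpair.1 m.unpair.2 := by
    refine Dc.and (Dc.prim (Primrec.nat_lt.comp (hl.comp hr)
      (Pool.Agent.EFA.H21.pow_prim.comp (Primrec.const 2) (hr.comp hl)))) ?_
    refine Dc.ball (P := fun (m n : ℕ) => ∃ z : ℕ, z < m.unpair.2.unpair.2 ∧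
      stg (cd (x m.unpair.1)) z.unpair.2
      (Nat.pair (Nat.pair n (bt m.unpair.2.unpair.1 n)) (Nat.pair z.unpair.1 (ini B z.unpair.1))))
      ?_ (Cp.prim (hr.comp hl))
    refine Dc.bex (P := fun (m z : ℕ) => stg (cd (x m.unpair.1.unpair.1)) z.unpair.2
      (Nat.pair (Nat.pair m.unpair.2 (bt m.unpair.1.unpair.2.unpair.1 m.unpair.2))
        (Nat.pair z.unpair.1 (ini B z.unpair.1)))) ?_ (Cp.prim (hr.comp (hr.comp hl)))
    -- `m = ((a, b), c), z`
    have ex : Cp O fun m : ℕ => x m.unpair.1.unpair.1.unpair.1 :=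
      hx.comp (Cp.prim (hl.comp (hl.comp hl)))
    have ebt : Primrec fun m : ℕ => bt m.unpair.1.unpair.1.unpair.2.unpair.1 m.unpair.1.unpair.2 := by
      have h1 := bt_prim.comp (Primrec₂.natPair.comp (hl.comp (hr.comp (hl.comp hl)))
        (hr.comp hl))
      refine h1.of_eq fun q => ?_
      simp only [Nat.unpair_pair]
    have ein : Cp O fun m : ℕ => ini B m.unpair.2.unpair.1 :=
      (ini_cp hB).comp (Cp.prim (hl.comp hr))
    have eall : Cp O fun m : ℕ => Nat.pair (x m.unpair.1.unpair.1.unpair.1)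
        (Nat.pair m.unpair.2.unpair.2 (Nat.pair
          (Nat.pair m.unpair.1.unpair.2 (bt m.unpair.1.unpair.1.unpair.2.unpair.1 m.unpair.1.unpair.2))
          (Nat.pair m.unpair.2.unpair.1 (ini B m.unpair.2.unpair.1)))) :=
      ex.pair ((Cp.prim (hr.comp hr)).pair (((Cp.prim (hr.comp hl)).pair (Cp.prim ebt)).pair
        ((Cp.prim (hl.comp hr)).pair ein)))
    refine ((Dc.prim prim_stg).comp eall).of_iff fun m => ?_
    simp only [Nat.unpair_pair]
  refine cand_thm (M := M) hD fun k => ?_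
  obtain ⟨p, hp, hc⟩ := hcand k
  refine ⟨p, hp, ?_, ?_⟩
  · have hst : ∀ L ≤ k, ∃ s : ℕ, ∀ n < L, ∃ z < s, stg (cd (x (Nat.pair p k))) z.unpair.2
        (Nat.pair (Nat.pair n (bt (ini A k) n)) (Nat.pair z.unpair.1 (ini B z.unpair.1))) := by
      intro L
      induction L with
      | zero => exact fun _ => ⟨0, fun n hn => absurd hn (Nat.not_lt_zero _)⟩
      | succ L ih =>
        intro hL
        obtain ⟨s, hs⟩ := ih (Nat.le_of_succ_le hL)
        have hLk : L < k := hL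
        have hv : Val (cd (x (Nat.pair p k))) B L (bt (ini A k) L) := by
          rw [bt_ini A hLk]
          by_cases hA : A L
          · rw [ind_of hA]
            exact (hc L).1.1 ⟨hLk, hA⟩
          · rw [ind_of_not hA]
            exact (hc L).2.1 fun h => hA h.2
        obtain ⟨K, hK⟩ := hv
        obtain ⟨s', hs'⟩ := wc_iff.1 hK
        refine ⟨max s (Nat.pair K s' + 1), fun n hn => ?_⟩
        rcases Nat.lt_succ_iff_lt_or_eq.1 hn with h1 | h1
        · obtain ⟨z, hz, hz'⟩ := hs n h1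
          exact ⟨z, hz.trans_le (le_max_left _ _), hz'⟩
        · rw [h1]
          refine ⟨Nat.pair K s', lt_of_lt_of_le (Nat.lt_succ_self _) (le_max_right _ _), ?_⟩
          simp only [Nat.unpair_pair]
          exact hs'
    obtain ⟨s, hs⟩ := hst k (le_refl k)
    refine ⟨Nat.pair (ini A k) s, ?_⟩
    simp only [D0, Nat.unpair_pair]
    exact ⟨ini_lt A k, hs⟩
  · rintro y ⟨h1, h2⟩
    simp only [Nat.unpair_pair] at h1 h2
    refine eq_of_bt h1 (ini_lt A k) fun n hn => ?_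
    obtain ⟨z, -, hz⟩ := h2 n hn
    have hv : Val (cd (x (Nat.pair p k))) B n (bt y.unpair.1 n) := ⟨_, wc_iff.2 ⟨_, hz⟩⟩
    rw [bt_ini A hn]
    have hb : bt y.unpair.1 n = 0 ∨ bt y.unpair.1 n = 1 := by
      unfold bt
      omega
    rcases hb with hb | hb
    · rw [hb] at hv ⊢
      exact (ind_of_not fun hA => (hc n).2.2 hv ⟨hn, hA⟩).symm
    · rw [hb] at hv ⊢
      exact (ind_of ((hc n).1.2 hv).2).symm

/-- functionals for the finite sets -/
theorem finite_functional : ∃ e : ℕ → Code, Computable e ∧ ∀ σ (B : ℕ → Prop),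
    Computes (e σ) B fun n => Nat.testBit σ n = true := by
  have h1 : ComputablePred fun p : (ℕ × ℕ) × ℕ =>
      p.1.2.unpair.1.unpair.2 = bt p.1.1 p.1.2.unpair.1.unpair.1 ∧
        p.1.2.unpair.2 = Nat.pair 0 0 := by
    have h0 : Primrec fun p : (ℕ × ℕ) × ℕ => p.1.2.unpair.1 :=
      Primrec.fst.comp (Primrec.unpair.comp (Primrec.snd.comp Primrec.fst))
    have h2 : Primrec fun p : (ℕ × ℕ) × ℕ => bt p.1.1 p.1.2.unpair.1.unpair.1 := by
      have h3 := bt_prim.comp (Primrec₂.natPair.comp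
        ((Primrec.fst : Primrec fun p : ℕ × ℕ => p.1).comp (Primrec.fst : Primrec
          fun p : (ℕ × ℕ) × ℕ => p.1))
        (Primrec.fst.comp (Primrec.unpair.comp h0)))
      refine h3.of_eq fun q => ?_
      simp only [Nat.unpair_pair]
    refine (PrimrecPred.and (Primrec.eq.comp (Primrec.snd.comp (Primrec.unpair.comp h0)) h2)
      (Primrec.eq.comp (Primrec.snd.comp (Primrec.unpair.comp (Primrec.snd.comp Primrec.fst)))
        (Primrec.const _))).computablePred
  obtain ⟨e, he, he'⟩ := param' (S := fun (σ m _t : ℕ) =>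
    m.unpair.1.unpair.2 = bt σ m.unpair.1.unpair.1 ∧ m.unpair.2 = Nat.pair 0 0) h1
  refine ⟨e, he, fun σ B n => ?_⟩
  have h0 : ini B 0 = 0 := by
    unfold ini SS
    simp
  have hval : ∀ b, Val (e σ) B n b ↔ b = bt σ n := by
    intro b
    unfold Val
    constructor
    · rintro ⟨k, hk⟩
      obtain ⟨t, h2, -⟩ := (he' _ _).1 hk
      simp only [Nat.unpair_pair] at h2
      exact h2
    · intro hb
      refine ⟨0, (he' _ _).2 ⟨0, ?_⟩⟩
      simp only [Nat.unpair_pair, h0]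
      exact ⟨hb, trivial⟩
  rw [hval, hval, bt_toNat]
  cases hτ : Nat.testBit σ n <;> simp [hτ]

/-- a functional which reads an initial segment of the oracle and follows another functional -/
theorem read_functional {sel : ℕ → ℕ → Code} (hsel : Computable fun p : ℕ × ℕ => sel p.1 p.2)
    {r : ℕ → ℕ} (hr : Primrec r) :
    ∃ w : ℕ → Code, Computable w ∧ ∀ (B : ℕ → Prop) (i n b : ℕ),
      Val (w i) B n b ↔ Val (sel i (ini B (r i))) B n b := by
  let S : ℕ → ℕ → ℕ → Prop := fun i m t =>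
    (r i ≤ m.unpair.2.unpair.1 ∧ t.unpair.1 ≤ m.unpair.2.unpair.1) ∧
      stg (sel i (m.unpair.2.unpair.2 % 2 ^ r i)) t.unpair.2 (Nat.pair m.unpair.1
        (Nat.pair t.unpair.1 (m.unpair.2.unpair.2 % 2 ^ t.unpair.1)))
  have hS : ComputablePred fun p : (ℕ × ℕ) × ℕ => S p.1.1 p.1.2 p.2 := by
    have hi : Primrec fun p : (ℕ × ℕ) × ℕ => p.1.1 := Primrec.fst.comp Primrec.fst
    have hm : Primrec fun p : (ℕ × ℕ) × ℕ => p.1.2 := Primrec.snd.comp Primrec.fst
    have hk : Primrec fun p : (ℕ × ℕ) × ℕ => p.1.2.unpair.2.unpair.1 :=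
      Primrec.fst.comp (Primrec.unpair.comp (Primrec.snd.comp (Primrec.unpair.comp hm)))
    have hσ : Primrec fun p : (ℕ × ℕ) × ℕ => p.1.2.unpair.2.unpair.2 :=
      Primrec.snd.comp (Primrec.unpair.comp (Primrec.snd.comp (Primrec.unpair.comp hm)))
    have hnb : Primrec fun p : (ℕ × ℕ) × ℕ => p.1.2.unpair.1 :=
      Primrec.fst.comp (Primrec.unpair.comp hm)
    have hk' : Primrec fun p : (ℕ × ℕ) × ℕ => p.2.unpair.1 :=
      Primrec.fst.comp (Primrec.unpair.comp Primrec.snd)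
    have hs : Primrec fun p : (ℕ × ℕ) × ℕ => p.2.unpair.2 :=
      Primrec.snd.comp (Primrec.unpair.comp Primrec.snd)
    have hz : Primrec fun p : (ℕ × ℕ) × ℕ => Nat.pair p.1.2.unpair.1
        (Nat.pair p.2.unpair.1 (p.1.2.unpair.2.unpair.2 % 2 ^ p.2.unpair.1)) :=
      Primrec₂.natPair.comp hnb (Primrec₂.natPair.comp hk' (Primrec.nat_mod.comp hσ
        (Pool.Agent.EFA.H21.pow_prim.comp (Primrec.const 2) hk')))
    have hσr : Primrec fun p : (ℕ × ℕ) × ℕ => p.1.2.unpair.2.unpair.2 % 2 ^ r p.1.1 :=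
      Primrec.nat_mod.comp hσ (Pool.Agent.EFA.H21.pow_prim.comp (Primrec.const 2) (hr.comp hi))
    have hsel' : Computable fun p : (ℕ × ℕ) × ℕ =>
        sel p.1.1 (p.1.2.unpair.2.unpair.2 % 2 ^ r p.1.1) :=
      hsel.comp (hi.to_comp.pair hσr.to_comp)
    have h1 : Computable fun p : (ℕ × ℕ) × ℕ => evaln p.2.unpair.2
        (sel p.1.1 (p.1.2.unpair.2.unpair.2 % 2 ^ r p.1.1)) (Nat.pair p.1.2.unpair.1
        (Nat.pair p.2.unpair.1 (p.1.2.unpair.2.unpair.2 % 2 ^ p.2.unpair.1))) :=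
      primrec_evaln.to_comp.comp ((hs.to_comp.pair hsel').pair hz.to_comp)
    have h2 : ComputablePred fun p : (ℕ × ℕ) × ℕ =>
        stg (sel p.1.1 (p.1.2.unpair.2.unpair.2 % 2 ^ r p.1.1)) p.2.unpair.2
          (Nat.pair p.1.2.unpair.1
          (Nat.pair p.2.unpair.1 (p.1.2.unpair.2.unpair.2 % 2 ^ p.2.unpair.1))) :=
      compPred_of_bool (Primrec.option_isSome.to_comp.comp h1) fun p => Iff.rfl
    have h3 : PrimrecPred fun p : (ℕ × ℕ) × ℕ => r p.1.1 ≤ p.1.2.unpair.2.unpair.1 ∧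
        p.2.unpair.1 ≤ p.1.2.unpair.2.unpair.1 :=
      PrimrecPred.and (Primrec.nat_le.comp (hr.comp hi) hk) (Primrec.nat_le.comp hk' hk)
    exact comp_and h3.computablePred h2
  obtain ⟨w, hw, hw'⟩ := param' hS
  refine ⟨w, hw, fun B i n b => ?_⟩
  unfold Val
  constructor
  · rintro ⟨k, hk⟩
    obtain ⟨t, h1⟩ := (hw' _ _).1 hk
    simp only [S, Nat.unpair_pair] at h1
    obtain ⟨⟨h2, h3⟩, h4⟩ := h1
    refine ⟨t.unpair.1, wc_iff.2 ⟨t.unpair.2, ?_⟩⟩
    rw [ini_mod B h3, ini_mod B h2] at h4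
    exact h4
  · rintro ⟨k', hk'⟩
    obtain ⟨s, hs⟩ := wc_iff.1 hk'
    refine ⟨max k' (r i), (hw' _ _).2 ⟨Nat.pair k' s, ?_⟩⟩
    simp only [S, Nat.unpair_pair]
    rw [ini_mod B (le_max_left _ _), ini_mod B (le_max_right _ _)]
    exact ⟨⟨le_max_right _ _, le_max_left _ _⟩, hs⟩

/-- tables -/
def ent (T p : ℕ) : ℕ := ((fun z : ℕ => z.unpair.2)^[p] T).unpair.1

theorem ent_prim : Primrec fun q : ℕ × ℕ => ent q.1 q.2 := by
  have h1 : Primrec fun q : ℕ × ℕ => (fun z : ℕ => z.unpair.2)^[q.2] q.1 := by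
    refine Primrec.nat_iterate Primrec.snd Primrec.fst ?_
    exact (Primrec.snd.comp (Primrec.unpair.comp Primrec.snd)).to₂
  exact Primrec.fst.comp (Primrec.unpair.comp h1)

/-- the table of the values `U 0, …, U (s - 1)` -/
def tab (U : ℕ → ℕ) : ℕ → ℕ
  | 0 => 0
  | s + 1 => Nat.pair (U s) (tab U s)

theorem ent_tab (U : ℕ → ℕ) {s σ : ℕ} (h : σ < s) : ent (tab U s) (s - 1 - σ) = U σ := by
  induction s with
  | zero => exact absurd h (Nat.not_lt_zero _)
  | succ s ih =>
    rcases Nat.lt_succ_iff_lt_or_eq.1 h with h1 | h1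
    · have h2 : s + 1 - 1 - σ = (s - 1 - σ) + 1 := by omega
      rw [h2]
      unfold ent
      rw [Function.iterate_succ_apply]
      have h3 : (tab U (s + 1)).unpair.2 = tab U s := by
        show (Nat.pair (U s) (tab U s)).unpair.2 = tab U s
        rw [Nat.unpair_pair]
      rw [h3]
      exact ih h1
    · rw [h1]
      have h2 : s + 1 - 1 - s = 0 := by omega
      rw [h2]
      show (Nat.pair (U s) (tab U s)).unpair.1 = U s
      rw [Nat.unpair_pair]

theorem tab_cp {U : ℕ → ℕ → ℕ} (hU : Cp O fun m => U m.unpair.1 m.unpair.2) :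
    Cp O fun m => tab (U m.unpair.1) m.unpair.2 := by
  have h1 : Cp O fun m => Nat.pair (U m.unpair.1 m.unpair.2.unpair.1) m.unpair.2.unpair.2 := by
    refine Cp.pair ?_ (Cp.right.comp Cp.right)
    refine (hU.comp (Cp.left.pair (Cp.left.comp Cp.right))).of_eq fun n => ?_
    simp
  refine (Cp.prec (Cp.prim (Primrec.const 0)) h1).of_eq fun m => ?_
  generalize m.unpair.1 = a
  generalize m.unpair.2 = n
  induction n with
  | zero => rfl
  | succ n ih =>
    unfold tab
    rw [← ih]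
    simp

/-- the function `f` on r.e. indices transforms, effectively in `E` and the oracle and with
at most `m` candidates, the reductions of finite sets to the `j`-th r.e. set, in both directions -/
def UnifBnd (E : ℕ → Prop) (f : ℕ → ℕ) (j : ℕ) : Prop :=
  ∃ m : ℕ,
  (∃ u : ℕ → ℕ, Cp {chi (Wc (cd j)), chi E} u ∧ ∀ e i, {x | Wc (cd i) x}.Finite →
    Computes (cd e) (Wc (cd j)) (Wc (cd i)) →
    ∃ t < m, Computes (cd (u (Nat.pair t (Nat.pair e i)))) (Wc (cd (f j))) (Wc (cd (f i)))) ∧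
  (∃ v : ℕ → ℕ, Cp {chi (Wc (cd j)), chi E} v ∧ ∀ e i, {x | Wc (cd i) x}.Finite →
    Computes (cd e) (Wc (cd (f j))) (Wc (cd (f i))) →
    ∃ t < m, Computes (cd (v (Nat.pair t (Nat.pair e i)))) (Wc (cd j)) (Wc (cd i)))

/-- the upper bound for effective functions on indices with boundedly many candidates -/
theorem index_bnd {E : ℕ → Prop} {f : ℕ → ℕ} {j : ℕ} (hf : UnifBnd E f j) :
    TLEJ (Wc (cd (f j))) (Wc (cd j)) E := by
  classical
  obtain ⟨m, ⟨u, hu, hu'⟩, ⟨v, hv, hv'⟩⟩ := hf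
  obtain ⟨A, hA⟩ : ∃ A, A = Wc (cd (f j)) := ⟨_, rfl⟩
  obtain ⟨e, he, he'⟩ := finite_functional
  -- the sequence of sets
  obtain ⟨c', hc', hcc⟩ := param (S := fun (k n t : ℕ) => stg (cd (f j)) t n ∧ n < k)
    (PrimrecPred.and ((stg_primrec (cd (f j))).comp (Primrec.snd.pair
      (Primrec.snd.comp Primrec.fst))) (Primrec.nat_lt.comp (Primrec.snd.comp Primrec.fst)
        (Primrec.fst.comp Primrec.fst)))
  obtain ⟨c, hc⟩ : ∃ c : ℕ → ℕ, c = fun i => Encodable.encode (c' i) := ⟨_, rfl⟩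
  have hcp : Computable c := by
    rw [hc]
    exact Computable.encode.comp hc'
  have hcd : ∀ i, cd (c i) = c' i := fun i => by rw [hc, cd_encode]
  have hcA : ∀ k, Wc (cd (c k)) = fun n => n < k ∧ A n := by
    intro k
    refine funext fun n => propext ?_
    rw [hcd, hcc, hA, wc_iff]
    constructor
    · rintro ⟨t, h1, h2⟩
      exact ⟨h2, t, h1⟩
    · rintro ⟨h2, t, h1⟩
      exact ⟨t, h1, h2⟩
  have hcb : ∀ k, Wc (cd (c k)) = fun n => Nat.testBit (ini A k) n = true := by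
    intro k
    rw [hcA]
    refine funext fun n => propext ?_
    rw [ini_bit]
  have hcomp : ∀ k, {x | Wc (cd (c k)) x}.Finite := by
    intro k
    rw [hcA]
    exact (Set.finite_lt_nat k).subset fun x hx => hx.1
  have hep : Computable fun σ => Encodable.encode (e σ) := Computable.encode.comp he
  -- the functionals which read an initial segment of the oracle
  have hl : Primrec fun q : ℕ => q.unpair.1 := Primrec.fst.comp Primrec.unpair
  have hr : Primrec fun q : ℕ => q.unpair.2 := Primrec.snd.comp Primrec.unpair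
  have hsel : Computable fun p : ℕ × ℕ => cd (ent p.1.unpair.2 (2 ^ p.1.unpair.1 - 1 - p.2)) := by
    have h1 : Primrec fun p : ℕ × ℕ => 2 ^ p.1.unpair.1 - 1 - p.2 :=
      Primrec.nat_sub.comp (Primrec.nat_sub.comp (Pool.Agent.EFA.H21.pow_prim.comp
        (Primrec.const 2) (hl.comp Primrec.fst)) (Primrec.const 1)) Primrec.snd
    exact ((Primrec.ofNat Code).comp (ent_prim.comp ((hr.comp Primrec.fst).pair h1))).to_comp
  obtain ⟨w', hw', hww⟩ := read_functional
    (sel := fun i σ => cd (ent i.unpair.2 (2 ^ i.unpair.1 - 1 - σ))) hsel hl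
  -- the functional number `t`
  obtain ⟨U, hU⟩ : ∃ U : ℕ → ℕ → ℕ, U = fun q σ => u (Nat.pair q.unpair.1
    (Nat.pair (Encodable.encode (e σ)) (c q.unpair.2))) := ⟨_, rfl⟩
  have hUc : Cp {chi (Wc (cd j)), chi E} fun m => U m.unpair.1 m.unpair.2 := by
    rw [hU]
    exact hu.comp ((Cp.prim (hl.comp hl)).pair (((Cp.computable hep).comp (Cp.prim hr)).pair
      ((Cp.computable hcp).comp (Cp.prim (hr.comp hl)))))
  obtain ⟨w, hw⟩ : ∃ w : ℕ → ℕ, w = fun q => Encodable.encode (w' (Nat.pair q.unpair.2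
    (tab (U q) (2 ^ q.unpair.2)))) := ⟨_, rfl⟩
  have hwc : Cp {chi (Wc (cd j)), chi E} w := by
    rw [hw]
    have h1 : Computable fun q => Encodable.encode (w' q) := Computable.encode.comp hw'
    refine (Cp.computable h1).comp ((Cp.prim hr).pair ?_)
    refine ((tab_cp hUc).comp ((Cp.prim Primrec.id).pair (Cp.prim
      (Pool.Agent.EFA.H21.pow_prim.comp (Primrec.const 2) hr)))).of_eq fun q => ?_
    simp only [Nat.unpair_pair, id_eq]
  have hwv : ∀ k, ∃ t < m, Computes (cd (w (Nat.pair t k))) A (Wc (cd (f (c k)))) := by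
    intro k
    obtain ⟨t, ht, h1⟩ := hu' (Encodable.encode (e (ini A k))) (c k) (hcomp k) (by
      rw [hcb k, cd_encode]
      exact he' _ _)
    refine ⟨t, ht, fun n => ?_⟩
    have h2 : ∀ b, Val (cd (w (Nat.pair t k))) A n b ↔
        Val (cd (u (Nat.pair t (Nat.pair (Encodable.encode (e (ini A k))) (c k))))) A n b := by
      intro b
      rw [hw]
      simp only [Nat.unpair_pair]
      rw [cd_encode, hww]
      simp only [Nat.unpair_pair]
      rw [ent_tab _ (ini_lt A k), hU]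
      simp only [Nat.unpair_pair]
    rw [h2, h2, hA]
    rw [← hA] at h1 ⊢
    exact h1 n
  obtain ⟨x, hx⟩ : ∃ x : ℕ → ℕ, x = fun q => v (Nat.pair q.unpair.1.unpair.1
    (Nat.pair (w (Nat.pair q.unpair.1.unpair.2 q.unpair.2)) (c q.unpair.2))) := ⟨_, rfl⟩
  have hxc : Cp {chi (Wc (cd j)), chi E} x := by
    rw [hx]
    exact hv.comp ((Cp.prim (hl.comp hl)).pair ((hwc.comp ((Cp.prim (hr.comp hl)).pair
      (Cp.prim hr))).pair ((Cp.computable hcp).comp (Cp.prim hr))))
  rw [tlej_iff, ← hA]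
  refine cp_of_cand (B := Wc (cd j)) (x := x) (M := (m + 1) ^ 2) oracle_left hxc fun k => ?_
  obtain ⟨t, ht, h1⟩ := hwv k
  rw [hA] at h1
  obtain ⟨t', ht', h2⟩ := hv' (w (Nat.pair t k)) (c k) (hcomp k) h1
  refine ⟨Nat.pair t' t, ?_, ?_⟩
  · have h3 := Nat.pair_lt_max_add_one_sq t' t
    refine h3.trans_le (Nat.pow_le_pow_left ?_ 2)
    have : max t' t ≤ m := max_le ht'.le ht.le
    omega
  · rw [hx]
    simp only [Nat.unpair_pair]
    rw [← hcA k]
    exact h2

end Pool.Agent.Helper4RED
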