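import Pool.Agent.Helper4_RED.Tree

/-!
Boundedly many candidates, which may be undefined, for the initial segments of a set.
-/

set_option autoImplicit false

namespace Pool.Agent.Helper4RED

open Nat.Partrec (Code)
open Nat.Partrec.Code

variable {O : Set (ℕ →. ℕ)}

theorem sum_ind_eq_card (Q : ℕ → Prop) (M : ℕ) [DecidablePred Q] :
    ∑ p ∈ Finset.range M, ind Q p = ((Finset.range M).filter Q).card := by
  rw [Finset.card_filter]
  refine Finset.sum_congr rfl fun p _ => ?_
  by_cases h : Q p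
  · rw [ind_of h, if_pos h]
  · rw [ind_of_not h, if_neg h]

/-- **boundedly many candidates**: if for each `k` one of the first `M` candidates exists and is the
initial segment of length `k` of `A`, then `A` is computable from the oracles -/
theorem cand_thm {A : ℕ → Prop} {M : ℕ} {D0 : ℕ → ℕ → Prop}
    (hD : Dc O fun m => D0 m.unpair.1 m.unpair.2)
    (hr : ∀ k, ∃ p < M, (∃ y, D0 (Nat.pair p k) y) ∧
      ∀ y, D0 (Nat.pair p k) y → y.unpair.1 = ini A k) : Dc O A := by
  classical
  -- the number of candidates which exist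
  obtain ⟨cnt, hcnt⟩ : ∃ cnt : ℕ → ℕ, cnt = fun k =>
      ((Finset.range M).filter fun p => ∃ y, D0 (Nat.pair p k) y).card := ⟨_, rfl⟩
  have hcM : ∀ k, cnt k ≤ M := by
    intro k
    rw [hcnt]
    exact (Finset.card_filter_le _ _).trans (Finset.card_range M).le
  have hm : ∃ m, (∀ N, ∃ k ≥ N, m ≤ cnt k) ∧ ¬ ∀ N, ∃ k ≥ N, m + 1 ≤ cnt k := by
    by_contra h
    push Not at h
    have h1 : ∀ m, ∀ N, ∃ k ≥ N, m ≤ cnt k := by
      intro m
      induction m with
      | zero => exact fun N => ⟨N, le_refl _, Nat.zero_le _⟩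
      | succ m ih => exact h m ih
    obtain ⟨k, -, hk⟩ := h1 (M + 1) 0
    have := hcM k
    omega
  obtain ⟨m, hm1, hm2⟩ := hm
  push Not at hm2
  obtain ⟨k₀, hk₀⟩ := hm2
  -- the stages
  let P : ℕ → ℕ → Prop := fun q p => ∃ y < q.unpair.2.unpair.2, D0 (Nat.pair p q.unpair.2.unpair.1) y
  have hk : Primrec fun q : ℕ => q.unpair.2.unpair.1 :=
    Primrec.fst.comp (Primrec.unpair.comp (Primrec.snd.comp Primrec.unpair))
  have hs : Primrec fun q : ℕ => q.unpair.2.unpair.2 :=
    Primrec.snd.comp (Primrec.unpair.comp (Primrec.snd.comp Primrec.unpair))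
  have hl : Primrec fun q : ℕ => q.unpair.1 := Primrec.fst.comp Primrec.unpair
  have hri : Primrec fun q : ℕ => q.unpair.2 := Primrec.snd.comp Primrec.unpair
  have hP : Dc O fun m => P m.unpair.1 m.unpair.2 := by
    refine Dc.bex (P := fun m y => D0 (Nat.pair m.unpair.2 m.unpair.1.unpair.2.unpair.1) y) ?_
      (Cp.prim (hs.comp hl))
    have h1 := hD.comp (((Cp.prim (O := O) (hri.comp hl)).pair
      (Cp.prim (hk.comp (hl.comp hl)))).pair (Cp.prim hri))
    refine h1.of_iff fun q => ?_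
    simp only [Nat.unpair_pair]
  have hcp : Cp O fun q => ∑ p ∈ Finset.range M, ind (P q) p :=
    Cp.cnt hP (Cp.prim (Primrec.const M))
  let C : ℕ → Prop := fun q => (q.unpair.1 ≤ q.unpair.2.unpair.1 ∧ k₀ ≤ q.unpair.2.unpair.1) ∧
    m ≤ ∑ p ∈ Finset.range M, ind (P q) p
  have hC : Dc O C := by
    refine Dc.and (Dc.prim (PrimrecPred.and (Primrec.nat_le.comp hl hk)
      (Primrec.nat_le.comp (Primrec.const k₀) hk))) ?_
    exact (Dc.prim (Primrec.nat_le.comp (Primrec.const m) Primrec.id)).comp hcp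
  obtain ⟨g, hg, hg'⟩ := hC.search (fun N => by
    obtain ⟨k, hk1, hk2⟩ := hm1 (max N k₀)
    have hst : ∀ L : ℕ, ∃ s, ∀ p < L, (∃ y, D0 (Nat.pair p k) y) → ∃ y < s, D0 (Nat.pair p k) y := by
      intro L
      induction L with
      | zero => exact ⟨0, fun p hp => absurd hp (Nat.not_lt_zero _)⟩
      | succ L ih =>
        obtain ⟨s, hs⟩ := ih
        by_cases hL : ∃ y, D0 (Nat.pair L k) y
        · obtain ⟨y, hy⟩ := hL
          refine ⟨max s (y + 1), fun p hp h => ?_⟩
          rcases Nat.lt_succ_iff_lt_or_eq.1 hp with h1 | h1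
          · obtain ⟨y', hy', hy''⟩ := hs p h1 h
            exact ⟨y', hy'.trans_le (le_max_left _ _), hy''⟩
          · rw [h1]
            exact ⟨y, lt_of_lt_of_le (Nat.lt_succ_self y) (le_max_right _ _), hy⟩
        · refine ⟨s, fun p hp h => ?_⟩
          rcases Nat.lt_succ_iff_lt_or_eq.1 hp with h1 | h1
          · exact hs p h1 h
          · rw [h1] at h
            exact absurd h hL
    obtain ⟨s, hs⟩ := hst M
    refine ⟨Nat.pair k s, ?_⟩
    simp only [C, Nat.unpair_pair]
    refine ⟨⟨(le_max_left _ _).trans hk1, (le_max_right _ _).trans hk1⟩, ?_⟩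
    rw [sum_ind_eq_card]
    refine hk2.trans ?_
    rw [hcnt]
    refine Finset.card_le_card fun p hp => ?_
    rw [Finset.mem_filter] at hp ⊢
    refine ⟨hp.1, ?_⟩
    simp only [P, Nat.unpair_pair]
    exact hs p (Finset.mem_range.1 hp.1) hp.2)
  -- all candidates which exist are found
  have hall : ∀ N, ∀ p < M, (∃ y, D0 (Nat.pair p (g N).unpair.1) y) →
      ∃ y < (g N).unpair.2, D0 (Nat.pair p (g N).unpair.1) y := by
    intro N p hp hy
    obtain ⟨⟨h1, h2⟩, h3⟩ := hg' N
    rw [sum_ind_eq_card] at h3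
    simp only [Nat.unpair_pair] at h1 h2
    have h4 : (Finset.range M).filter (P (Nat.pair N (g N))) ⊆
        (Finset.range M).filter fun p => ∃ y, D0 (Nat.pair p (g N).unpair.1) y := by
      intro p hp
      rw [Finset.mem_filter] at hp ⊢
      refine ⟨hp.1, ?_⟩
      obtain ⟨y, -, hy⟩ := hp.2
      simp only [Nat.unpair_pair] at hy
      exact ⟨y, hy⟩
    have h5 : ((Finset.range M).filter fun p => ∃ y, D0 (Nat.pair p (g N).unpair.1) y).card ≤
        ((Finset.range M).filter (P (Nat.pair N (g N)))).card := by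
      have h6 := hk₀ (g N).unpair.1 h2
      rw [hcnt] at h6
      simp only at h6
      omega
    have h6 := Finset.eq_of_subset_of_card_le h4 h5
    have h7 : p ∈ (Finset.range M).filter (P (Nat.pair N (g N))) := by
      rw [h6, Finset.mem_filter]
      exact ⟨Finset.mem_range.2 hp, hy⟩
    rw [Finset.mem_filter] at h7
    have h8 := h7.2
    simp only [P, Nat.unpair_pair] at h8
    exact h8
  -- the decidable family of candidates
  let D : ℕ → ℕ → Prop := fun i τ => ∃ p < M, ∃ y < (g i).unpair.2,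
    D0 (Nat.pair p (g i).unpair.1) y ∧ (∀ y' < y, ¬ D0 (Nat.pair p (g i).unpair.1) y') ∧
      y.unpair.1 % 2 ^ i = τ
  have hgk : Cp O fun i => (g i).unpair.1 := Cp.left.comp hg
  have hgs : Cp O fun i => (g i).unpair.2 := Cp.right.comp hg
  have hDD : Dc O fun q => D q.unpair.1 q.unpair.2 := by
    refine Dc.bex (P := fun q p => ∃ y < (g q.unpair.1).unpair.2,
      D0 (Nat.pair p (g q.unpair.1).unpair.1) y ∧
        (∀ y' < y, ¬ D0 (Nat.pair p (g q.unpair.1).unpair.1) y') ∧
          y.unpair.1 % 2 ^ q.unpair.1 = q.unpair.2) ?_ (Cp.prim (Primrec.const M))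
    refine Dc.bex (P := fun q y => D0 (Nat.pair q.unpair.2 (g q.unpair.1.unpair.1).unpair.1) y ∧
        (∀ y' < y, ¬ D0 (Nat.pair q.unpair.2 (g q.unpair.1.unpair.1).unpair.1) y') ∧
          y.unpair.1 % 2 ^ q.unpair.1.unpair.1 = q.unpair.1.unpair.2) ?_
      (hgs.comp (Cp.prim (hl.comp hl)))
    have e1 : Cp O fun q : ℕ => Nat.pair q.unpair.1.unpair.2
        (g q.unpair.1.unpair.1.unpair.1).unpair.1 :=
      (Cp.prim (hri.comp hl)).pair (hgk.comp (Cp.prim (hl.comp (hl.comp hl))))
    refine Dc.and ?_ (Dc.and ?_ (Dc.prim ?_))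
    · refine (hD.comp (e1.pair (Cp.prim hri))).of_iff fun q => ?_
      simp only [Nat.unpair_pair]
    · refine Dc.ball (P := fun q y' => ¬ D0 (Nat.pair q.unpair.1.unpair.2
        (g q.unpair.1.unpair.1.unpair.1).unpair.1) y') ?_ (Cp.prim hri)
      refine Dc.not ?_
      have e2 : Cp O fun q : ℕ => Nat.pair q.unpair.1.unpair.1.unpair.2
          (g q.unpair.1.unpair.1.unpair.1.unpair.1).unpair.1 :=
        (Cp.prim (hri.comp (hl.comp hl))).pair
          (hgk.comp (Cp.prim (hl.comp (hl.comp (hl.comp hl)))))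
      refine (hD.comp (e2.pair (Cp.prim hri))).of_iff fun q => ?_
      simp only [Nat.unpair_pair]
    · refine Primrec.eq.comp (Primrec.nat_mod.comp (hl.comp hri)
        (Pool.Agent.EFA.H21.pow_prim.comp (Primrec.const 2) (hl.comp (hl.comp hl))))
        (hri.comp (hl.comp hl))
  refine tree_thm M D 0 hDD ?_ ?_
  · intro i _
    obtain ⟨p, hp, hex, huni⟩ := hr (g i).unpair.1
    obtain ⟨y, hy, hy'⟩ := hall i p hp hex
    have hle : i ≤ (g i).unpair.1 := by
      have := (hg' i).1.1
      simp only [Nat.unpair_pair] at this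
      exact this
    refine ⟨p, hp, Nat.find hex, (Nat.find_min' hex hy').trans_lt hy, Nat.find_spec hex,
      fun y' hy' => Nat.find_min hex hy', ?_⟩
    rw [huni _ (Nat.find_spec hex), ini_mod A hle]
  · intro i _
    refine ⟨(Finset.range M).image fun p =>
      if h : ∃ y, D0 (Nat.pair p (g i).unpair.1) y then (Nat.find h).unpair.1 % 2 ^ i else 0, ?_, ?_⟩
    · exact Finset.card_image_le.trans (Finset.card_range M).le
    · rintro τ _ ⟨p, hp, y, -, hy, hmin, hτ⟩
      rw [Finset.mem_image]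
      refine ⟨p, Finset.mem_range.2 hp, ?_⟩
      have hex : ∃ y, D0 (Nat.pair p (g i).unpair.1) y := ⟨y, hy⟩
      rw [dif_pos hex]
      have h1 : Nat.find hex = y := by
        rw [Nat.find_eq_iff]
        exact ⟨hy, fun n hn => hmin n hn⟩
      rw [h1, hτ]

end Pool.Agent.Helper4RED
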