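import Pool.Agent.Helper4_RED.BM

/-!
The upper bound for monotone maps that send uniformly computable sequences to uniformly computable
sequences: sparse coding.
-/

set_option autoImplicit false

namespace Pool.Agent.Helper4RED

variable {A E : ℕ → Prop} {F : (ℕ → Prop) → (ℕ → Prop)} {O : Set (ℕ →. ℕ)}

/-- codes of the lists `[r k, ..., r 0]` -/
def hc (g : ℕ → ℕ) : ℕ → ℕ
  | 0 => Nat.succ (Nat.pair 0 0)
  | k + 1 => Nat.succ (Nat.pair (g (hc g k + k) + (hc g k - 1).unpair.1 + 1) (hc g k))

/-- the sparse sequence -/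
def rr (g : ℕ → ℕ) (k : ℕ) : ℕ := (hc g k - 1).unpair.1

theorem rr_zero (g : ℕ → ℕ) : rr g 0 = 0 := by simp [rr, hc]

theorem rr_succ (g : ℕ → ℕ) (k : ℕ) : rr g (k + 1) = g (hc g k + k) + rr g k + 1 := by
  simp [rr, hc]

theorem hc_succ (g : ℕ → ℕ) (k : ℕ) :
    hc g (k + 1) = Nat.succ (Nat.pair (rr g (k + 1)) (hc g k)) := by
  rw [rr_succ]
  rfl

theorem rr_lt (g : ℕ → ℕ) (k : ℕ) : rr g k < rr g (k + 1) := by
  rw [rr_succ]
  omega

theorem rr_mono (g : ℕ → ℕ) : StrictMono (rr g) := strictMono_nat_of_lt_succ (rr_lt g)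

theorem hc_cp {g : ℕ → ℕ} (hg : Cp O g) : Cp O (hc g) := by
  have h1 : Cp O fun m : ℕ => Nat.succ (Nat.pair (g (m.unpair.2.unpair.2 + m.unpair.2.unpair.1) +
      (m.unpair.2.unpair.2 - 1).unpair.1 + 1) m.unpair.2.unpair.2) := by
    have h2 : Cp O fun m : ℕ => m.unpair.2.unpair.2 := Cp.right.comp Cp.right
    have h3 : Cp O fun m : ℕ => m.unpair.2.unpair.1 := Cp.left.comp Cp.right
    have h4 : Cp O fun m : ℕ => g (m.unpair.2.unpair.2 + m.unpair.2.unpair.1) :=
      hg.comp (h2.add h3)
    have h5 : Cp O fun m : ℕ => (m.unpair.2.unpair.2 - 1).unpair.1 :=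
      Cp.left.comp (h2.sub (Cp.prim (Primrec.const 1)))
    exact (Cp.prim Primrec.succ).comp (((h4.add h5).add (Cp.prim (Primrec.const 1))).pair h2)
  have h2 := Cp.prec (Cp.prim (Primrec.const (Nat.succ (Nat.pair 0 0)))) h1
  have h3 : Cp O fun n => Nat.pair 0 n := (Cp.prim (Primrec.const 0)).pair (Cp.prim Primrec.id)
  refine (h2.comp h3).of_eq fun n => ?_
  simp only [Nat.unpair_pair]
  induction n with
  | zero => rfl
  | succ n ih =>
    simp only
    rw [ih]
    rfl

theorem rr_cp {g : ℕ → ℕ} (hg : Cp O g) : Cp O (rr g) :=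
  Cp.left.comp ((hc_cp hg).sub (Cp.prim (Primrec.const 1)))

/-- the list of the `r i`, `i ≤ k` -/
def LL (g : ℕ → ℕ) : ℕ → List ℕ
  | 0 => [rr g 0]
  | k + 1 => rr g (k + 1) :: LL g k

open Classical in
/-- the list of the `r i`, `i ≤ k`, `i ∈ A` -/
noncomputable def LA (A : ℕ → Prop) (g : ℕ → ℕ) : ℕ → List ℕ
  | 0 => if A 0 then [rr g 0] else []
  | k + 1 => if A (k + 1) then rr g (k + 1) :: LA A g k else LA A g k

theorem encode_LL (g : ℕ → ℕ) (k : ℕ) : Encodable.encode (LL g k) = hc g k := by
  induction k with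
  | zero => simp [LL, hc, rr_zero]
  | succ k ih =>
    rw [hc_succ, LL, Encodable.encode_list_cons, ih]
    rfl

theorem encode_LA (A : ℕ → Prop) (g : ℕ → ℕ) (k : ℕ) :
    Encodable.encode (LA A g k) ≤ hc g k := by
  classical
  rw [← encode_LL]
  induction k with
  | zero =>
    rw [LA, LL]
    split
    · exact le_refl _
    · simp
  | succ k ih =>
    rw [LA, LL]
    split
    · rw [Encodable.encode_list_cons, Encodable.encode_list_cons]
      refine Nat.succ_le_succ ?_
      rcases ih.lt_or_eq with h | h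
      · exact (Nat.pair_lt_pair_right _ h).le
      · rw [h]
    · rw [Encodable.encode_list_cons]
      exact ih.trans ((Nat.right_le_pair _ _).trans (Nat.le_succ _))

theorem mem_LA {A : ℕ → Prop} {g : ℕ → ℕ} {k x : ℕ} :
    x ∈ LA A g k ↔ ∃ i ≤ k, A i ∧ rr g i = x := by
  classical
  induction k with
  | zero =>
    rw [LA]
    split
    · rename_i h
      constructor
      · intro h1
        rw [List.mem_singleton] at h1
        exact ⟨0, le_refl 0, h, h1.symm⟩
      · rintro ⟨i, h1, h2, h3⟩
        rw [Nat.le_zero.1 h1] at h3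
        rw [h3]
        exact List.mem_singleton_self _
    · rename_i h
      constructor
      · exact fun h1 => absurd h1 List.not_mem_nil
      · rintro ⟨i, h1, h2, h3⟩
        rw [Nat.le_zero.1 h1] at h2
        exact absurd h2 h
  | succ k ih =>
    rw [LA]
    split
    · rename_i h
      rw [List.mem_cons, ih]
      constructor
      · rintro (h1 | ⟨i, h1, h2, h3⟩)
        · exact ⟨k + 1, le_refl _, h, h1.symm⟩
        · exact ⟨i, h1.trans (Nat.le_succ k), h2, h3⟩
      · rintro ⟨i, h1, h2, h3⟩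
        rcases Nat.le_succ_iff.1 h1 with h4 | h4
        · exact Or.inr ⟨i, h4, h2, h3⟩
        · rw [h4] at h3
          exact Or.inl h3.symm
    · rename_i h
      rw [ih]
      constructor
      · rintro ⟨i, h1, h2, h3⟩
        exact ⟨i, h1.trans (Nat.le_succ k), h2, h3⟩
      · rintro ⟨i, h1, h2, h3⟩
        rcases Nat.le_succ_iff.1 h1 with h4 | h4
        · exact ⟨i, h4, h2, h3⟩
        · rw [h4] at h2
          exact absurd h2 h

theorem LA_cp {g : ℕ → ℕ} (hg : Cp O g) (hA : Cp O (ind A)) :
    Cp O fun k => Encodable.encode (LA A g k) := by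
  classical
  have h1 : Cp O fun m : ℕ => ind A (m.unpair.2.unpair.1 + 1) *
      Nat.succ (Nat.pair (rr g (m.unpair.2.unpair.1 + 1)) m.unpair.2.unpair.2) +
      (1 - ind A (m.unpair.2.unpair.1 + 1)) * m.unpair.2.unpair.2 := by
    have h2 : Cp O fun m : ℕ => m.unpair.2.unpair.2 := Cp.right.comp Cp.right
    have h3 : Cp O fun m : ℕ => m.unpair.2.unpair.1 + 1 :=
      (Cp.left.comp Cp.right).add (Cp.prim (Primrec.const 1))
    have h4 : Cp O fun m : ℕ => ind A (m.unpair.2.unpair.1 + 1) := hA.comp h3
    have h5 : Cp O fun m : ℕ => rr g (m.unpair.2.unpair.1 + 1) := (rr_cp hg).comp h3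
    exact (h4.mul ((Cp.prim Primrec.succ).comp (h5.pair h2))).add
      (((Cp.prim (Primrec.const 1)).sub h4).mul h2)
  have h2 := Cp.prec (Cp.prim (Primrec.const (Encodable.encode (LA A g 0)))) h1
  have h3 : Cp O fun n => Nat.pair 0 n := (Cp.prim (Primrec.const 0)).pair (Cp.prim Primrec.id)
  refine (h2.comp h3).of_eq fun n => ?_
  simp only [Nat.unpair_pair]
  induction n with
  | zero => rfl
  | succ n ih =>
    simp only
    rw [ih, LA]
    by_cases h : A (n + 1)
    · rw [ind_of h, if_pos h, Encodable.encode_list_cons]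
      simp
    · rw [ind_of_not h, if_neg h]
      simp

theorem re_of_comp {α : Type*} [Primcodable α] {q : α → ℕ → Prop}
    (hq : ComputablePred fun p : α × ℕ => q p.1 p.2) : REPred fun x => ∃ t, q x t := by
  classical
  have h2 : Partrec fun x : α => Nat.rfind fun n => Part.some (decide (q x n)) :=
    Partrec.rfind hq.decide.partrec
  refine h2.dom_re.of_eq fun x => ?_
  rw [Nat.rfind_dom]
  simp

theorem comp_and {α : Type*} [Primcodable α] {p q : α → Prop} (hp : ComputablePred p)
    (hq : ComputablePred q) : ComputablePred fun x => p x ∧ q x := by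
  classical
  refine ⟨inferInstance, ?_⟩
  refine (Primrec.and.to_comp.comp hp.decide hq.decide).of_eq fun x => ?_
  simp

/-- the upper bound -/
theorem bm_upper (hm : Mono F) (hb : SeqComputable F) (hF : OrdMap F) (hA : REPred A) :
    TLE (F A) A := by
  classical
  have hE : ComputablePred (F fun _ => False) := by
    have h1 := hb (fun _ _ => False) primrec_false.computablePred
    have h2 : Computable fun n : ℕ => Nat.pair 0 n :=
      (Primrec₂.natPair.comp (Primrec.const 0) Primrec.id).to_comp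
    refine ⟨inferInstance, (h1.decide.comp h2).of_eq fun n => ?_⟩
    simp [seqJoin]
  by_cases h0 : TLE A fun _ => False
  · exact (hF.min hA h0 re_false).trans (tle_of_comp hE _)
  have hex := exists_good hm hb hA h0
  obtain ⟨g, hg, hg'⟩ := (good_cp hb).search (fun M => by
    obtain ⟨N, hN⟩ := hex M
    refine ⟨N, ?_⟩
    rw [ind_eq_zero, Nat.unpair_pair, not_not]
    exact hN)
  have hgood : ∀ M, Good F M (g M) := by
    intro M
    have h1 := hg' M
    rw [ind_eq_zero, Nat.unpair_pair, not_not] at h1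
    exact h1
  have hr : Computable (rr g) := computable_of_cp (rr_cp hg)
  let Y : ℕ → Prop := fun x => ∃ k, A k ∧ rr g k = x
  have hY : REPred Y := by
    obtain ⟨a, ha, hmo, hAa⟩ := re_stage hA
    have h1 : ComputablePred fun p : ℕ × ℕ => a p.2.unpair.1 p.2.unpair.2 ∧
        rr g p.2.unpair.2 = p.1 := by
      refine comp_and ?_ ?_
      · have h2 : PrimrecPred fun p : ℕ × ℕ => a p.2.unpair.1 p.2.unpair.2 :=
          ha.comp ((Primrec.fst.comp (Primrec.unpair.comp Primrec.snd)).pair
            (Primrec.snd.comp (Primrec.unpair.comp Primrec.snd)))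
        exact h2.computablePred
      · have h2 : Primrec fun p : ℕ × ℕ => p.2.unpair.2 :=
          Primrec.snd.comp (Primrec.unpair.comp Primrec.snd)
        have h3 : Computable fun p : ℕ × ℕ => decide (rr g p.2.unpair.2 = p.1) :=
          (Primrec.eq (α := ℕ)).decide.to_comp.comp (hr.comp h2.to_comp) Computable.fst
        exact ⟨inferInstance, h3⟩
    refine (re_of_comp (q := fun x t => a t.unpair.1 t.unpair.2 ∧ rr g t.unpair.2 = x) h1).of_eq
      fun x => ?_
    constructor
    · rintro ⟨t, h2, h3⟩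
      exact ⟨t.unpair.2, (hAa _).2 ⟨_, h2⟩, h3⟩
    · rintro ⟨k, h2, h3⟩
      obtain ⟨s, hs⟩ := (hAa k).1 h2
      refine ⟨Nat.pair s k, ?_⟩
      simp only [Nat.unpair_pair]
      exact ⟨hs, h3⟩
  have hAY : TLE A Y := by
    rw [tle_iff]
    have h1 : Cp {chi Y} (rr g) := Cp.computable hr
    refine (oracle_self.comp h1).of_eq fun k => ind_congr ?_
    constructor
    · rintro ⟨i, h2, h3⟩
      rw [← (rr_mono g).injective h3]
      exact h2
    · intro h2
      exact ⟨k, h2, rfl⟩
  have hkey : ∀ y, F Y y ↔ F (fin (LA A g y)) y := by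
    intro y
    constructor
    · intro h1
      by_contra h2
      have h3 := hgood (hc g y + y) (Encodable.encode (LA A g y))
        ((encode_LA A g y).trans (Nat.le_add_right _ _)) y (Nat.le_add_left _ _)
      rw [Denumerable.ofNat_encode] at h3
      rcases h3 with h3 | h3
      · exact h2 h3
      · apply h3
        refine hm Y _ hY (re_of_prim (cof_primrec _ _)) ?_ y h1
        rintro x ⟨k, h4, rfl⟩
        rcases le_or_gt k y with h5 | h5
        · exact Or.inl (mem_LA.2 ⟨k, h5, h4, rfl⟩)
        · refine Or.inr ?_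
          have h6 : rr g (y + 1) ≤ rr g k := (rr_mono g).monotone h5
          have h7 := rr_succ g y
          omega
    · intro h1
      refine hm _ Y (re_of_prim (fin_primrec _)) hY ?_ y h1
      intro x hx
      obtain ⟨i, -, h2, h3⟩ := mem_LA.1 hx
      exact ⟨i, h2, h3⟩
  have hFY : TLE (F Y) A := by
    rw [tle_iff]
    have h1 : Cp {chi A} (ind (seqJoin fun e => F (fin (Denumerable.ofNat (List ℕ) e)))) :=
      cp_of_comp (hb (fun e => fin (Denumerable.ofNat (List ℕ) e)) fin_seq.computablePred)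
    have h2 : Cp {chi A} g := Cp.computable (computable_of_cp hg)
    have h3 : Cp {chi A} fun y => Nat.pair (Encodable.encode (LA A g y)) y :=
      (LA_cp h2 oracle_self).pair (Cp.prim Primrec.id)
    refine (h1.comp h3).of_eq fun y => ind_congr ?_
    rw [hkey y]
    unfold seqJoin
    simp
  exact (hF.mono A Y hA hY hAY).trans hFY

end Pool.Agent.Helper4RED
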