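import Pool.Agent.Helper4_RED.Mod
import Pool.Agent.Helper4_RED.Upper

/-!
Maps that are continuous along initial segments and send uniformly computable sequences to
uniformly computable sequences.
-/

set_option autoImplicit false

namespace Pool.Agent.Helper4RED

open Pool.Agent.EFA (bo fs Le)

variable {A E : ℕ → Prop} {F : (ℕ → Prop) → (ℕ → Prop)} {O : Set (ℕ →. ℕ)}

theorem ind_bo (A : ℕ → Prop) (n : ℕ) : (bo A n).toNat = ind A n := by
  by_cases h : A n
  · rw [ind_of h, Mod.bo_eq_true.2 h]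
    rfl
  · have h1 : bo A n = false := by
      rw [← Bool.not_eq_true, Mod.bo_eq_true]
      exact h
    rw [ind_of_not h, h1]
    rfl

theorem chi_bo (A : ℕ → Prop) : Pool.Agent.Helper25TD.chi (bo A) = chi A := by
  funext n
  change Part.some (bo A n).toNat = _
  rw [ind_bo]
  rfl

theorem le_tle (A B : ℕ → Prop) : Le A B ↔ TLE A B := by
  unfold Le TLE Pool.Agent.Helper25TD.TLE
  rw [chi_bo, chi_bo]

theorem comp_bo {P : ℕ → Prop} : Computable (bo P) ↔ ComputablePred P := by
  classical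
  constructor
  · exact fun h => ⟨fun n => Classical.propDecidable _, h⟩
  · intro h
    refine h.decide.of_eq fun n => ?_
    rw [Bool.eq_iff_iff, Mod.bo_eq_true, decide_eq_true_iff]

theorem bms_of_seq (hb : SeqComputable F) : Mod.BMS F := fun C hC =>
  comp_bo.2 (hb C (comp_bo.1 hC))

/-- the code of `{r u : u < n, P u}` -/
noncomputable def SS (r : ℕ → ℕ) (P : ℕ → Prop) (n : ℕ) : ℕ :=
  ∑ u ∈ Finset.range n, ind P u * 2 ^ r u

variable {r : ℕ → ℕ} {P : ℕ → Prop}

theorem SS_succ (r : ℕ → ℕ) (P : ℕ → Prop) (n : ℕ) :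
    SS r P (n + 1) = SS r P n + ind P n * 2 ^ r n := Finset.sum_range_succ _ _

theorem SS_congr {P Q : ℕ → Prop} {n : ℕ} (h : ∀ u < n, P u ↔ Q u) : SS r P n = SS r Q n := by
  unfold SS
  refine Finset.sum_congr rfl fun u hu => ?_
  rw [ind_congr (h u (Finset.mem_range.1 hu))]

theorem ind_le (P : ℕ → Prop) (n : ℕ) : ind P n ≤ 1 := by
  unfold ind
  split <;> omega

theorem SS_lt (hgap : ∀ k, r k + 2 ≤ r (k + 1)) (P : ℕ → Prop) (n : ℕ) :
    SS r P n < 2 ^ r n ∧ SS r P (n + 1) < 2 ^ (r n + 1) := by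
  have h1 : SS r P n < 2 ^ r n → SS r P (n + 1) < 2 ^ (r n + 1) := by
    intro h
    rw [SS_succ, pow_succ]
    have h2 := ind_le P n
    have h3 : ind P n * 2 ^ r n ≤ 1 * 2 ^ r n := Nat.mul_le_mul_right _ h2
    omega
  induction n with
  | zero =>
    have h2 : SS r P 0 < 2 ^ r 0 := by
      unfold SS
      simp
    exact ⟨h2, h1 h2⟩
  | succ n ih =>
    have h2 : SS r P n < 2 ^ r n → SS r P (n + 1) < 2 ^ (r n + 1) := by
      intro h
      rw [SS_succ, pow_succ]
      have h2 := ind_le P n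
      have h3 : ind P n * 2 ^ r n ≤ 1 * 2 ^ r n := Nat.mul_le_mul_right _ h2
      omega
    have h3 : SS r P (n + 1) < 2 ^ (r n + 1) := by
      have h4 : SS r P n < 2 ^ r n := by
        by_contra h5
        cases n with
        | zero =>
          apply h5
          unfold SS
          simp
        | succ m => exact h5 (by
            have := (ih (by
              intro h
              rw [SS_succ, pow_succ]
              have h2 := ind_le P (m + 1)
              have h3 : ind P (m + 1) * 2 ^ r (m + 1) ≤ 1 * 2 ^ r (m + 1) :=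
                Nat.mul_le_mul_right _ h2
              omega)).1
            exact this)
      exact h2 h4
    have h4 : SS r P (n + 1) < 2 ^ r (n + 1) :=
      h3.trans_le (Nat.pow_le_pow_right (by norm_num) (by have := hgap n; omega))
    exact ⟨h4, h1 h4⟩

theorem testBit_add {j x : ℕ} (h : j < 2 ^ x) (z : ℕ) :
    Nat.testBit (j + 2 ^ x) z = true ↔ Nat.testBit j z = true ∨ z = x := by
  have h1 := Nat.testBit_two_pow_mul_add 1 h z
  rw [mul_one, add_comm] at h1
  rw [h1]
  rcases lt_trichotomy z x with h2 | h2 | h2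
  · rw [if_pos h2]
    constructor
    · exact fun h3 => Or.inl h3
    · rintro (h3 | h3)
      · exact h3
      · omega
  · rw [if_neg (by omega), h2, Nat.sub_self]
    simp
  · rw [if_neg (by omega)]
    obtain ⟨d, hd⟩ : ∃ d, z - x = d + 1 := ⟨z - x - 1, by omega⟩
    rw [hd, Nat.testBit_succ]
    have h3 : Nat.testBit j z = false :=
      Nat.testBit_lt_two_pow (h.trans_le (Nat.pow_le_pow_right (by norm_num) h2.le))
    rw [h3]
    simp
    omega

theorem fs_SS (hgap : ∀ k, r k + 2 ≤ r (k + 1)) (P : ℕ → Prop) (n : ℕ) :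
    fs (SS r P n) = fun x => ∃ u < n, P u ∧ r u = x := by
  induction n with
  | zero =>
    funext x
    unfold fs SS
    simp
  | succ n ih =>
    funext x
    have h1 : fs (SS r P n) x = ∃ u < n, P u ∧ r u = x := congrFun ih x
    unfold fs at h1 ⊢
    rw [SS_succ]
    refine propext ?_
    by_cases h : P n
    · rw [ind_of h, one_mul, testBit_add (SS_lt hgap P n).1 x, h1]
      constructor
      · rintro (⟨u, h2, h3, h4⟩ | h2)
        · exact ⟨u, h2.trans (Nat.lt_succ_self n), h3, h4⟩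
        · exact ⟨n, Nat.lt_succ_self n, h, h2.symm⟩
      · rintro ⟨u, h2, h3, h4⟩
        rcases Nat.lt_succ_iff_lt_or_eq.1 h2 with h5 | h5
        · exact Or.inl ⟨u, h5, h3, h4⟩
        · rw [h5] at h4
          exact Or.inr h4.symm
    · rw [ind_of_not h, zero_mul, add_zero, h1]
      constructor
      · rintro ⟨u, h2, h3, h4⟩
        exact ⟨u, h2.trans (Nat.lt_succ_self n), h3, h4⟩
      · rintro ⟨u, h2, h3, h4⟩
        rcases Nat.lt_succ_iff_lt_or_eq.1 h2 with h5 | h5
        · exact ⟨u, h5, h3, h4⟩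
        · rw [h5] at h3
          exact absurd h3 h

/-- `F X` is the pointwise limit of the values at the initial segments of `X` -/
def Contin (F : (ℕ → Prop) → (ℕ → Prop)) : Prop :=
  ∀ X : ℕ → Prop, REPred X → ∀ y, ∃ n₀, ∀ n ≥ n₀, (F (fun x => X x ∧ x < n) y ↔ F X y)

/-- the value at a sparse set -/
theorem val {V N : ℕ → ℕ → ℕ} (hc : Contin F)
    (hVF : ∀ j y, V j y = (bo (F (fs j)) y).toNat)
    (hgap : ∀ k, r k + 2 ≤ r (k + 1))
    (hbd : ∀ k j y, j < 2 ^ (r k + 1) → y ≤ k → N j y ≤ r (k + 1))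
    (hmod : ∀ j y x, N j y ≤ x → j < 2 ^ x → V (j + 2 ^ x) y = V j y)
    (P : ℕ → Prop) (hZ : REPred fun x => ∃ u, P u ∧ r u = x) (y : ℕ) :
    ind (F fun x => ∃ u, P u ∧ r u = x) y = V (SS r P (y + 1)) y := by
  have hmono : StrictMono r := strictMono_nat_of_lt_succ fun k => by
    have := hgap k
    omega
  have hstep : ∀ n, y + 1 ≤ n → V (SS r P (n + 1)) y = V (SS r P n) y := by
    intro n hn
    rw [SS_succ]
    by_cases h : P n
    · rw [ind_of h, one_mul]
      refine hmod _ _ _ ?_ (SS_lt hgap P n).1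
      obtain ⟨m, rfl⟩ : ∃ m, n = m + 1 := ⟨n - 1, by omega⟩
      exact hbd m _ y (SS_lt hgap P m).2 (by omega)
    · rw [ind_of_not h, zero_mul, add_zero]
  have hall : ∀ d, V (SS r P (y + 1 + d)) y = V (SS r P (y + 1)) y := by
    intro d
    induction d with
    | zero => rfl
    | succ d ih => rw [← add_assoc, hstep (y + 1 + d) (by omega), ih]
  obtain ⟨n₀, hn₀⟩ := hc _ hZ y
  have h1 := hn₀ (r (y + 1 + n₀)) (by
    have : y + 1 + n₀ ≤ r (y + 1 + n₀) := hmono.le_apply
    omega)
  have h2 : (fun x => (∃ u, P u ∧ r u = x) ∧ x < r (y + 1 + n₀)) = fs (SS r P (y + 1 + n₀)) := by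
    rw [fs_SS hgap]
    funext x
    refine propext ?_
    constructor
    · rintro ⟨⟨u, h3, rfl⟩, h4⟩
      exact ⟨u, hmono.lt_iff_lt.1 h4, h3, rfl⟩
    · rintro ⟨u, h3, h4, rfl⟩
      exact ⟨⟨u, h4, rfl⟩, hmono h3⟩
  rw [h2] at h1
  rw [← hall n₀, hVF, ind_bo]
  exact (ind_congr h1).symm

end Pool.Agent.Helper4RED
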