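import Pool.Agent.Helper4_RED.Cont

/-!
Maps that are continuous along initial segments and send uniformly computable sequences to
uniformly computable sequences: the two bounds.
-/

set_option autoImplicit false

namespace Pool.Agent.Helper4RED

open Pool.Agent.EFA (bo fs Le)

variable {A E : ℕ → Prop} {F : (ℕ → Prop) → (ℕ → Prop)} {O : Set (ℕ →. ℕ)} {r : ℕ → ℕ}

/-- the data -/
theorem cont_data (hb : SeqComputable F) (hc : Contin F) :
    ∃ (V : ℕ → ℕ → ℕ) (r : ℕ → ℕ), Computable₂ V ∧ Computable r ∧ (∀ k, r k + 2 ≤ r (k + 1)) ∧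
      ∀ P : ℕ → Prop, REPred (fun x => ∃ u, P u ∧ r u = x) → ∀ y,
        ind (F fun x => ∃ u, P u ∧ r u = x) y = V (SS r P (y + 1)) y := by
  have hB := bms_of_seq hb
  obtain ⟨V, hV, hVF⟩ := Mod.exists_V hB
  obtain ⟨N, hN, hmod⟩ := Mod.exists_N hB hV hVF
  obtain ⟨r, hr, hgap, hbd⟩ := Pool.Agent.EFA.H59.spr N hN
  exact ⟨V, r, hV, hr, hgap, fun P hP y => val hc hVF hgap hbd hmod P hP y⟩

theorem V_cp {V : ℕ → ℕ → ℕ} (hV : Computable₂ V) : Cp O fun m => V m.unpair.1 m.unpair.2 :=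
  Cp.computable (Computable₂.comp hV (Computable.fst.comp Computable.unpair)
    (Computable.snd.comp Computable.unpair))

theorem pow_cp (hr : Computable r) : Cp O fun u => 2 ^ r u := by
  have h1 : Cp O fun m => m.unpair.1 ^ m.unpair.2 :=
    Cp.prim (Pool.Agent.EFA.H21.pow_prim.comp (Primrec.fst.comp Primrec.unpair)
      (Primrec.snd.comp Primrec.unpair))
  refine (h1.comp ((Cp.prim (Primrec.const 2)).pair (Cp.computable hr))).of_eq fun n => ?_
  simp

/-- sums with parameters -/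
theorem SS_cp (hr : Computable r) {P : ℕ → ℕ → Prop}
    (hP : Cp O (ind fun m => P m.unpair.1 m.unpair.2)) :
    Cp O fun m => SS r (P m.unpair.1) m.unpair.2 := by
  have h0 : Cp O fun m => ind (P m.unpair.1) m.unpair.2 * 2 ^ r m.unpair.2 := by
    refine Cp.mul ?_ ((pow_cp hr).comp Cp.right)
    exact hP
  exact Cp.sum (p := fun x u => ind (P x) u * 2 ^ r u) h0

theorem cont_upper (hb : SeqComputable F) (hc : Contin F) (hF : OrdMap F) (hA : REPred A) :
    TLE (F A) A := by
  obtain ⟨V, r, hV, hr, hgap, hval⟩ := cont_data hb hc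
  obtain ⟨hY, hAY, -⟩ := Pool.Agent.EFA.H23.cod r hr hgap A hA
  rw [le_tle] at hAY
  refine (hF.mono A _ hA hY hAY).trans ?_
  rw [tle_iff]
  have h1 : Cp {chi A} (ind fun m => (fun _ u => A u) m.unpair.1 m.unpair.2) :=
    oracle_self.comp Cp.right
  have h2 : Cp {chi A} fun y => SS r A (y + 1) := by
    have h3 := SS_cp (O := {chi A}) (P := fun _ => A) hr h1
    have h4 : Cp {chi A} fun y => Nat.pair 0 (y + 1) :=
      (Cp.prim (Primrec.const 0)).pair ((Cp.prim Primrec.id).add (Cp.prim (Primrec.const 1)))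
    refine (h3.comp h4).of_eq fun y => ?_
    simp
  refine ((V_cp hV).comp (h2.pair (Cp.prim Primrec.id))).of_eq fun y => ?_
  rw [hval A hY y]
  simp

/-- the approximation of the set of threats for `x` at stage `s` -/
def RR (a : ℕ → ℕ → Prop) (w u : ℕ) : Prop :=
  w.unpair.1 < u.unpair.1 ∨ ∃ z < u.unpair.1, a w.unpair.2 z ∧ ¬ a u.unpair.2 z

theorem rr_primrec {a : ℕ → ℕ → Prop} (ha : PrimrecPred fun p : ℕ × ℕ => a p.1 p.2) :
    PrimrecPred fun m : ℕ => RR a m.unpair.1 m.unpair.2 := by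
  have hu : Primrec fun m : ℕ => m.unpair.2 := Primrec.snd.comp Primrec.unpair
  have hw : Primrec fun m : ℕ => m.unpair.1 := Primrec.fst.comp Primrec.unpair
  refine PrimrecPred.or ?_ ?_
  · exact Primrec.nat_lt.comp (Primrec.fst.comp (Primrec.unpair.comp hw))
      (Primrec.fst.comp (Primrec.unpair.comp hu))
  · have h1 : PrimrecRel fun (z : ℕ) (m : ℕ) => a m.unpair.1.unpair.2 z ∧
        ¬ a m.unpair.2.unpair.2 z := by
      refine PrimrecPred.and ?_ (PrimrecPred.not ?_)
      · exact ha.comp ((Primrec.snd.comp (Primrec.unpair.comp (hw.comp Primrec.snd))).pair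
          Primrec.fst)
      · exact ha.comp ((Primrec.snd.comp (Primrec.unpair.comp (hu.comp Primrec.snd))).pair
          Primrec.fst)
    exact PrimrecRel.comp (bex_lt h1) (Primrec.fst.comp (Primrec.unpair.comp hu)) Primrec.id

theorem cont_lower (hb : SeqComputable F) (hc : Contin F) (hF : OrdMap F) (hA : REPred A) :
    TLE A (F A) := by
  classical
  by_cases h0 : TLE A fun _ => False
  · exact h0.of_trivial _
  obtain ⟨V, r, hV, hr, hgap, hval⟩ := cont_data hb hc
  obtain ⟨a, ha, hm, hAa⟩ := re_stage hA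
  obtain ⟨D, hDdef⟩ : ∃ D : ℕ → Prop, D = Def A a := ⟨_, rfl⟩
  have hD : REPred D := by
    rw [hDdef]
    exact def_re ha hAa
  have hDA : TLE D A := by
    rw [hDdef]
    exact def_le ha
  have hAD : TLE A D := by
    rw [hDdef]
    exact le_def ha hm hAa
  obtain ⟨hZ, hDZ, hZD⟩ := Pool.Agent.EFA.H23.cod r hr hgap D hD
  rw [le_tle] at hDZ hZD
  obtain ⟨Z, hZdef⟩ : ∃ Z : ℕ → Prop, Z = fun x => ∃ u, D u ∧ r u = x := ⟨_, rfl⟩
  have hvZ : ∀ y, ind (F Z) y = V (SS r D (y + 1)) y := by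
    rw [hZdef]
    exact hval D hZ
  rw [← hZdef] at hZ hDZ hZD
  have hFZ : TLE (F Z) (F A) := hF.mono Z A hZ hA (hZD.trans hDA)
  have hnc : ¬ TLE (F Z) (F fun _ => False) :=
    fun h => h0 (hAD.trans (hDZ.trans (hF.zero Z hZ h)))
  -- the comparison points
  have hex : ∀ x, ∃ y, V (SS r (fun n => x < n.unpair.1 ∨ Def A a n) (y + 1)) y ≠
      ind (F Z) y := by
    intro x
    by_contra h
    push Not at h
    have h1 := threat_primrec hm hAa x
    obtain ⟨hR, -, hRle⟩ := Pool.Agent.EFA.H23.cod r hr hgap _ (re_of_prim h1)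
    rw [le_tle] at hRle
    apply hnc
    have h2 : F Z = F fun z => ∃ u, (u.unpair.1 > x ∨ Def A a u) ∧ r u = z := by
      funext y
      refine propext ?_
      have h3 : ind (F fun z => ∃ u, (x < u.unpair.1 ∨ Def A a u) ∧ r u = z) y = ind (F Z) y := by
        rw [hval _ hR y]
        exact h y
      constructor
      · intro h4
        by_contra h5
        rw [ind_of h4, ind_of_not h5] at h3
        exact absurd h3 (by decide)
      · intro h4
        by_contra h5
        rw [ind_of_not h5, ind_of h4] at h3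
        exact absurd h3 (by decide)
    rw [h2]
    exact hF.min hR (hRle.trans (tle_of_primrec h1 _)) re_false
  obtain ⟨O, hO⟩ : ∃ O : Set (ℕ →. ℕ), O = {chi (F A)} := ⟨_, rfl⟩
  have hOZ : Cp O (ind (F Z)) := by
    rw [hO]
    exact tle_iff.1 hFZ
  -- the test
  let Ev : ℕ → ℕ → Prop := fun w y => V (SS r (RR a w) (y + 1)) y ≠ ind (F Z) y
  have hEv : Cp O (ind fun m => Ev m.unpair.1 m.unpair.2) := by
    have h1 : Cp O (ind fun m => RR a m.unpair.1 m.unpair.2) := Cp.ind_prim (rr_primrec ha)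
    have h2 : Cp O fun m => SS r (RR a m.unpair.1) m.unpair.2 := SS_cp hr h1
    have h3 : Cp O fun m => SS r (RR a m.unpair.1) (m.unpair.2 + 1) := by
      refine (h2.comp (Cp.left.pair (Cp.right.add (Cp.prim (Primrec.const 1))))).of_eq
        fun m => ?_
      simp
    have h4 : Cp O fun m => V (SS r (RR a m.unpair.1) (m.unpair.2 + 1)) m.unpair.2 := by
      refine ((V_cp hV).comp (h3.pair Cp.right)).of_eq fun m => ?_
      simp
    have h5 : Cp O fun m => ind (F Z) m.unpair.2 := hOZ.comp Cp.right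
    have h6 : PrimrecPred fun m : ℕ => m.unpair.1 ≠ m.unpair.2 :=
      (Primrec.eq.comp (Primrec.fst.comp Primrec.unpair) (Primrec.snd.comp Primrec.unpair)).not
    refine ((Cp.ind_prim h6).comp (h4.pair h5)).of_eq fun m => ind_congr ?_
    simp [Ev]
  have hEx := Cp.bex hEv
  -- x' is a bad number for the stage s
  let Bd : ℕ → ℕ → Prop := fun w x' => ¬ a w x' ∧ ¬ ∃ y < w + 1, Ev (Nat.pair x' w) y
  have hBd : Cp O (ind fun m => Bd m.unpair.1 m.unpair.2) := by
    have h1 : Cp O (ind fun m : ℕ => ¬ a m.unpair.1 m.unpair.2) := by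
      refine Cp.ind_prim (PrimrecPred.not ?_)
      exact ha.comp ((Primrec.fst.comp Primrec.unpair).pair (Primrec.snd.comp Primrec.unpair))
    have h2 : Cp O fun m : ℕ => Nat.pair (Nat.pair m.unpair.2 m.unpair.1) (m.unpair.1 + 1) :=
      (Cp.right.pair Cp.left).pair (Cp.left.add (Cp.prim (Primrec.const 1)))
    refine (h1.mul ((Cp.prim (Primrec.const 1)).sub (hEx.comp h2))).of_eq fun m => ?_
    have h3 : (fun m : ℕ => ∃ z < m.unpair.2, Ev m.unpair.1 z)
        (Nat.pair (Nat.pair m.unpair.2 m.unpair.1) (m.unpair.1 + 1)) ↔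
        ∃ y < m.unpair.1 + 1, Ev (Nat.pair m.unpair.2 m.unpair.1) y := by
      simp
    by_cases h4 : a m.unpair.1 m.unpair.2
    · have h5 : ind (fun m : ℕ => ¬ a m.unpair.1 m.unpair.2) m = 0 := ind_of_not fun h => h h4
      have h6 : ind (fun m => Bd m.unpair.1 m.unpair.2) m = 0 := ind_of_not fun h => h.1 h4
      rw [h5, h6, zero_mul]
    · have h5 : ind (fun m : ℕ => ¬ a m.unpair.1 m.unpair.2) m = 1 := ind_of h4
      by_cases h7 : ∃ y < m.unpair.1 + 1, Ev (Nat.pair m.unpair.2 m.unpair.1) y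
      · have h6 : ind (fun m => Bd m.unpair.1 m.unpair.2) m = 0 := ind_of_not fun h => h.2 h7
        have h8 : ind (fun m : ℕ => ∃ z < m.unpair.2, Ev m.unpair.1 z)
          (Nat.pair (Nat.pair m.unpair.2 m.unpair.1) (m.unpair.1 + 1)) = 1 := ind_of (h3.2 h7)
        rw [h6, h8, Nat.sub_self, mul_zero]
      · have h6 : ind (fun m => Bd m.unpair.1 m.unpair.2) m = 1 := ind_of ⟨h4, h7⟩
        have h8 : ind (fun m : ℕ => ∃ z < m.unpair.2, Ev m.unpair.1 z)
          (Nat.pair (Nat.pair m.unpair.2 m.unpair.1) (m.unpair.1 + 1)) = 0 :=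
          ind_of_not fun h => h7 (h3.1 h)
        rw [h5, h6, h8]
  have hBx := Cp.bex hBd
  have hc0 : Cp O fun m : ℕ => ind (fun m : ℕ => ∃ z < m.unpair.2, Bd m.unpair.1 z)
      (Nat.pair m.unpair.2 (m.unpair.1 + 1)) :=
    hBx.comp (Cp.right.pair (Cp.left.add (Cp.prim (Primrec.const 1))))
  -- the search terminates
  have hfind : ∀ x, ∃ s, ind (fun m : ℕ => ∃ z < m.unpair.2, Bd m.unpair.1 z)
      (Nat.pair (Nat.pair x s).unpair.2 ((Nat.pair x s).unpair.1 + 1)) = 0 := by
    intro x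
    let Q : ℕ → ℕ → Prop := fun x' s => ∀ t, s ≤ t → ¬ Bd t x'
    obtain ⟨s, hs⟩ := common (Q := Q) (fun e N N' hN h t ht => h t (hN.trans ht)) (fun x' => by
      by_cases hx' : A x'
      · obtain ⟨s, hs⟩ := (hAa x').1 hx'
        exact ⟨s, fun t ht h => h.1 (hm _ _ _ ht hs)⟩
      · obtain ⟨y, hy⟩ := hex x'
        obtain ⟨s, hs⟩ := settle hm hAa (y + 1)
        refine ⟨max s y, fun t ht h => h.2 ⟨y, ?_, ?_⟩⟩
        · have := le_trans (le_max_right s y) ht
          omega
        · have h1 : SS r (RR a (Nat.pair x' t)) (y + 1) =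
              SS r (fun n => x' < n.unpair.1 ∨ Def A a n) (y + 1) := by
            refine SS_congr fun u hu => ?_
            unfold RR Def
            simp only [Nat.unpair_pair]
            refine or_congr_right ?_
            constructor
            · rintro ⟨z, h2, h3, h4⟩
              exact ⟨z, h2, (hAa z).2 ⟨t, h3⟩, h4⟩
            · rintro ⟨z, h2, h3, h4⟩
              have h5 : z < y + 1 := h2.trans_le ((Nat.unpair_left_le u).trans (by omega))
              exact ⟨z, h2, hm _ _ _ ((le_max_left s y).trans ht) (hs z h5 h3), h4⟩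
          change V (SS r (RR a (Nat.pair x' t)) (y + 1)) y ≠ ind (F Z) y
          rw [h1]
          exact hy) (x + 1)
    refine ⟨s, ?_⟩
    rw [ind_eq_zero]
    simp only [Nat.unpair_pair]
    rintro ⟨z, h1, h2⟩
    exact hs z h1 s (le_refl s) h2
  obtain ⟨g, hg, hg'⟩ := hc0.search hfind
  -- the output
  have hout : PrimrecPred fun m : ℕ => a m.unpair.2 m.unpair.1 :=
    ha.comp ((Primrec.snd.comp Primrec.unpair).pair (Primrec.fst.comp Primrec.unpair))
  rw [tle_iff, ← hO]
  refine ((Cp.ind_prim hout).comp ((Cp.prim Primrec.id).pair hg)).of_eq fun x => ind_congr ?_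
  simp only [id, Nat.unpair_pair]
  constructor
  · intro h
    exact (hAa x).2 ⟨_, h⟩
  · intro hx
    by_contra hx'
    have h1 := hg' x
    rw [ind_eq_zero] at h1
    simp only [Nat.unpair_pair] at h1
    have hne : ∃ z, A z ∧ ¬ a (g x) z := ⟨x, hx, hx'⟩
    have h2 := Nat.find_spec hne
    have h3 : Nat.find hne ≤ x := Nat.find_min' hne ⟨hx, hx'⟩
    have h4 : ∀ z < Nat.find hne, A z → a (g x) z := by
      intro z hz hz'
      by_contra h5
      exact Nat.find_min hne hz ⟨hz', h5⟩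
    refine h1 ⟨Nat.find hne, Nat.lt_succ_of_le h3, h2.2, ?_⟩
    rintro ⟨y, hy, hy'⟩
    apply hy'
    rw [hvZ y]
    congr 1
    refine SS_congr fun u hu => ?_
    rw [hDdef]
    unfold RR Def
    simp only [Nat.unpair_pair]
    have hu2 : u.unpair.2 ≤ g x := (Nat.unpair_right_le u).trans (by omega)
    constructor
    · rintro (h5 | ⟨z, h5, h6, h7⟩)
      · exact ⟨_, h5, h2.1, fun h6 => h2.2 (hm _ _ _ hu2 h6)⟩
      · exact ⟨z, h5, (hAa z).2 ⟨_, h6⟩, h7⟩
    · rintro ⟨z, h5, h6, h7⟩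
      rcases lt_or_ge (Nat.find hne) u.unpair.1 with h8 | h8
      · exact Or.inl h8
      · exact Or.inr ⟨z, h5, h4 z (h5.trans_le h8) h6, h7⟩

end Pool.Agent.Helper4RED
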