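import Mathlib

/-!
Definitions for the hand-in on automorphisms of the r.e. degrees that are induced by maps of r.e. sets
(MP_f28000_lc).
-/

set_option autoImplicit false

namespace Pool.Agent.Helper4RED

open Classical in
/-- the characteristic function of `A` -/
noncomputable def chi (A : ℕ → Prop) : ℕ →. ℕ := fun n => Part.some (if A n then (1 : ℕ) else 0)

/-- `A ≤_T B` -/
def TLE (A B : ℕ → Prop) : Prop := TuringReducible (chi A) (chi B)

/-- `A ≡_T B` -/
def TEQ (A B : ℕ → Prop) : Prop := TLE A B ∧ TLE B A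

/-- `A ≤_T B ⊕ E` -/
def TLEJ (A B E : ℕ → Prop) : Prop := RecursiveIn {chi B, chi E} (chi A)

/-- the join `{⟨i, x⟩ : x ∈ C_i}` of a sequence of sets -/
def seqJoin (C : ℕ → ℕ → Prop) : ℕ → Prop := fun n => C n.unpair.1 n.unpair.2

/-- `F` induces an order preserving map `π` of the r.e. degrees into the Turing degrees with
`π a = π 0` only for `a = 0` -/
structure OrdMap (F : (ℕ → Prop) → (ℕ → Prop)) : Prop where
  mono : ∀ A B : ℕ → Prop, REPred A → REPred B → TLE A B → TLE (F A) (F B)
  zero : ∀ A : ℕ → Prop, REPred A → TLE (F A) (F fun _ => False) → TLE A fun _ => False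

/-- `F` maps r.e. sets to r.e. sets and induces an order embedding of the r.e. degrees -/
structure Embeds (F : (ℕ → Prop) → (ℕ → Prop)) : Prop where
  re : ∀ A : ℕ → Prop, REPred A → REPred (F A)
  iff : ∀ A B : ℕ → Prop, REPred A → REPred B → (TLE A B ↔ TLE (F A) (F B))

/-- `F` preserves uniform reducibility of sequences, up to the oracle `E` -/
def Preserves (E : ℕ → Prop) (F : (ℕ → Prop) → (ℕ → Prop)) : Prop :=
  ∀ C : ℕ → ℕ → Prop, REPred (seqJoin C) → ∀ H : ℕ → Prop, REPred H →
    TLE (seqJoin C) H → TLEJ (seqJoin fun i => F (C i)) (F H) E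

/-- `F` reflects uniform reducibility of sequences, up to the oracle `E` -/
def Reflects (E : ℕ → Prop) (F : (ℕ → Prop) → (ℕ → Prop)) : Prop :=
  ∀ C : ℕ → ℕ → Prop, REPred (seqJoin C) → ∀ H : ℕ → Prop, REPred H →
    TLE (seqJoin fun i => F (C i)) (F H) → TLEJ (seqJoin C) H E

/-- `F` is, on r.e. sets, an enumeration operator whose set of axioms `W` is r.e. in the
oracle `E`: `W` is the projection of a relation computable from `E`, and
`F X = {y : there is a finite list l of elements of X with W y l}`. -/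
def EnumOp (E : ℕ → Prop) (F : (ℕ → Prop) → (ℕ → Prop)) : Prop :=
  ∃ W : ℕ → List ℕ → Prop,
    (∃ q : (ℕ × List ℕ) × ℕ → Bool, ComputableIn {chi E} q ∧
      ∀ y l, W y l ↔ ∃ v, q ((y, l), v) = true) ∧
    ∀ X : ℕ → Prop, REPred X → ∀ y, F X y ↔ ∃ l : List ℕ, W y l ∧ ∀ u ∈ l, X u

/-- `F` is monotone on r.e. sets -/
def Mono (F : (ℕ → Prop) → (ℕ → Prop)) : Prop :=
  ∀ X Y : ℕ → Prop, REPred X → REPred Y → (∀ x, X x → Y x) → ∀ y, F X y → F Y y

/-- `F` maps uniformly computable sequences of sets to uniformly computable sequences -/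
def SeqComputable (F : (ℕ → Prop) → (ℕ → Prop)) : Prop :=
  ∀ C : ℕ → ℕ → Prop, ComputablePred (seqJoin C) → ComputablePred (seqJoin fun i => F (C i))

end Pool.Agent.Helper4RED
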