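import Pool.Agent.Helper4_RED.Seq

/-!
Enumeration operators that induce an order embedding of the r.e. degrees.
-/

set_option autoImplicit false

namespace Pool.Agent.Helper4RED

variable {A B E H : ℕ → Prop} {F : (ℕ → Prop) → (ℕ → Prop)}

theorem EnumOp.mono (he : EnumOp E F) : Mono F := by
  intro X Y hX hY h y hy
  obtain ⟨W, -, hW⟩ := he
  rw [hW X hX] at hy
  rw [hW Y hY]
  obtain ⟨l, h1, h2⟩ := hy
  exact ⟨l, h1, fun u hu => h u (h2 u hu)⟩

/-- the pairs `⟨k, s⟩` such that a number `< k` of `A` is not yet enumerated at stage `s` -/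
def Def (A : ℕ → Prop) (a : ℕ → ℕ → Prop) (n : ℕ) : Prop :=
  ∃ z < n.unpair.1, A z ∧ ¬ a n.unpair.2 z

variable {a : ℕ → ℕ → Prop}

theorem settle (hm : ∀ s t z, s ≤ t → a s z → a t z) (hA : ∀ z, A z ↔ ∃ s, a s z) (k : ℕ) :
    ∃ s, ∀ z < k, A z → a s z := by
  induction k with
  | zero => exact ⟨0, fun z hz => absurd hz (Nat.not_lt_zero z)⟩
  | succ k ih =>
    obtain ⟨s, hs⟩ := ih
    by_cases h : A k
    · obtain ⟨t, ht⟩ := (hA k).1 h
      refine ⟨max s t, fun z hz hz' => ?_⟩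
      rcases Nat.lt_succ_iff_lt_or_eq.1 hz with h1 | rfl
      · exact hm _ _ _ (le_max_left _ _) (hs z h1 hz')
      · exact hm _ _ _ (le_max_right _ _) ht
    · refine ⟨s, fun z hz hz' => ?_⟩
      rcases Nat.lt_succ_iff_lt_or_eq.1 hz with h1 | rfl
      · exact hs z h1 hz'
      · exact absurd hz' h

/-- bounded existence for primitive recursive relations with parameters -/
theorem bex_lt {β : Type*} [Primcodable β] {R : ℕ → β → Prop} (hR : PrimrecRel R) :
    PrimrecRel fun (n : ℕ) (y : β) => ∃ x < n, R x y :=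
  (PrimrecRel.comp hR.exists_mem_list (Primrec.list_range.comp Primrec.fst)
    Primrec.snd).of_eq fun p => by simp

theorem def_re (ha : PrimrecPred fun p : ℕ × ℕ => a p.1 p.2) (hA : ∀ z, A z ↔ ∃ s, a s z) :
    REPred (Def A a) := by
  have h1 : PrimrecRel fun (z : ℕ) (p : ℕ × ℕ) => a p.2 z ∧ ¬ a p.1.unpair.2 z := by
    refine PrimrecPred.and ?_ (PrimrecPred.not ?_)
    · exact ha.comp ((Primrec.snd.comp Primrec.snd).pair Primrec.fst)
    · exact ha.comp ((Primrec.snd.comp (Primrec.unpair.comp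
        (Primrec.fst.comp Primrec.snd))).pair Primrec.fst)
  have h2 := bex_lt h1
  have h3 : PrimrecPred fun p : ℕ × ℕ => ∃ z < p.1.unpair.1, a p.2 z ∧ ¬ a p.1.unpair.2 z :=
    PrimrecRel.comp h2 (Primrec.fst.comp (Primrec.unpair.comp Primrec.fst)) Primrec.id
  refine (re_of_primrec (q := fun n t => ∃ z < n.unpair.1, a t z ∧ ¬ a n.unpair.2 z) h3).of_eq
    fun n => ?_
  unfold Def
  constructor
  · rintro ⟨t, z, h4, h5, h6⟩
    exact ⟨z, h4, (hA z).2 ⟨t, h5⟩, h6⟩
  · rintro ⟨z, h4, h5, h6⟩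
    obtain ⟨t, h7⟩ := (hA z).1 h5
    exact ⟨t, z, h4, h7, h6⟩

theorem def_le (ha : PrimrecPred fun p : ℕ × ℕ => a p.1 p.2) : TLE (Def A a) A := by
  rw [tle_iff]
  have h1 : Cp {chi A} fun m => ind A m.unpair.2 := oracle_self.comp Cp.right
  have h2 : PrimrecPred fun m : ℕ => a m.unpair.1.unpair.2 m.unpair.2 :=
    ha.comp ((Primrec.snd.comp (Primrec.unpair.comp (Primrec.fst.comp Primrec.unpair))).pair
      (Primrec.snd.comp Primrec.unpair))
  have h3 : Cp {chi A} (ind fun m : ℕ => ¬ a m.unpair.1.unpair.2 m.unpair.2) := Cp.ind_prim h2.not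
  let P : ℕ → ℕ → Prop := fun x z => A z ∧ ¬ a x.unpair.2 z
  have h4 : Cp {chi A} (ind fun m : ℕ => P m.unpair.1 m.unpair.2) := by
    refine (h1.mul h3).of_eq fun m => ?_
    by_cases h5 : A m.unpair.2
    · by_cases h6 : a m.unpair.1.unpair.2 m.unpair.2
      · have h7 : ind (fun m : ℕ => P m.unpair.1 m.unpair.2) m = 0 := ind_of_not fun h => h.2 h6
        have h8 : ind (fun m : ℕ => ¬ a m.unpair.1.unpair.2 m.unpair.2) m = 0 :=
          ind_of_not fun h => h h6
        rw [h7, h8, mul_zero]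
      · have h7 : ind (fun m : ℕ => P m.unpair.1 m.unpair.2) m = 1 := ind_of ⟨h5, h6⟩
        have h8 : ind (fun m : ℕ => ¬ a m.unpair.1.unpair.2 m.unpair.2) m = 1 := ind_of h6
        rw [h7, h8, ind_of h5]
    · have h7 : ind (fun m : ℕ => P m.unpair.1 m.unpair.2) m = 0 := ind_of_not fun h => h5 h.1
      rw [h7, ind_of_not h5, zero_mul]
  have h5 : Cp {chi A} fun n => Nat.pair n n.unpair.1 := (Cp.prim Primrec.id).pair Cp.left
  refine ((Cp.bex h4).comp h5).of_eq fun n => ind_congr ?_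
  unfold Def
  simp [P]

theorem le_def (ha : PrimrecPred fun p : ℕ × ℕ => a p.1 p.2)
    (hm : ∀ s t z, s ≤ t → a s z → a t z) (hA : ∀ z, A z ↔ ∃ s, a s z) : TLE A (Def A a) := by
  rw [tle_iff]
  have h1 : Primrec fun m : ℕ => Nat.pair (m.unpair.1 + 1) m.unpair.2 :=
    Primrec₂.natPair.comp (Primrec.succ.comp (Primrec.fst.comp Primrec.unpair))
      (Primrec.snd.comp Primrec.unpair)
  have h2 : Cp {chi (Def A a)} fun m => ind (Def A a) (Nat.pair (m.unpair.1 + 1) m.unpair.2) :=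
    oracle_self.comp (Cp.prim h1)
  obtain ⟨g, hg, hg'⟩ := h2.search (by
    intro x
    obtain ⟨s, hs⟩ := settle hm hA (x + 1)
    refine ⟨s, ?_⟩
    rw [ind_eq_zero]
    rintro ⟨z, h3, h4, h5⟩
    simp only [Nat.unpair_pair] at h3 h5
    exact h5 (hs z h3 h4))
  have h3 : PrimrecPred fun m : ℕ => a m.unpair.2 m.unpair.1 :=
    ha.comp ((Primrec.snd.comp Primrec.unpair).pair (Primrec.fst.comp Primrec.unpair))
  refine ((Cp.ind_prim h3).comp ((Cp.prim Primrec.id).pair hg)).of_eq fun x => ind_congr ?_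
  simp only [id, Nat.unpair_pair]
  constructor
  · intro h
    exact (hA x).2 ⟨_, h⟩
  · intro h
    by_contra h4
    have h5 := hg' x
    rw [ind_eq_zero] at h5
    refine h5 ⟨x, ?_, h, ?_⟩
    · simp
    · simpa using h4

/-- the set of threats for `x` is primitive recursive -/
theorem threat_primrec (hm : ∀ s t z, s ≤ t → a s z → a t z) (hA : ∀ z, A z ↔ ∃ s, a s z)
    (x : ℕ) : PrimrecPred fun n : ℕ => x < n.unpair.1 ∨ Def A a n := by
  classical
  have h1 : ∀ k, PrimrecPred fun n : ℕ => n.unpair.1 = k ∧ Def A a n := by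
    intro k
    have h2 := settle hm hA k
    have h3 : PrimrecPred fun n : ℕ => n.unpair.1 = k ∧ n.unpair.2 < Nat.find h2 :=
      PrimrecPred.and
        (Primrec.eq.comp (Primrec.fst.comp Primrec.unpair) (Primrec.const k))
        (Primrec.nat_lt.comp (Primrec.snd.comp Primrec.unpair) (Primrec.const (Nat.find h2)))
    refine h3.of_eq fun n => ?_
    constructor
    · rintro ⟨h4, h5⟩
      refine ⟨h4, ?_⟩
      have h6 := Nat.find_min h2 h5
      push Not at h6
      obtain ⟨z, h7, h8, h9⟩ := h6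
      exact ⟨z, by rw [h4]; exact h7, h8, h9⟩
    · rintro ⟨h4, z, h5, h6, h7⟩
      refine ⟨h4, ?_⟩
      by_contra h8
      rw [h4] at h5
      exact h7 (hm _ _ _ (not_lt.1 h8) (Nat.find_spec h2 z h5 h6))
  have h2 : ∀ k, PrimrecPred fun n : ℕ => n.unpair.1 ≤ k ∧ Def A a n := by
    intro k
    induction k with
    | zero => exact (h1 0).of_eq fun n => by simp
    | succ k ih =>
      refine (PrimrecPred.or ih (h1 (k + 1))).of_eq fun n => ?_
      constructor
      · rintro (⟨h3, h4⟩ | ⟨h3, h4⟩)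
        · exact ⟨h3.trans (Nat.le_succ k), h4⟩
        · exact ⟨h3.le, h4⟩
      · rintro ⟨h3, h4⟩
        rcases Nat.le_succ_iff.1 h3 with h5 | h5
        · exact Or.inl ⟨h5, h4⟩
        · exact Or.inr ⟨h5, h4⟩
  have h3 : PrimrecPred fun n : ℕ => x < n.unpair.1 :=
    Primrec.nat_lt.comp (Primrec.const x) (Primrec.fst.comp Primrec.unpair)
  refine (PrimrecPred.or h3 (h2 x)).of_eq fun n => ?_
  constructor
  · rintro (h4 | ⟨-, h4⟩)
    · exact Or.inl h4
    · exact Or.inr h4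
  · rintro (h4 | h4)
    · exact Or.inl h4
    · rcases lt_or_ge x n.unpair.1 with h5 | h5
      · exact Or.inl h5
      · exact Or.inr ⟨h5, h4⟩

/-- the element `u` of the use belongs to `Def A a` at stage `s`, or will as soon as `x` enters -/
def Thr (a : ℕ → ℕ → Prop) (u : ℕ) (p : ℕ × ℕ) : Prop :=
  (p.1 < u.unpair.1 ∧ u.unpair.2 ≤ p.2) ∨ ∃ z < u.unpair.1, a p.2 z ∧ ¬ a u.unpair.2 z

theorem thr_primrec (ha : PrimrecPred fun p : ℕ × ℕ => a p.1 p.2) : PrimrecRel (Thr a) := by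
  refine PrimrecPred.or (PrimrecPred.and ?_ ?_) ?_
  · exact Primrec.nat_lt.comp (Primrec.fst.comp Primrec.snd)
      (Primrec.fst.comp (Primrec.unpair.comp Primrec.fst))
  · exact Primrec.nat_le.comp (Primrec.snd.comp (Primrec.unpair.comp Primrec.fst))
      (Primrec.snd.comp Primrec.snd)
  · have h1 : PrimrecRel fun (z : ℕ) (p : ℕ × (ℕ × ℕ)) => a p.2.2 z ∧ ¬ a p.1.unpair.2 z := by
      refine PrimrecPred.and ?_ (PrimrecPred.not ?_)
      · exact ha.comp ((Primrec.snd.comp (Primrec.snd.comp Primrec.snd)).pair Primrec.fst)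
      · exact ha.comp ((Primrec.snd.comp (Primrec.unpair.comp
          (Primrec.fst.comp Primrec.snd))).pair Primrec.fst)
    exact PrimrecRel.comp (bex_lt h1) (Primrec.fst.comp (Primrec.unpair.comp Primrec.fst))
      Primrec.id

theorem cp_of_computableIn {O : Set (ℕ →. ℕ)} {q : (ℕ × List ℕ) × ℕ → Bool}
    (h : ComputableIn O q) :
    Cp O fun n => Encodable.encode (q (Denumerable.ofNat ((ℕ × List ℕ) × ℕ) n)) := by
  have h1 : Nat.RecursiveIn O fun n => Part.bind
      (Encodable.decode (α := (ℕ × List ℕ) × ℕ) n) fun p => (Part.some (q p)).map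
        Encodable.encode := h
  refine h1.of_eq fun n => ?_
  rw [Denumerable.decode_eq_ofNat]
  simp

/-- the lower bound for monotone maps that are enumeration operators on computable sets -/
theorem enum_core (he : Mono F) (W : ℕ → List ℕ → Prop)
    (hq0 : ∃ q : (ℕ × List ℕ) × ℕ → Bool, ComputableIn {chi E} q ∧
      ∀ y l, W y l ↔ ∃ v, q ((y, l), v) = true)
    (hW1 : ∀ X : ℕ → Prop, REPred X → ∀ y l, W y l → (∀ u ∈ l, X u) → F X y)
    (hW2 : ∀ X : ℕ → Prop, PrimrecPred X → ∀ y, F X y → ∃ l : List ℕ, W y l ∧ ∀ u ∈ l, X u)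
    (hF : OrdMap F) (hA : REPred A) : TLEJ A (F A) E := by
  classical
  by_cases h0 : TLE A fun _ => False
  · exact (h0.of_trivial _).join
  obtain ⟨a, ha, hm, hAa⟩ := re_stage hA
  let D : ℕ → Prop := Def A a
  have hD : REPred D := def_re ha hAa
  have hDA : TLE D A := def_le ha
  have hAD : TLE A D := le_def ha hm hAa
  have hFD : TLE (F D) (F A) := hF.mono D A hD hA hDA
  have hnc : ¬ TLE (F D) (F fun _ => False) := fun h => h0 (hAD.trans (hF.zero D hD h))
  let R : ℕ → ℕ → Prop := fun x n => x < n.unpair.1 ∨ D n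
  have hR : ∀ x, PrimrecPred (R x) := fun x => threat_primrec hm hAa x
  have hRre : ∀ x, REPred (R x) := fun x => (hR x).computablePred.to_re
  have hex : ∀ x, ∃ y, F (R x) y ∧ ¬ F D y := by
    intro x
    by_contra h
    push Not at h
    have h1 : F D = F (R x) := funext fun y => propext
      ⟨fun h2 => he _ _ hD (hRre x) (fun n hn => Or.inr hn) y h2, h y⟩
    apply hnc
    rw [h1]
    exact hF.min (hRre x) (tle_of_primrec (hR x) _) re_false
  obtain ⟨q, hq, hWq⟩ := hq0
  let T := (ℕ × List ℕ) × ℕ × ℕ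
  let tc : ℕ → T := Denumerable.ofNat T
  have htc : Primrec tc := Primrec.ofNat T
  -- the three conditions
  let c1 : ℕ → Prop := fun m => ∀ u ∈ (tc m.unpair.2).1.2,
    Thr a u (m.unpair.1, (tc m.unpair.2).2.2)
  have hm2 : Primrec fun m : ℕ => tc m.unpair.2 := htc.comp (Primrec.snd.comp Primrec.unpair)
  have hc1 : PrimrecPred c1 :=
    PrimrecRel.comp (thr_primrec ha).forall_mem_list
      (Primrec.snd.comp (Primrec.fst.comp hm2))
      ((Primrec.fst.comp Primrec.unpair).pair (Primrec.snd.comp (Primrec.snd.comp hm2)))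
  let O : Set (ℕ →. ℕ) := {chi (F A), chi E}
  have hc2 : Cp O fun m => ind (F D) (tc m.unpair.2).1.1 := by
    have h1 : Cp O (ind (F D)) := cp_of_tle (tle_iff.1 hFD) oracle_left
    exact h1.comp (Cp.prim (Primrec.fst.comp (Primrec.fst.comp hm2)))
  have hc3 : Cp O fun m => Encodable.encode (q ((tc m.unpair.2).1, (tc m.unpair.2).2.1)) := by
    have h1 : Cp O fun n => Encodable.encode (q (Denumerable.ofNat ((ℕ × List ℕ) × ℕ) n)) := by
      refine (cp_of_computableIn hq).mono fun g hg => ?_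
      rw [Set.mem_singleton_iff.1 hg]
      exact oracle_right
    have h2 : Primrec fun m : ℕ =>
        Encodable.encode ((tc m.unpair.2).1, (tc m.unpair.2).2.1) :=
      Primrec.encode.comp ((Primrec.fst.comp hm2).pair (Primrec.fst.comp (Primrec.snd.comp hm2)))
    refine (h1.comp (Cp.prim h2)).of_eq fun m => ?_
    rw [Denumerable.ofNat_encode]
  have hc : Cp O fun m => ind (fun m => ¬ c1 m) m + ind (F D) (tc m.unpair.2).1.1 +
      (1 - Encodable.encode (q ((tc m.unpair.2).1, (tc m.unpair.2).2.1))) :=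
    ((Cp.ind_prim hc1.not).add hc2).add ((Cp.prim (Primrec.const 1)).sub hc3)
  have hzero : ∀ m, ind (fun m => ¬ c1 m) m + ind (F D) (tc m.unpair.2).1.1 +
      (1 - Encodable.encode (q ((tc m.unpair.2).1, (tc m.unpair.2).2.1))) = 0 ↔
      c1 m ∧ ¬ F D (tc m.unpair.2).1.1 ∧
        q ((tc m.unpair.2).1, (tc m.unpair.2).2.1) = true := by
    intro m
    rw [Nat.add_eq_zero_iff, Nat.add_eq_zero_iff, ind_eq_zero, ind_eq_zero, not_not, and_assoc]
    refine and_congr_right fun _ => and_congr_right fun _ => ?_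
    cases q ((tc m.unpair.2).1, (tc m.unpair.2).2.1) <;> simp
  have hfind : ∀ x, ∃ w, ind (fun m => ¬ c1 m) (Nat.pair x w) +
      ind (F D) (tc (Nat.pair x w).unpair.2).1.1 +
      (1 - Encodable.encode (q ((tc (Nat.pair x w).unpair.2).1,
        (tc (Nat.pair x w).unpair.2).2.1))) = 0 := by
    intro x
    obtain ⟨y, hy, hy'⟩ := hex x
    obtain ⟨l, hl, hl'⟩ := hW2 _ (hR x) y hy
    obtain ⟨v, hv⟩ := (hWq y l).1 hl
    have hs : ∀ l : List ℕ, (∀ u ∈ l, R x u) → ∃ s, ∀ u ∈ l, Thr a u (x, s) := by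
      intro l
      induction l with
      | nil => exact fun _ => ⟨0, fun u hu => absurd hu (List.not_mem_nil)⟩
      | cons u l ih =>
        intro h1
        obtain ⟨s, hs⟩ := ih fun u' hu' => h1 u' (List.mem_cons_of_mem _ hu')
        have hmono : ∀ u' s' t', s' ≤ t' → Thr a u' (x, s') → Thr a u' (x, t') := by
          rintro u' s' t' h2 (⟨h3, h4⟩ | ⟨z, h3, h4, h5⟩)
          · exact Or.inl ⟨h3, h4.trans h2⟩
          · exact Or.inr ⟨z, h3, hm _ _ _ h2 h4, h5⟩
        obtain ⟨t, ht⟩ : ∃ t, Thr a u (x, t) := by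
          rcases h1 u List.mem_cons_self with h2 | ⟨z, h3, h4, h5⟩
          · exact ⟨u.unpair.2, Or.inl ⟨h2, le_refl _⟩⟩
          · obtain ⟨t, ht⟩ := (hAa z).1 h4
            exact ⟨t, Or.inr ⟨z, h3, ht, h5⟩⟩
        refine ⟨max s t, fun u' hu' => ?_⟩
        rcases List.mem_cons.1 hu' with rfl | h2
        · exact hmono _ _ _ (le_max_right _ _) ht
        · exact hmono _ _ _ (le_max_left _ _) (hs u' h2)
    obtain ⟨s, hs⟩ := hs l hl'
    refine ⟨Encodable.encode (((y, l), (v, s)) : T), ?_⟩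
    rw [hzero]
    have h1 : tc (Encodable.encode (((y, l), (v, s)) : T)) = ((y, l), (v, s)) :=
      Denumerable.ofNat_encode _
    simp only [c1, Nat.unpair_pair, h1]
    exact ⟨hs, hy', hv⟩
  obtain ⟨g, hg, hg'⟩ := hc.search hfind
  have hout : Cp O fun x => ind (fun m : ℕ => a (tc m.unpair.2).2.2 m.unpair.1)
      (Nat.pair x (g x)) := by
    have h1 : PrimrecPred fun m : ℕ => a (tc m.unpair.2).2.2 m.unpair.1 :=
      ha.comp ((Primrec.snd.comp (Primrec.snd.comp hm2)).pair (Primrec.fst.comp Primrec.unpair))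
    exact (Cp.ind_prim h1).comp ((Cp.prim Primrec.id).pair hg)
  rw [tlej_iff]
  refine hout.of_eq fun x => ind_congr ?_
  have h1 := (hzero _).1 (hg' x)
  simp only [c1, Nat.unpair_pair] at h1 ⊢
  obtain ⟨h2, h3, h4⟩ := h1
  constructor
  · intro h
    exact (hAa x).2 ⟨_, h⟩
  · intro hx
    by_contra hx'
    apply h3
    refine hW1 D hD _ (tc (g x)).1.2 ((hWq _ _).2 ⟨(tc (g x)).2.1, h4⟩) fun u hu => ?_
    rcases h2 u hu with ⟨h5, h6⟩ | ⟨z, h5, h6, h7⟩
    · exact ⟨x, h5, hx, fun h7 => hx' (hm _ _ _ h6 h7)⟩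
    · exact ⟨z, h5, (hAa z).2 ⟨_, h6⟩, h7⟩

/-- an enumeration operator that induces an order embedding of the r.e. degrees satisfies
`A ≤_T F A` (relative to the oracle of the axioms) -/
theorem EnumOp.le (he : EnumOp E F) (hF : OrdMap F) (hA : REPred A) : TLEJ A (F A) E := by
  have hm := he.mono
  obtain ⟨W, hq, hW⟩ := he
  refine enum_core hm W hq (fun X hX y l h1 h2 => (hW X hX y).2 ⟨l, h1, h2⟩)
    (fun X hX y h => (hW X hX.computablePred.to_re y).1 h) hF hA

end Pool.Agent.Helper4RED
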