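import Pool.Agent.Helper4_RED.MS
import Pool.Agent.Helper4_RED.ContMain

/-!
Uniformly effective functions on r.e. indices.
-/

set_option autoImplicit false

namespace Pool.Agent.Helper4RED

open Nat.Partrec (Code)
open Nat.Partrec.Code
open Pool.Agent.EFA (fs)

/-- the code `∑_{i < k, i ∈ B} 2 ^ i` of `B ∩ [0, k)` -/
noncomputable def ini (B : ℕ → Prop) (k : ℕ) : ℕ := SS id B k

/-- the functional with the set of axioms `W_e` has with oracle `B` the value `b` at `n` -/
def Val (e : Code) (B : ℕ → Prop) (n b : ℕ) : Prop :=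
  ∃ k, Wc e (Nat.pair (Nat.pair n b) (Nat.pair k (ini B k)))

/-- the functional with the set of axioms `W_e` computes `A` from the oracle `B` -/
def Computes (e : Code) (B A : ℕ → Prop) : Prop :=
  ∀ n, (A n ↔ Val e B n 1) ∧ (¬ A n ↔ Val e B n 0)

/-- the code with the number `n` -/
def cd (n : ℕ) : Code := Denumerable.ofNat Code n

/-- the function `f` on r.e. indices transforms, effectively in `E` and the oracle, the reductions of
computable sets to the `j`-th r.e. set, in both directions -/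
def UnifAt (E : ℕ → Prop) (f : ℕ → ℕ) (j : ℕ) : Prop :=
  (∃ u : ℕ → ℕ, Cp {chi (Wc (cd j)), chi E} u ∧ ∀ e i, ComputablePred (Wc (cd i)) →
    Computes (cd e) (Wc (cd j)) (Wc (cd i)) →
    Computes (cd (u (Nat.pair e i))) (Wc (cd (f j))) (Wc (cd (f i)))) ∧
  (∃ v : ℕ → ℕ, Cp {chi (Wc (cd j)), chi E} v ∧ ∀ e i, ComputablePred (Wc (cd i)) →
    Computes (cd e) (Wc (cd (f j))) (Wc (cd (f i))) →
    Computes (cd (v (Nat.pair e i))) (Wc (cd j)) (Wc (cd i)))

theorem ini_lt (B : ℕ → Prop) (k : ℕ) : ini B k < 2 ^ k := by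
  induction k with
  | zero =>
    unfold ini SS
    simp
  | succ k ih =>
    unfold ini at ih ⊢
    rw [SS_succ, pow_succ]
    have h2 := ind_le B k
    have h3 : ind B k * 2 ^ (id k) ≤ 1 * 2 ^ k := Nat.mul_le_mul_right _ h2
    have h4 : ind B k * 2 ^ id k ≤ 2 ^ k := by simpa using h3
    omega

theorem ini_bit (B : ℕ → Prop) (k i : ℕ) :
    Nat.testBit (ini B k) i = true ↔ i < k ∧ B i := by
  induction k with
  | zero =>
    unfold ini SS
    simp
  | succ k ih =>
    have h0 : ini B (k + 1) = ini B k + ind B k * 2 ^ k := SS_succ id B k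
    rw [h0]
    by_cases h : B k
    · rw [ind_of h, one_mul, testBit_add (ini_lt B k), ih]
      constructor
      · rintro (⟨h1, h2⟩ | rfl)
        · exact ⟨h1.trans (Nat.lt_succ_self k), h2⟩
        · exact ⟨Nat.lt_succ_self _, h⟩
      · rintro ⟨h1, h2⟩
        rcases Nat.lt_succ_iff_lt_or_eq.1 h1 with h3 | h3
        · exact Or.inl ⟨h3, h2⟩
        · exact Or.inr h3
    · rw [ind_of_not h, zero_mul, add_zero, ih]
      constructor
      · rintro ⟨h1, h2⟩
        exact ⟨h1.trans (Nat.lt_succ_self k), h2⟩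
      · rintro ⟨h1, h2⟩
        rcases Nat.lt_succ_iff_lt_or_eq.1 h1 with h3 | h3
        · exact ⟨h3, h2⟩
        · rw [h3] at h2
          exact absurd h2 h

theorem ini_mod (B : ℕ → Prop) {k k' : ℕ} (h : k' ≤ k) : ini B k % 2 ^ k' = ini B k' := by
  apply Nat.eq_of_testBit_eq
  intro i
  rw [Nat.testBit_mod_two_pow, Bool.eq_iff_iff, Bool.and_eq_true, decide_eq_true_iff, ini_bit,
    ini_bit]
  constructor
  · rintro ⟨h1, h2, h3⟩
    exact ⟨h1, h3⟩
  · rintro ⟨h1, h2⟩
    exact ⟨h1, h1.trans_le h, h2⟩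

theorem ini_cp {O : Set (ℕ →. ℕ)} {B : ℕ → Prop} (hB : Cp O (ind B)) : Cp O (ini B) := by
  have h1 : Cp O (ind fun m => (fun _ => B) m.unpair.1 m.unpair.2) := hB.comp Cp.right
  have h2 := SS_cp (O := O) (r := id) Computable.id (P := fun _ => B) h1
  have h3 : Cp O fun k => Nat.pair 0 k := (Cp.prim (Primrec.const 0)).pair (Cp.prim Primrec.id)
  refine (h2.comp h3).of_eq fun k => ?_
  simp [ini]

/-- the parameter theorem for projections of computable relations -/
theorem param' {α : Type*} [Primcodable α] {S : α → ℕ → ℕ → Prop}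
    (hS : ComputablePred fun p : (α × ℕ) × ℕ => S p.1.1 p.1.2 p.2) :
    ∃ g : α → Code, Computable g ∧ ∀ e n, Wc (g e) n ↔ ∃ t, S e n t := by
  classical
  have h1 : Partrec fun p : α × ℕ => Nat.rfind fun t => Part.some (decide (S p.1 p.2 t)) :=
    Partrec.rfind (hS.decide.partrec)
  have h2 : Partrec fun m : ℕ => ((Encodable.decode (α := α) m.unpair.1 : Part α).bind fun e =>
      Nat.rfind fun t => Part.some (decide (S e m.unpair.2 t))) := by
    refine Partrec.bind (Computable.decode.comp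
      (Computable.fst.comp Computable.unpair)).ofOption ?_
    exact h1.comp (Computable.snd.pair
      (Computable.snd.comp (Computable.unpair.comp Computable.fst)))
  obtain ⟨c, hc⟩ := exists_code.1 (Partrec.nat_iff.1 h2)
  refine ⟨fun e => curry c (Encodable.encode e),
    (primrec₂_curry.comp (Primrec.const c) Primrec.encode).to_comp, fun e n => ?_⟩
  unfold Wc
  rw [eval_curry, hc]
  simp only [Nat.unpair_pair, Encodable.encodek, Part.coe_some, Part.bind_some]
  rw [Nat.rfind_dom]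
  simp

/-- constant functionals -/
theorem const_functional {P : ℕ → Prop} (hP : PrimrecPred P) :
    ∃ e : Code, ∀ B : ℕ → Prop, Computes e B P := by
  have h1 : PrimrecPred fun m : ℕ => ((P m.unpair.1.unpair.1 ∧ m.unpair.1.unpair.2 = 1) ∨
      (¬ P m.unpair.1.unpair.1 ∧ m.unpair.1.unpair.2 = 0)) ∧ m.unpair.2 = Nat.pair 0 0 := by
    have hn : Primrec fun m : ℕ => m.unpair.1.unpair.1 :=
      Primrec.fst.comp (Primrec.unpair.comp (Primrec.fst.comp Primrec.unpair))
    have hb : Primrec fun m : ℕ => m.unpair.1.unpair.2 :=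
      Primrec.snd.comp (Primrec.unpair.comp (Primrec.fst.comp Primrec.unpair))
    refine PrimrecPred.and (PrimrecPred.or (PrimrecPred.and (hP.comp hn) ?_)
      (PrimrecPred.and (hP.comp hn).not ?_)) ?_
    · exact Primrec.eq.comp hb (Primrec.const 1)
    · exact Primrec.eq.comp hb (Primrec.const 0)
    · exact Primrec.eq.comp (Primrec.snd.comp Primrec.unpair) (Primrec.const _)
  obtain ⟨e, he⟩ := exists_wc h1.computablePred.to_re
  refine ⟨e, fun B n => ?_⟩
  have h0 : ini B 0 = 0 := by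
    unfold ini SS
    simp
  unfold Val
  rw [he]
  simp only [Nat.unpair_pair]
  constructor
  · constructor
    · exact fun h => ⟨0, Or.inl ⟨h, by simp⟩, by rw [h0]⟩
    · rintro ⟨k, (⟨h, -⟩ | ⟨-, h⟩), -⟩
      · exact h
      · exact absurd h (by decide)
  · constructor
    · exact fun h => ⟨0, Or.inr ⟨h, by simp⟩, by rw [h0]⟩
    · rintro ⟨k, (⟨-, h⟩ | ⟨h, -⟩), -⟩
      · exact absurd h (by decide)
      · exact h

theorem compPred_of_bool {α : Type*} [Primcodable α] {p : α → Prop} {b : α → Bool}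
    (hb : Computable b) (h : ∀ a, p a ↔ b a = true) : ComputablePred p := by
  classical
  refine ⟨inferInstance, hb.of_eq fun a => ?_⟩
  rw [Bool.eq_iff_iff, decide_eq_true_iff]
  exact (h a).symm

/-- choice between two functionals, decided by the oracle -/
theorem choose_functional {u₀ u₁ : ℕ → Code} (h₀ : Computable u₀) (h₁ : Computable u₁)
    {r : ℕ → ℕ} (hr : Primrec r) :
    ∃ w : ℕ → Code, Computable w ∧ ∀ (B : ℕ → Prop) (i n b : ℕ),
      (B (r i) → (Val (w i) B n b ↔ Val (u₁ i) B n b)) ∧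
      (¬ B (r i) → (Val (w i) B n b ↔ Val (u₀ i) B n b)) := by
  classical
  let sel : ℕ → ℕ → Code := fun i σ => cond (Nat.testBit σ (r i)) (u₁ i) (u₀ i)
  let S : ℕ → ℕ → ℕ → Prop := fun i m t =>
    (r i < m.unpair.2.unpair.1 ∧ t.unpair.1 ≤ m.unpair.2.unpair.1) ∧
      stg (sel i m.unpair.2.unpair.2) t.unpair.2 (Nat.pair m.unpair.1
        (Nat.pair t.unpair.1 (m.unpair.2.unpair.2 % 2 ^ t.unpair.1)))
  have hS : ComputablePred fun p : (ℕ × ℕ) × ℕ => S p.1.1 p.1.2 p.2 := by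
    have hi : Primrec fun p : (ℕ × ℕ) × ℕ => p.1.1 := Primrec.fst.comp Primrec.fst
    have hm : Primrec fun p : (ℕ × ℕ) × ℕ => p.1.2 := Primrec.snd.comp Primrec.fst
    have hk : Primrec fun p : (ℕ × ℕ) × ℕ => p.1.2.unpair.2.unpair.1 :=
      Primrec.fst.comp (Primrec.unpair.comp (Primrec.snd.comp (Primrec.unpair.comp hm)))
    have hσ : Primrec fun p : (ℕ × ℕ) × ℕ => p.1.2.unpair.2.unpair.2 :=
      Primrec.snd.comp (Primrec.unpair.comp (Primrec.snd.comp (Primrec.unpair.comp hm)))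
    have hnb : Primrec fun p : (ℕ × ℕ) × ℕ => p.1.2.unpair.1 :=
      Primrec.fst.comp (Primrec.unpair.comp hm)
    have hk' : Primrec fun p : (ℕ × ℕ) × ℕ => p.2.unpair.1 :=
      Primrec.fst.comp (Primrec.unpair.comp Primrec.snd)
    have hs : Primrec fun p : (ℕ × ℕ) × ℕ => p.2.unpair.2 :=
      Primrec.snd.comp (Primrec.unpair.comp Primrec.snd)
    have hz : Primrec fun p : (ℕ × ℕ) × ℕ => Nat.pair p.1.2.unpair.1
        (Nat.pair p.2.unpair.1 (p.1.2.unpair.2.unpair.2 % 2 ^ p.2.unpair.1)) :=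
      Primrec₂.natPair.comp hnb (Primrec₂.natPair.comp hk' (Primrec.nat_mod.comp hσ
        (Pool.Agent.EFA.H21.pow_prim.comp (Primrec.const 2) hk')))
    have hbit : Computable fun p : (ℕ × ℕ) × ℕ =>
        Nat.testBit p.1.2.unpair.2.unpair.2 (r p.1.1) :=
      Computable₂.comp Mod.testBit_comp₂ hσ.to_comp (hr.comp hi).to_comp
    have hA : Computable fun p : (ℕ × ℕ) × ℕ => u₁ p.1.1 := h₁.comp hi.to_comp
    have hB : Computable fun p : (ℕ × ℕ) × ℕ => u₀ p.1.1 := h₀.comp hi.to_comp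
    have hsel : Computable fun p : (ℕ × ℕ) × ℕ => sel p.1.1 p.1.2.unpair.2.unpair.2 :=
      Computable.cond hbit hA hB
    have h1 : Computable fun p : (ℕ × ℕ) × ℕ => evaln p.2.unpair.2
        (sel p.1.1 p.1.2.unpair.2.unpair.2) (Nat.pair p.1.2.unpair.1
        (Nat.pair p.2.unpair.1 (p.1.2.unpair.2.unpair.2 % 2 ^ p.2.unpair.1))) :=
      primrec_evaln.to_comp.comp ((hs.to_comp.pair hsel).pair hz.to_comp)
    have h2 : ComputablePred fun p : (ℕ × ℕ) × ℕ => stg (sel p.1.1 p.1.2.unpair.2.unpair.2)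
        p.2.unpair.2 (Nat.pair p.1.2.unpair.1
        (Nat.pair p.2.unpair.1 (p.1.2.unpair.2.unpair.2 % 2 ^ p.2.unpair.1))) := by
      exact compPred_of_bool (Primrec.option_isSome.to_comp.comp h1) fun p => Iff.rfl
    have h3 : PrimrecPred fun p : (ℕ × ℕ) × ℕ => r p.1.1 < p.1.2.unpair.2.unpair.1 ∧
        p.2.unpair.1 ≤ p.1.2.unpair.2.unpair.1 :=
      PrimrecPred.and (Primrec.nat_lt.comp (hr.comp hi) hk) (Primrec.nat_le.comp hk' hk)
    exact comp_and h3.computablePred h2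
  obtain ⟨w, hw, hw'⟩ := param' hS
  refine ⟨w, hw, fun B i n b => ?_⟩
  have hkey : Val (w i) B n b ↔ ∃ k', Wc (cond (decide (B (r i))) (u₁ i) (u₀ i))
      (Nat.pair (Nat.pair n b) (Nat.pair k' (ini B k'))) := by
    unfold Val
    constructor
    · rintro ⟨k, hk⟩
      obtain ⟨t, h1⟩ := (hw' _ _).1 hk
      simp only [S, sel, Nat.unpair_pair] at h1
      obtain ⟨⟨h2, h3⟩, h4⟩ := h1
      refine ⟨t.unpair.1, wc_iff.2 ⟨t.unpair.2, ?_⟩⟩
      rw [ini_mod B h3] at h4
      have h5 : Nat.testBit (ini B k) (r i) = decide (B (r i)) := by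
        rw [Bool.eq_iff_iff, ini_bit, decide_eq_true_iff]
        exact ⟨fun h => h.2, fun h => ⟨h2, h⟩⟩
      rw [h5] at h4
      exact h4
    · rintro ⟨k', hk'⟩
      obtain ⟨s, hs⟩ := wc_iff.1 hk'
      refine ⟨max k' (r i + 1), (hw' _ _).2 ⟨Nat.pair k' s, ?_⟩⟩
      simp only [S, sel, Nat.unpair_pair]
      have h2 : r i < max k' (r i + 1) := lt_of_lt_of_le (Nat.lt_succ_self _) (le_max_right _ _)
      have h5 : Nat.testBit (ini B (max k' (r i + 1))) (r i) = decide (B (r i)) := by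
        rw [Bool.eq_iff_iff, ini_bit, decide_eq_true_iff]
        exact ⟨fun h => h.2, fun h => ⟨h2, h⟩⟩
      rw [h5, ini_mod B (le_max_left _ _)]
      exact ⟨⟨h2, le_max_left _ _⟩, hs⟩
  constructor
  · intro hB
    rw [hkey, decide_eq_true hB]
    rfl
  · intro hB
    rw [hkey, decide_eq_false hB]
    rfl

theorem prim_stgN : PrimrecPred fun q : ℕ => ¬ (q.unpair.1 ≤ 1 ∧
    stg (cd q.unpair.2.unpair.1) q.unpair.2.unpair.2.unpair.1 q.unpair.2.unpair.2.unpair.2) := by
  have h0 : Primrec fun q : ℕ => q.unpair.1 := Primrec.fst.comp Primrec.unpair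
  have h1 : Primrec fun q : ℕ => q.unpair.2 := Primrec.snd.comp Primrec.unpair
  have h2 : Primrec fun q : ℕ => q.unpair.2.unpair.1 := h0.comp h1
  have h3 : Primrec fun q : ℕ => q.unpair.2.unpair.2 := h1.comp h1
  have h4 : Primrec fun q : ℕ => q.unpair.2.unpair.2.unpair.1 := h0.comp h3
  have h5 : Primrec fun q : ℕ => q.unpair.2.unpair.2.unpair.2 := h1.comp h3
  have h6 : Primrec fun q : ℕ => cd q.unpair.2.unpair.1 := (Primrec.ofNat Code).comp h2
  exact (PrimrecPred.and (Primrec.nat_le.comp h0 (Primrec.const 1))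
    (stg_code_primrec.comp ((h6.pair h4).pair h5))).not

/-- search for a value in the axioms of a sequence of functionals -/
theorem cp_of_val {O : Set (ℕ →. ℕ)} {A B : ℕ → Prop} {x z : ℕ → ℕ} (hB : Cp O (ind B))
    (hx : Cp O x) (hz : Cp O z) (hval : ∀ i, (A i → Val (cd (x i)) B (z i) 1) ∧
      (¬ A i → Val (cd (x i)) B (z i) 0) ∧ (Val (cd (x i)) B (z i) 1 → A i) ∧
      (Val (cd (x i)) B (z i) 0 → ¬ A i)) : Cp O (ind A) := by
  classical
  -- the search
  let P : ℕ → Prop := fun q => ¬ (q.unpair.1 ≤ 1 ∧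
    stg (cd q.unpair.2.unpair.1) q.unpair.2.unpair.2.unpair.1 q.unpair.2.unpair.2.unpair.2)
  let d : ℕ → ℕ := fun m => Nat.pair m.unpair.2.unpair.1.unpair.1 (Nat.pair (x m.unpair.1)
    (Nat.pair m.unpair.2.unpair.2 (Nat.pair (Nat.pair (z m.unpair.1) m.unpair.2.unpair.1.unpair.1)
      (Nat.pair m.unpair.2.unpair.1.unpair.2 (ini B m.unpair.2.unpair.1.unpair.2)))))
  have hP : Cp O (ind P) := Cp.ind_prim prim_stgN
  have hd : Cp O d := by
    have h3 : Cp O (ini B) := ini_cp hB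
    have hb : Cp O fun m : ℕ => m.unpair.2.unpair.1.unpair.1 :=
      Cp.left.comp (Cp.left.comp Cp.right)
    have hk : Cp O fun m : ℕ => m.unpair.2.unpair.1.unpair.2 :=
      Cp.right.comp (Cp.left.comp Cp.right)
    have hs : Cp O fun m : ℕ => m.unpair.2.unpair.2 := Cp.right.comp Cp.right
    exact hb.pair ((hx.comp Cp.left).pair (hs.pair (((hz.comp Cp.left).pair hb).pair
      (hk.pair (h3.comp hk)))))
  have hPd : ∀ i b k s, ind P (d (Nat.pair i (Nat.pair (Nat.pair b k) s))) = 0 ↔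
      b ≤ 1 ∧ stg (cd (x i)) s (Nat.pair (Nat.pair (z i) b) (Nat.pair k (ini B k))) := by
    intro i b k s
    rw [ind_eq_zero, not_not]
    simp only [d, Nat.unpair_pair]
  obtain ⟨g, hg, hg'⟩ := (hP.comp hd).search (fun i => by
    by_cases hi : A i
    · obtain ⟨k, hk⟩ := (hval i).1 hi
      obtain ⟨s, hs⟩ := wc_iff.1 hk
      exact ⟨Nat.pair (Nat.pair 1 k) s, (hPd _ _ _ _).2 ⟨le_refl 1, hs⟩⟩
    · obtain ⟨k, hk⟩ := (hval i).2.1 hi
      obtain ⟨s, hs⟩ := wc_iff.1 hk
      exact ⟨Nat.pair (Nat.pair 0 k) s, (hPd _ _ _ _).2 ⟨Nat.zero_le 1, hs⟩⟩)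
  refine (Cp.left.comp (Cp.left.comp hg)).of_eq fun i => ?_
  have h1 := hg' i
  have h0 : Nat.pair i (g i) = Nat.pair i (Nat.pair (Nat.pair (g i).unpair.1.unpair.1
    (g i).unpair.1.unpair.2) (g i).unpair.2) := by
    rw [Nat.pair_unpair, Nat.pair_unpair]
  rw [h0, hPd] at h1
  obtain ⟨h2, h3⟩ := h1
  have h4 : Val (cd (x i)) B (z i) (g i).unpair.1.unpair.1 := ⟨_, wc_iff.2 ⟨_, h3⟩⟩
  rcases Nat.le_one_iff_eq_zero_or_eq_one.1 h2 with h5 | h5
  · rw [h5] at h4 ⊢
    exact (ind_of_not ((hval i).2.2.2 h4)).symm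
  · rw [h5] at h4 ⊢
    exact (ind_of ((hval i).2.2.1 h4)).symm

theorem cd_encode (c : Code) : cd (Encodable.encode c) = c := Denumerable.ofNat_encode c

/-- choice between two functionals, as a function of numbers -/
theorem exists_mix : ∃ mix : ℕ → ℕ, Computable mix ∧ ∀ (B : ℕ → Prop) (a₀ a₁ i n b : ℕ),
    (B i → (Val (cd (mix (Nat.pair (Nat.pair a₀ a₁) i))) B n b ↔ Val (cd a₁) B n b)) ∧
    (¬ B i → (Val (cd (mix (Nat.pair (Nat.pair a₀ a₁) i))) B n b ↔ Val (cd a₀) B n b)) := by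
  have hl : Primrec fun q : ℕ => q.unpair.1 := Primrec.fst.comp Primrec.unpair
  have hr : Primrec fun q : ℕ => q.unpair.2 := Primrec.snd.comp Primrec.unpair
  have h0 : Computable fun m : ℕ => cd m.unpair.1.unpair.1 :=
    ((Primrec.ofNat Code).comp (hl.comp hl)).to_comp
  have h1 : Computable fun m : ℕ => cd m.unpair.1.unpair.2 :=
    ((Primrec.ofNat Code).comp (hr.comp hl)).to_comp
  obtain ⟨w, hw, hw'⟩ := choose_functional h0 h1 hr
  refine ⟨fun m => Encodable.encode (w m), Computable.encode.comp hw, fun B a₀ a₁ i n b => ?_⟩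
  have h2 := hw' B (Nat.pair (Nat.pair a₀ a₁) i) n b
  rw [cd_encode]
  simp only [Nat.unpair_pair] at h2
  exact h2

/-- the upper bound for uniformly effective functions on indices -/
theorem index_upper {E : ℕ → Prop} {f : ℕ → ℕ} {j : ℕ} (hf : UnifAt E f j) :
    TLEJ (Wc (cd (f j))) (Wc (cd j)) E := by
  classical
  obtain ⟨⟨u, hu, hu'⟩, ⟨v, hv, hv'⟩⟩ := hf
  have hz : PrimrecPred fun x : ℕ => x = 0 := Primrec.eq.comp Primrec.id (Primrec.const 0)
  obtain ⟨e₀, he₀⟩ := const_functional primrec_false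
  obtain ⟨e₁, he₁⟩ := const_functional hz
  obtain ⟨mix, hmix, hmix'⟩ := exists_mix
  -- the sequence of sets
  obtain ⟨c', hc', hcc⟩ := param (S := fun (i n t : ℕ) => stg (cd (f j)) t i ∧ n = 0)
    (PrimrecPred.and ((stg_primrec (cd (f j))).comp (Primrec.snd.pair
      (Primrec.fst.comp Primrec.fst))) (hz.comp (Primrec.snd.comp Primrec.fst)))
  obtain ⟨c, hc⟩ : ∃ c : ℕ → ℕ, c = fun i => Encodable.encode (c' i) := ⟨_, rfl⟩
  have hcp : Computable c := by
    rw [hc]
    exact Computable.encode.comp hc'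
  have hcd : ∀ i, cd (c i) = c' i := fun i => by rw [hc, cd_encode]
  have hc1 : ∀ i, Wc (cd (f j)) i → Wc (cd (c i)) = fun n => n = 0 := by
    intro i hi
    refine funext fun n => propext ?_
    rw [hcd, hcc]
    constructor
    · rintro ⟨t, -, h1⟩
      exact h1
    · intro h1
      obtain ⟨s, hs⟩ := wc_iff.1 hi
      exact ⟨s, hs, h1⟩
  have hc0 : ∀ i, ¬ Wc (cd (f j)) i → Wc (cd (c i)) = fun _ => False := by
    intro i hi
    refine funext fun n => propext ⟨fun h1 => ?_, fun h1 => h1.elim⟩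
    rw [hcd] at h1
    obtain ⟨t, h2, -⟩ := (hcc i n).1 h1
    exact hi (wc_iff.2 ⟨t, h2⟩)
  have hcomp : ∀ i, ComputablePred (Wc (cd (c i))) := by
    intro i
    by_cases hi : Wc (cd (f j)) i
    · rw [hc1 i hi]
      exact hz.computablePred
    · rw [hc0 i hi]
      exact primrec_false.computablePred
  obtain ⟨w, hw⟩ : ∃ w : ℕ → ℕ, w = fun i => mix (Nat.pair (Nat.pair
    (u (Nat.pair (Encodable.encode e₀) (c i))) (u (Nat.pair (Encodable.encode e₁) (c i)))) i) :=
    ⟨_, rfl⟩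
  have hwc : Cp {chi (Wc (cd j)), chi E} w := by
    rw [hw]
    have h1 : Cp {chi (Wc (cd j)), chi E} c := Cp.computable hcp
    exact (Cp.computable hmix).comp (((hu.comp ((Cp.prim (Primrec.const _)).pair h1)).pair
      (hu.comp ((Cp.prim (Primrec.const _)).pair h1))).pair (Cp.prim Primrec.id))
  have hwv : ∀ i, Computes (cd (w i)) (Wc (cd (f j))) (Wc (cd (f (c i)))) := by
    intro i n
    rw [hw]
    by_cases hi : Wc (cd (f j)) i
    · have h1 := hu' (Encodable.encode e₁) (c i) (hcomp i) (by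
        rw [hc1 i hi, cd_encode]
        exact he₁ _) n
      rw [(hmix' _ _ _ i n 1).1 hi, (hmix' _ _ _ i n 0).1 hi]
      exact h1
    · have h1 := hu' (Encodable.encode e₀) (c i) (hcomp i) (by
        rw [hc0 i hi, cd_encode]
        exact he₀ _) n
      rw [(hmix' _ _ _ i n 1).2 hi, (hmix' _ _ _ i n 0).2 hi]
      exact h1
  have hxc : Cp {chi (Wc (cd j)), chi E} fun i => v (Nat.pair (w i) (c i)) :=
    hv.comp (hwc.pair (Cp.computable hcp))
  rw [tlej_iff]
  refine cp_of_val (z := fun _ => 0) oracle_left hxc (Cp.prim (Primrec.const 0)) fun i => ?_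
  have h1 := hv' (w i) (c i) (hcomp i) (hwv i) 0
  have h2 : Wc (cd (c i)) 0 ↔ Wc (cd (f j)) i := by
    by_cases hi : Wc (cd (f j)) i
    · rw [hc1 i hi]
      exact ⟨fun _ => hi, fun _ => rfl⟩
    · rw [hc0 i hi]
      exact ⟨fun h => h.elim, fun h => hi h⟩
  rw [h2] at h1
  exact ⟨h1.1.1, h1.2.1, h1.1.2, h1.2.2⟩

end Pool.Agent.Helper4RED
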