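import Pool.Agent.Helper4_RED.Enum

/-!
Computable extensional functions on r.e. indices are enumeration operators (Myhill, Shepherdson).
-/

set_option autoImplicit false

namespace Pool.Agent.Helper4RED

open Nat.Partrec (Code)
open Nat.Partrec.Code

/-- the `c`-th r.e. set: the domain of the partial function computed by `c` -/
def Wc (c : Code) : ℕ → Prop := fun n => (eval c n).Dom

theorem wc_re (c : Code) : REPred (Wc c) := by
  have h : Partrec (eval c) := Partrec.nat_iff.2 (exists_code.2 ⟨c, rfl⟩)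
  exact h.dom_re

theorem exists_wc {A : ℕ → Prop} (hA : REPred A) : ∃ c, Wc c = A := by
  have h1 : Partrec fun z : ℕ => (Part.assert (A z) fun _ => Part.some ()).map fun _ => (0 : ℕ) :=
    Partrec.map hA (Computable.const 0).to₂
  obtain ⟨c, hc⟩ := exists_code.1 (Partrec.nat_iff.1 h1)
  refine ⟨c, funext fun z => propext ?_⟩
  unfold Wc
  rw [hc]
  simp [Part.assert]

theorem wc_iff {c : Code} {n : ℕ} : Wc c n ↔ ∃ s, stg c s n := by
  unfold Wc stg
  rw [Part.dom_iff_mem]
  constructor
  · rintro ⟨x, hx⟩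
    obtain ⟨k, hk⟩ := evaln_complete.1 hx
    exact ⟨k, Option.isSome_iff_exists.2 ⟨x, hk⟩⟩
  · rintro ⟨s, hs⟩
    obtain ⟨x, hx⟩ := Option.isSome_iff_exists.1 hs
    exact ⟨x, evaln_sound hx⟩

theorem stg_lt {c : Code} {s n : ℕ} (h : stg c s n) : n < s := by
  obtain ⟨x, hx⟩ := Option.isSome_iff_exists.1 h
  exact evaln_bound hx

/-- the parameter theorem for r.e. relations -/
theorem param {α : Type*} [Primcodable α] {S : α → ℕ → ℕ → Prop}
    (hS : PrimrecPred fun p : (α × ℕ) × ℕ => S p.1.1 p.1.2 p.2) :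
    ∃ g : α → Code, Computable g ∧ ∀ e n, Wc (g e) n ↔ ∃ t, S e n t := by
  classical
  have h1 : Partrec fun p : α × ℕ => Nat.rfind fun t => Part.some (decide (S p.1 p.2 t)) :=
    Partrec.rfind (hS.computablePred.decide.partrec)
  have h2 : Partrec fun m : ℕ => ((Encodable.decode (α := α) m.unpair.1 : Part α).bind fun e =>
      Nat.rfind fun t => Part.some (decide (S e m.unpair.2 t))) := by
    refine Partrec.bind (Computable.decode.comp
      (Computable.fst.comp Computable.unpair)).ofOption ?_
    exact h1.comp (Computable.snd.pair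
      (Computable.snd.comp (Computable.unpair.comp Computable.fst)))
  obtain ⟨c, hc⟩ := exists_code.1 (Partrec.nat_iff.1 h2)
  refine ⟨fun e => curry c (Encodable.encode e),
    (primrec₂_curry.comp (Primrec.const c) Primrec.encode).to_comp, fun e n => ?_⟩
  unfold Wc
  rw [eval_curry, hc]
  simp only [Nat.unpair_pair, Encodable.encodek, Part.coe_some, Part.bind_some]
  rw [Nat.rfind_dom]
  simp

/-- finite sets have computable codes -/
theorem exists_fin_code : ∃ g : List ℕ → Code, Computable g ∧ ∀ l n, Wc (g l) n ↔ n ∈ l := by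
  have h1 : PrimrecRel fun (l : List ℕ) (x : ℕ) => x ∈ l := by
    have h2 : PrimrecRel fun (a x : ℕ) => a = x := Primrec.eq
    refine h2.exists_mem_list.of_eq fun l x => ?_
    constructor
    · rintro ⟨a, h3, rfl⟩
      exact h3
    · intro h3
      exact ⟨x, h3, rfl⟩
  obtain ⟨g, hg, hg'⟩ := param (S := fun (l : List ℕ) n _ => n ∈ l)
    (PrimrecRel.comp h1 (Primrec.fst.comp Primrec.fst) (Primrec.snd.comp Primrec.fst))
  refine ⟨g, hg, fun l n => ?_⟩
  rw [hg']
  exact ⟨fun ⟨_, h⟩ => h, fun h => ⟨0, h⟩⟩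

/-- the halting set -/
theorem stg_code_primrec : PrimrecPred fun p : (Code × ℕ) × ℕ => stg p.1.1 p.1.2 p.2 := by
  have h1 : Primrec fun p : (Code × ℕ) × ℕ => evaln p.1.2 p.1.1 p.2 :=
    primrec_evaln.comp (((Primrec.snd.comp Primrec.fst).pair
      (Primrec.fst.comp Primrec.fst)).pair Primrec.snd)
  exact Primrec.eq.comp (Primrec.option_isSome.comp h1) (Primrec.const true)

variable {f : Code → Code}

theorem no_sep (hf : Computable f) {g : Code → Code} (hg : Computable g) (y : ℕ)
    (h : ∀ e, Wc (f (g e)) y ↔ ¬ Wc e 0) : False := by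
  refine ComputablePred.halting_problem_not_re 0 ?_
  have h1 : REPred fun e : Code => (eval (f (g e)) y).Dom :=
    (eval_part.comp (hf.comp hg) (Computable.const y)).dom_re
  exact h1.of_eq h

/-- a computable extensional index function is monotone -/
theorem ms_mono (hf : Computable f) (hext : ∀ c d, Wc c = Wc d → Wc (f c) = Wc (f d))
    {c d : Code} (h : ∀ n, Wc c n → Wc d n) {y : ℕ} (hy : Wc (f c) y) : Wc (f d) y := by
  by_contra hy'
  obtain ⟨g, hg, hg'⟩ := param (S := fun (e : Code) n t => stg c t n ∨ (stg e t 0 ∧ stg d t n))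
    (by
      refine PrimrecPred.or ?_ (PrimrecPred.and ?_ ?_)
      · exact stg_code_primrec.comp (((Primrec.const c).pair Primrec.snd).pair
          (Primrec.snd.comp Primrec.fst))
      · exact stg_code_primrec.comp (((Primrec.fst.comp Primrec.fst).pair Primrec.snd).pair
          (Primrec.const 0))
      · exact stg_code_primrec.comp (((Primrec.const d).pair Primrec.snd).pair
          (Primrec.snd.comp Primrec.fst)))
  refine no_sep hf hg y fun e => ?_
  by_cases he : Wc e 0
  · have h1 : Wc (g e) = Wc d := by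
      refine funext fun n => propext ?_
      rw [hg']
      constructor
      · rintro ⟨t, h2 | ⟨-, h2⟩⟩
        · exact h n (wc_iff.2 ⟨t, h2⟩)
        · exact wc_iff.2 ⟨t, h2⟩
      · intro h2
        obtain ⟨s, hs⟩ := wc_iff.1 h2
        obtain ⟨t, ht⟩ := wc_iff.1 he
        exact ⟨max s t, Or.inr ⟨stg_mono (le_max_right _ _) ht, stg_mono (le_max_left _ _) hs⟩⟩
    rw [hext _ _ h1]
    exact ⟨fun h2 => absurd h2 hy', fun h2 => absurd he h2⟩
  · have h1 : Wc (g e) = Wc c := by
      refine funext fun n => propext ?_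
      rw [hg']
      constructor
      · rintro ⟨t, h2 | ⟨h2, -⟩⟩
        · exact wc_iff.2 ⟨t, h2⟩
        · exact absurd (wc_iff.2 ⟨t, h2⟩) he
      · intro h2
        obtain ⟨s, hs⟩ := wc_iff.1 h2
        exact ⟨s, Or.inl hs⟩
    rw [hext _ _ h1]
    exact ⟨fun _ => he, fun _ => hy⟩

/-- a computable extensional index function is compact -/
theorem ms_compact (hf : Computable f) (hext : ∀ c d, Wc c = Wc d → Wc (f c) = Wc (f d))
    {k : List ℕ → Code} (hk : ∀ l n, Wc (k l) n ↔ n ∈ l) {c : Code} {y : ℕ}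
    (hy : Wc (f c) y) : ∃ l, Wc (f (k l)) y ∧ ∀ u ∈ l, Wc c u := by
  classical
  by_contra hc
  push Not at hc
  obtain ⟨g, hg, hg'⟩ := param (S := fun (e : Code) n t => stg c t n ∧ ¬ stg e t 0)
    (by
      refine PrimrecPred.and ?_ (PrimrecPred.not ?_)
      · exact stg_code_primrec.comp (((Primrec.const c).pair Primrec.snd).pair
          (Primrec.snd.comp Primrec.fst))
      · exact stg_code_primrec.comp (((Primrec.fst.comp Primrec.fst).pair Primrec.snd).pair
          (Primrec.const 0)))
  refine no_sep hf hg y fun e => ?_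
  by_cases he : Wc e 0
  · obtain ⟨s, hs⟩ := wc_iff.1 he
    let l : List ℕ := (List.range s).filter fun n => Wc (g e) n
    have h1 : Wc (g e) = Wc (k l) := by
      refine funext fun n => propext ?_
      rw [hk, List.mem_filter, List.mem_range, decide_eq_true_iff]
      refine ⟨fun h => ⟨?_, h⟩, fun h => h.2⟩
      obtain ⟨t, h2, h3⟩ := (hg' e n).1 h
      have h4 : t < s := by
        by_contra h5
        exact h3 (stg_mono (not_lt.1 h5) hs)
      exact (stg_lt h2).trans h4
    rw [hext _ _ h1]
    refine ⟨fun h2 => ?_, fun h2 => absurd he h2⟩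
    obtain ⟨u, h3, h4⟩ := hc l h2
    rw [List.mem_filter, decide_eq_true_iff] at h3
    obtain ⟨t, h5, -⟩ := (hg' e u).1 h3.2
    exact absurd (wc_iff.2 ⟨t, h5⟩) h4
  · have h1 : Wc (g e) = Wc c := by
      refine funext fun n => propext ?_
      rw [hg']
      constructor
      · rintro ⟨t, h2, -⟩
        exact wc_iff.2 ⟨t, h2⟩
      · intro h2
        obtain ⟨s, hs⟩ := wc_iff.1 h2
        exact ⟨s, hs, fun h3 => he (wc_iff.2 ⟨s, h3⟩)⟩
    rw [hext _ _ h1]
    exact ⟨fun _ => he, fun _ => hy⟩

/-- a map of r.e. sets that is given by a computable function on indices is an enumeration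
operator -/
theorem enumOp_of_index (hf : Computable f) {F : (ℕ → Prop) → (ℕ → Prop)}
    (hF : ∀ c, F (Wc c) = Wc (f c)) : EnumOp (fun _ => False) F := by
  classical
  have hext : ∀ c d, Wc c = Wc d → Wc (f c) = Wc (f d) := by
    intro c d h
    rw [← hF, ← hF, h]
  obtain ⟨k, hk, hk'⟩ := exists_fin_code
  refine ⟨fun y l => Wc (f (k l)) y, ⟨fun p => (evaln p.2 (f (k p.1.2)) p.1.1).isSome,
    Computable.computableIn ?_, fun y l => wc_iff⟩, fun X hX y => ?_⟩
  · have h1 : Computable fun p : (ℕ × List ℕ) × ℕ => f (k p.1.2) :=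
      hf.comp (hk.comp (Computable.snd.comp Computable.fst))
    have h2 : Computable fun p : (ℕ × List ℕ) × ℕ => evaln p.2 (f (k p.1.2)) p.1.1 :=
      primrec_evaln.to_comp.comp ((Computable.snd.pair h1).pair
        (Computable.fst.comp Computable.fst))
    exact Primrec.option_isSome.to_comp.comp h2
  · obtain ⟨c, rfl⟩ := exists_wc hX
    rw [hF]
    constructor
    · exact fun h => ms_compact hf hext hk' h
    · rintro ⟨l, h1, h2⟩
      exact ms_mono hf hext (fun n hn => h2 n ((hk' l n).1 hn)) h1

end Pool.Agent.Helper4RED
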