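import Pool.Agent.Helper4_RED.Basic
import Pool.Agent.Helper4_RED.Defs
import Pool.Agent.Helper4_RED.Re

/-!
Maps of r.e. sets that preserve or reflect uniform reducibility of sequences.
-/

set_option autoImplicit false

namespace Pool.Agent.Helper4RED

variable {A B E H : ℕ → Prop} {F : (ℕ → Prop) → (ℕ → Prop)}

theorem chi_eq (A : ℕ → Prop) : chi A = fun n => ((ind A n : ℕ) : Part ℕ) := rfl

theorem tle_iff : TLE A B ↔ Cp {chi B} (ind A) := RecursiveIn.iff_nat

theorem tlej_iff : TLEJ A B E ↔ Cp {chi B, chi E} (ind A) := RecursiveIn.iff_nat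

theorem oracle_left : Cp {chi B, chi E} (ind B) :=
  Nat.RecursiveIn.oracle _ (Set.mem_insert _ _)

theorem oracle_right : Cp {chi B, chi E} (ind E) :=
  Nat.RecursiveIn.oracle _ (Set.mem_insert_of_mem _ rfl)

theorem oracle_self : Cp {chi B} (ind B) := Nat.RecursiveIn.oracle _ rfl

theorem TLE.refl (A : ℕ → Prop) : TLE A A := tle_iff.2 oracle_self

theorem cp_of_tle {O : Set (ℕ →. ℕ)} {f : ℕ → ℕ} (hf : Cp {chi A} f) (h : Cp O (ind A)) :
    Cp O f := by
  refine hf.mono fun g hg => ?_
  rw [Set.mem_singleton_iff.1 hg]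
  exact h

theorem TLE.trans {A B C : ℕ → Prop} (h : TLE A B) (h' : TLE B C) : TLE A C :=
  tle_iff.2 (cp_of_tle (tle_iff.1 h) (tle_iff.1 h'))

theorem TLE.join (h : TLE A B) : TLEJ A B E :=
  tlej_iff.2 (cp_of_tle (tle_iff.1 h) oracle_left)

theorem cp_of_tlej {O : Set (ℕ →. ℕ)} {f : ℕ → ℕ} (hf : Cp {chi A, chi E} f)
    (h : Cp O (ind A)) (h' : Cp O (ind E)) : Cp O f := by
  refine hf.mono fun g hg => ?_
  rcases hg with hg | hg
  · rw [hg]
    exact h
  · rw [Set.mem_singleton_iff.1 hg]
    exact h'

theorem TLEJ.trans {A B C : ℕ → Prop} (h : TLEJ A B E) (h' : TLEJ B C E) : TLEJ A C E :=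
  tlej_iff.2 (cp_of_tlej (tlej_iff.1 h) (tlej_iff.1 h') oracle_right)

/-- `A ≤_T B ⊕ E` and `E ≤_T B` give `A ≤_T B` -/
theorem TLEJ.tle (h : TLEJ A B E) (h' : TLE E B) : TLE A B :=
  tle_iff.2 (cp_of_tlej (tlej_iff.1 h) oracle_self (tle_iff.1 h'))

theorem tle_of_primrec {P : ℕ → Prop} (h : PrimrecPred P) (B : ℕ → Prop) : TLE P B :=
  tle_iff.2 (Cp.ind_prim h)

theorem primrec_false : PrimrecPred (fun _ : ℕ => False) := by
  have h : PrimrecPred (fun n : ℕ => n < 0) := Primrec.nat_lt.comp Primrec.id (Primrec.const 0)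
  exact h.of_eq fun n => by simp

theorem re_false : REPred (fun _ : ℕ => False) := primrec_false.computablePred.to_re

theorem TLE.of_trivial (h : TLE A fun _ => False) (B : ℕ → Prop) : TLE A B :=
  h.trans (tle_of_primrec primrec_false B)

theorem Embeds.ord (hF : Embeds F) : OrdMap F :=
  ⟨fun A B hA hB h => (hF.iff A B hA hB).1 h, fun A hA h => (hF.iff A _ hA re_false).2 h⟩

/-- the values of `F` at computable sets are below every value -/
theorem OrdMap.min (hF : OrdMap F) (hA : REPred A) (h : TLE A fun _ => False)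
    {B : ℕ → Prop} (hB : REPred B) : TLE (F A) (F B) :=
  hF.mono A B hA hB (h.of_trivial B)

/-- the values of `F` at computable sets are below every value -/
theorem Embeds.min (hF : Embeds F) (hA : REPred A) (h : TLE A fun _ => False)
    {B : ℕ → Prop} (hB : REPred B) : TLE (F A) (F B) :=
  hF.ord.min hA h hB

/-- a set computable from the empty set is computable -/
theorem comp_of_tle {P : ℕ → Prop} (h : TLE P fun _ => False) : ComputablePred P := by
  classical
  have h1 : Partrec (chi P) := by
    refine RecursiveIn.partrec_of_oracle (O := {chi fun _ => False}) (fun g hg => ?_) h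
    rw [Set.mem_singleton_iff.1 hg]
    exact (Computable.const 0).partrec.of_eq fun n => by simp [chi]
  have h2 : Computable (ind P) := h1
  have h3 : Computable fun n => decide (ind P n = 1) :=
    (Primrec.eq (α := ℕ)).decide.to_comp.comp h2 (Computable.const 1)
  refine ⟨inferInstance, h3.of_eq fun n => ?_⟩
  by_cases h4 : P n
  · simp [ind_of h4, h4]
  · simp [ind_of_not h4, h4]

theorem tle_of_comp {P : ℕ → Prop} (h : ComputablePred P) (B : ℕ → Prop) : TLE P B := by
  classical
  rw [tle_iff]
  refine Cp.computable ?_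
  have h1 : Computable fun n => decide (P n) := h.decide
  refine (Computable.cond h1 (Computable.const 1) (Computable.const 0)).of_eq fun n => ?_
  by_cases h2 : P n
  · rw [ind_of h2]
    simp [h2]
  · rw [ind_of_not h2]
    simp [h2]

/-- preservation gives `A ≤_T F A ⊕ E` -/
theorem Preserves.le (hp : Preserves E F) (hF : Embeds F) (hA : REPred A) :
    TLEJ A (F A) E := by
  classical
  by_cases h0 : TLE A fun _ => False
  · exact (h0.of_trivial _).join
  have h1 : F A ≠ F fun _ => False := by
    intro h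
    apply h0
    rw [hF.iff A _ hA re_false, h]
    exact TLE.refl _
  obtain ⟨y, hy⟩ : ∃ y, ¬ (F A y ↔ F (fun _ => False) y) := by
    by_contra h
    push Not at h
    exact h1 (funext fun y => propext (h y))
  let C : ℕ → ℕ → Prop := fun i x => A i ∧ A x
  have hC : REPred (seqJoin C) :=
    re_and hA hA (Primrec.fst.comp Primrec.unpair) (Primrec.snd.comp Primrec.unpair)
  have hCA : TLE (seqJoin C) A := by
    rw [tle_iff]
    have h2 : Cp {chi A} fun n => ind A n.unpair.1 := oracle_self.comp Cp.left
    have h3 : Cp {chi A} fun n => ind A n.unpair.2 := oracle_self.comp Cp.right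
    refine (h2.mul h3).of_eq fun n => ?_
    by_cases h4 : A n.unpair.1
    · by_cases h5 : A n.unpair.2
      · rw [ind_of h4, ind_of h5, ind_of (show seqJoin C n from ⟨h4, h5⟩)]
      · rw [ind_of h4, ind_of_not h5, ind_of_not (show ¬ seqJoin C n from fun h => h5 h.2)]
    · rw [ind_of_not h4, ind_of_not (show ¬ seqJoin C n from fun h => h4 h.1), zero_mul]
  have h4 := tlej_iff.1 (hp C hC A hA hCA)
  have h5 : ∀ i, A i → C i = A := fun i hi => funext fun x => propext ⟨fun h => h.2, fun h => ⟨hi, h⟩⟩
  have h6 : ∀ i, ¬ A i → C i = fun _ => False := fun i hi =>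
    funext fun x => propext ⟨fun h => hi h.1, fun h => h.elim⟩
  have h7 : Cp {chi (F A), chi E} (ind fun i => F (C i) y) := by
    have h8 : Cp {chi (F A), chi E} fun i => Nat.pair i y :=
      Cp.pair (Cp.prim Primrec.id) (Cp.prim (Primrec.const y))
    refine (h4.comp h8).of_eq fun i => ?_
    refine ind_congr ?_
    unfold seqJoin
    simp
  rw [tlej_iff]
  by_cases h9 : F A y
  · have h10 : ¬ F (fun _ => False) y := fun h => hy ⟨fun _ => h, fun _ => h9⟩
    refine h7.of_eq fun i => ind_congr ?_
    constructor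
    · intro h
      by_contra hi
      rw [h6 i hi] at h
      exact h10 h
    · intro hi
      rw [h5 i hi]
      exact h9
  · have h10 : F (fun _ => False) y := by
      by_contra h
      exact hy ⟨fun h' => absurd h' h9, fun h' => absurd h' h⟩
    refine (Cp.sub (Cp.prim (Primrec.const 1)) h7).of_eq fun i => ?_
    by_cases hi : A i
    · have h11 : ¬ F (C i) y := by
        rw [h5 i hi]
        exact h9
      have h12 : ind (fun i => F (C i) y) i = 0 := ind_of_not h11
      rw [ind_of hi, h12]
    · have h11 : F (C i) y := by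
        rw [h6 i hi]
        exact h10
      have h12 : ind (fun i => F (C i) y) i = 1 := ind_of h11
      rw [ind_of_not hi, h12]

/-- reflection gives `F A ≤_T A ⊕ E` -/
theorem Reflects.le (hr : Reflects E F) (hF : Embeds F) (hA : REPred A) :
    TLEJ (F A) A E := by
  classical
  let C : ℕ → ℕ → Prop := fun i x => F A i ∧ x = 0
  have hz : PrimrecPred fun x : ℕ => x = 0 := Primrec.eq.comp Primrec.id (Primrec.const 0)
  have hz' : REPred fun x : ℕ => x = 0 := hz.computablePred.to_re
  have hC : REPred (seqJoin C) :=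
    re_and (hF.re A hA) hz' (Primrec.fst.comp Primrec.unpair) (Primrec.snd.comp Primrec.unpair)
  have h5 : ∀ i, F A i → C i = fun x => x = 0 := fun i hi =>
    funext fun x => propext ⟨fun h => h.2, fun h => ⟨hi, h⟩⟩
  have h6 : ∀ i, ¬ F A i → C i = fun _ => False := fun i hi =>
    funext fun x => propext ⟨fun h => hi h.1, fun h => h.elim⟩
  have ha : Cp {chi (F A)} (ind (F fun x => x = 0)) :=
    tle_iff.1 (hF.min hz' (tle_of_primrec hz _) hA)
  have hb : Cp {chi (F A)} (ind (F fun _ => False)) :=
    tle_iff.1 (hF.min re_false (tle_of_primrec primrec_false _) hA)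
  have h7 : TLE (seqJoin fun i => F (C i)) (F A) := by
    rw [tle_iff]
    have h8 : Cp {chi (F A)} fun n => ind (F A) n.unpair.1 := oracle_self.comp Cp.left
    have h9 : Cp {chi (F A)} fun n => ind (F fun x => x = 0) n.unpair.2 := ha.comp Cp.right
    have h10 : Cp {chi (F A)} fun n => ind (F fun _ => False) n.unpair.2 := hb.comp Cp.right
    refine ((h8.mul h9).add (((Cp.prim (Primrec.const 1)).sub h8).mul h10)).of_eq fun n => ?_
    by_cases hi : F A n.unpair.1
    · rw [ind_of hi]
      simp only [one_mul, Nat.sub_self, zero_mul, add_zero]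
      refine ind_congr ?_
      change F (fun x => x = 0) n.unpair.2 ↔ F (C n.unpair.1) n.unpair.2
      rw [h5 _ hi]
    · rw [ind_of_not hi]
      simp only [zero_mul, Nat.sub_zero, one_mul, zero_add]
      refine ind_congr ?_
      change F (fun _ => False) n.unpair.2 ↔ F (C n.unpair.1) n.unpair.2
      rw [h6 _ hi]
  have h8 := tlej_iff.1 (hr C hC A hA h7)
  rw [tlej_iff]
  have h9 : Cp {chi A, chi E} fun i => Nat.pair i 0 :=
    Cp.pair (Cp.prim Primrec.id) (Cp.prim (Primrec.const 0))
  refine (h8.comp h9).of_eq fun i => ind_congr ?_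
  unfold seqJoin
  simp [C]

end Pool.Agent.Helper4RED
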