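import Pool.Agent.Helper4_RED.Idx

/-!
A set on a tree of bounded width, decidable from oracles, is computable from the oracles; the same
for candidates which may be undefined.
-/

set_option autoImplicit false

namespace Pool.Agent.Helper4RED

open Nat.Partrec (Code)
open Nat.Partrec.Code

variable {O : Set (ℕ →. ℕ)}

/-- decidable from the oracles -/
def Dc (O : Set (ℕ →. ℕ)) (P : ℕ → Prop) : Prop := Cp O (ind P)

theorem Dc.of_iff {P Q : ℕ → Prop} (h : Dc O P) (hPQ : ∀ m, P m ↔ Q m) : Dc O Q :=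
  Cp.of_eq h fun m => ind_congr (hPQ m)

theorem Dc.comp {P : ℕ → Prop} {f : ℕ → ℕ} (h : Dc O P) (hf : Cp O f) : Dc O fun m => P (f m) :=
  Cp.of_eq (Cp.comp h hf) fun _ => rfl

theorem Dc.prim {P : ℕ → Prop} (h : PrimrecPred P) : Dc O P := Cp.ind_prim h

theorem Dc.not {P : ℕ → Prop} (h : Dc O P) : Dc O fun m => ¬ P m := by
  have h1 : Primrec fun n : ℕ => 1 - n := Primrec.nat_sub.comp (Primrec.const 1) Primrec.id
  refine Cp.of_eq ((Cp.prim h1).comp h) fun m => ?_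
  by_cases hm : P m
  · rw [ind_of hm, ind_of_not fun h => h hm]
  · rw [ind_of_not hm, ind_of hm]

theorem Dc.and {P Q : ℕ → Prop} (h : Dc O P) (h' : Dc O Q) : Dc O fun m => P m ∧ Q m := by
  refine Cp.of_eq (Cp.mul h h') fun m => ?_
  by_cases hm : P m
  · by_cases hm' : Q m
    · rw [ind_of hm, ind_of hm', ind_of ⟨hm, hm'⟩]
    · rw [ind_of hm, ind_of_not hm', ind_of_not fun h => hm' h.2]
  · rw [ind_of_not hm, zero_mul, ind_of_not fun h => hm h.1]

theorem Dc.imp {P Q : ℕ → Prop} (h : Dc O P) (h' : Dc O Q) : Dc O fun m => P m → Q m := by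
  refine (h.and h'.not).not.of_iff fun m => ?_
  tauto

theorem Dc.bex {P : ℕ → ℕ → Prop} (hP : Dc O fun m => P m.unpair.1 m.unpair.2) {b : ℕ → ℕ}
    (hb : Cp O b) : Dc O fun m => ∃ z < b m, P m z := by
  have h1 : Dc O fun m => ∃ z < m.unpair.2, P m.unpair.1 z := Cp.bex hP
  have h2 : Cp O fun m => Nat.pair m (b m) := (Cp.prim Primrec.id).pair hb
  refine (h1.comp h2).of_iff fun m => ?_
  simp only [Nat.unpair_pair]

theorem Dc.ball {P : ℕ → ℕ → Prop} (hP : Dc O fun m => P m.unpair.1 m.unpair.2) {b : ℕ → ℕ}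
    (hb : Cp O b) : Dc O fun m => ∀ z < b m, P m z := by
  have h1 : Dc O fun m => ∃ z < b m, ¬ P m z := Dc.bex (P := fun m z => ¬ P m z) hP.not hb
  refine h1.not.of_iff fun m => ?_
  push Not
  rfl

theorem Cp.cnt {P : ℕ → ℕ → Prop} (hP : Dc O fun m => P m.unpair.1 m.unpair.2) {b : ℕ → ℕ}
    (hb : Cp O b) : Cp O fun m => ∑ z ∈ Finset.range (b m), ind (P m) z := by
  have h0 : Cp O fun m => ind (P m.unpair.1) m.unpair.2 := hP
  have h1 := Cp.sum (p := fun x z => ind (P x) z) h0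
  have h2 : Cp O fun m => Nat.pair m (b m) := (Cp.prim Primrec.id).pair hb
  refine (h1.comp h2).of_eq fun m => ?_
  simp only [Nat.unpair_pair]

theorem Dc.search {C : ℕ → Prop} (hC : Dc O C) (hex : ∀ x, ∃ w, C (Nat.pair x w)) :
    ∃ g : ℕ → ℕ, Cp O g ∧ ∀ x, C (Nat.pair x (g x)) := by
  obtain ⟨g, hg, hg'⟩ := Cp.search hC.not fun x => by
    obtain ⟨w, hw⟩ := hex x
    exact ⟨w, ind_of_not fun h => h hw⟩
  refine ⟨g, hg, fun x => ?_⟩
  have h1 := hg' x
  rw [ind_eq_zero, not_not] at h1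
  exact h1

/-- the bit number `n` of `τ` -/
def bt (τ n : ℕ) : ℕ := τ / 2 ^ n % 2

theorem bt_prim : Primrec fun q : ℕ => bt q.unpair.1 q.unpair.2 := by
  have h1 : Primrec fun q : ℕ => q.unpair.1 := Primrec.fst.comp Primrec.unpair
  have h2 : Primrec fun q : ℕ => q.unpair.2 := Primrec.snd.comp Primrec.unpair
  exact Primrec.nat_mod.comp (Primrec.nat_div.comp h1
    (Pool.Agent.EFA.H21.pow_prim.comp (Primrec.const 2) h2)) (Primrec.const 2)

theorem bt_toNat (τ n : ℕ) : bt τ n = (Nat.testBit τ n).toNat := (Nat.toNat_testBit τ n).symm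

theorem bt_ini (A : ℕ → Prop) {k n : ℕ} (h : n < k) : bt (ini A k) n = ind A n := by
  rw [bt_toNat]
  by_cases hA : A n
  · rw [(ini_bit A k n).2 ⟨h, hA⟩, ind_of hA]
    rfl
  · have h1 : Nat.testBit (ini A k) n = false := by
      rw [Bool.eq_false_iff]
      exact fun h2 => hA ((ini_bit A k n).1 h2).2
    rw [h1, ind_of_not hA]
    rfl

theorem bt_mod (τ : ℕ) {k n : ℕ} (h : n < k) : bt (τ % 2 ^ k) n = bt τ n := by
  rw [bt_toNat, bt_toNat, Nat.testBit_mod_two_pow]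
  simp [h]

theorem eq_of_bt {τ τ' k : ℕ} (h : τ < 2 ^ k) (h' : τ' < 2 ^ k) (hb : ∀ n < k, bt τ n = bt τ' n) :
    τ = τ' := by
  refine Nat.eq_of_testBit_eq fun i => ?_
  rcases Nat.lt_or_ge i k with hi | hi
  · have h1 := hb i hi
    rw [bt_toNat, bt_toNat] at h1
    cases h2 : Nat.testBit τ i <;> cases h3 : Nat.testBit τ' i <;> simp_all
  · rw [Nat.testBit_lt_two_pow (h.trans_le (Nat.pow_le_pow_right (by norm_num) hi)),
      Nat.testBit_lt_two_pow (h'.trans_le (Nat.pow_le_pow_right (by norm_num) hi))]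

theorem mod_mod_pow (τ : ℕ) {i i' : ℕ} (h : i' ≤ i) : τ % 2 ^ i % 2 ^ i' = τ % 2 ^ i' :=
  Nat.mod_mod_of_dvd _ (pow_dvd_pow 2 h)

/-- the initial segments which are allowed in all levels -/
def Cl (D : ℕ → ℕ → Prop) (N₀ i τ : ℕ) : Prop := ∀ z < i + 1, N₀ ≤ z → D z (τ % 2 ^ z)

theorem cl_dc {D : ℕ → ℕ → Prop} (hD : Dc O fun q => D q.unpair.1 q.unpair.2) (N₀ : ℕ) :
    Dc O fun q => Cl D N₀ q.unpair.1 q.unpair.2 := by
  have h1 : Dc O fun m : ℕ => (fun q z => N₀ ≤ z → D z (q.unpair.2 % 2 ^ z)) m.unpair.1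
      m.unpair.2 := by
    have h2 : Cp O fun m : ℕ => m.unpair.1.unpair.2 % 2 ^ m.unpair.2 := by
      have h3 : Primrec fun m : ℕ => m.unpair.1.unpair.2 :=
        Primrec.snd.comp (Primrec.unpair.comp (Primrec.fst.comp Primrec.unpair))
      have h4 : Primrec fun m : ℕ => m.unpair.2 := Primrec.snd.comp Primrec.unpair
      exact Cp.prim (Primrec.nat_mod.comp h3
        (Pool.Agent.EFA.H21.pow_prim.comp (Primrec.const 2) h4))
    have h3 : Dc O fun m : ℕ => D m.unpair.2 (m.unpair.1.unpair.2 % 2 ^ m.unpair.2) := by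
      refine (hD.comp (Cp.right.pair h2)).of_iff fun m => ?_
      simp only [Nat.unpair_pair]
    exact Dc.imp (Dc.prim (Primrec.nat_le.comp (Primrec.const N₀)
      (Primrec.snd.comp Primrec.unpair))) h3
  have h2 : Cp O fun q : ℕ => q.unpair.1 + 1 := Cp.add Cp.left (Cp.prim (Primrec.const 1))
  exact Dc.ball (P := fun q z => N₀ ≤ z → D z (q.unpair.2 % 2 ^ z)) h1 h2

theorem cl_ini {D : ℕ → ℕ → Prop} {A : ℕ → Prop} {N₀ : ℕ} (hA : ∀ i ≥ N₀, D i (ini A i)) (i : ℕ) :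
    Cl D N₀ i (ini A i) := by
  intro z hz hN
  rw [ini_mod A (Nat.lt_succ_iff.1 hz)]
  exact hA z hN

theorem cl_self {D : ℕ → ℕ → Prop} {N₀ i τ : ℕ} (h : Cl D N₀ i τ) (hi : N₀ ≤ i) (hτ : τ < 2 ^ i) :
    D i τ := by
  have h1 := h i (Nat.lt_succ_self i) hi
  rwa [Nat.mod_eq_of_lt hτ] at h1

theorem cl_down {D : ℕ → ℕ → Prop} {N₀ i i' τ : ℕ} (h : Cl D N₀ i τ) (hi : i' ≤ i) :
    Cl D N₀ i' (τ % 2 ^ i') := by
  intro z hz hN
  rw [mod_mod_pow τ (Nat.lt_succ_iff.1 hz)]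
  exact h z (by omega) hN

/-- **paths of decidable trees of bounded width are computable** -/
theorem tree_thm {A : ℕ → Prop} : ∀ (m : ℕ) (D : ℕ → ℕ → Prop) (N₀ : ℕ),
    Dc O (fun q => D q.unpair.1 q.unpair.2) → (∀ i ≥ N₀, D i (ini A i)) →
    (∀ i ≥ N₀, ∃ F : Finset ℕ, F.card ≤ m ∧ ∀ τ < 2 ^ i, D i τ → τ ∈ F) → Dc O A := by
  intro m
  induction m with
  | zero =>
    intro D N₀ _ hA hF
    obtain ⟨F, hF1, hF2⟩ := hF N₀ (le_refl _)
    have h1 := hF2 (ini A N₀) (ini_lt A N₀) (hA N₀ (le_refl _))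
    rw [Finset.card_eq_zero.1 (Nat.le_zero.1 hF1)] at h1
    exact absurd h1 (Finset.notMem_empty _)
  | succ m ih =>
    intro D N₀ hD hA hF
    by_cases hc : ∃ i₀ ≥ N₀, ∃ τ₀ < 2 ^ i₀, τ₀ ≠ ini A i₀ ∧ ∀ i ≥ i₀, ∃ τ < 2 ^ i, Cl D N₀ i τ ∧
        τ % 2 ^ i₀ = τ₀
    · obtain ⟨i₀, hi₀, τ₀, hτ₀, hne, hext⟩ := hc
      refine ih (fun i τ => Cl D N₀ i τ ∧ τ % 2 ^ i₀ = ini A i₀) i₀ ?_ ?_ ?_
      · refine (cl_dc hD N₀).and (Dc.prim ?_)
        exact Primrec.eq.comp (Primrec.nat_mod.comp (Primrec.snd.comp Primrec.unpair)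
          (Primrec.const _)) (Primrec.const _)
      · intro i hi
        exact ⟨cl_ini hA i, ini_mod A hi⟩
      · intro i hi
        obtain ⟨F, hF1, hF2⟩ := hF i (hi₀.trans hi)
        obtain ⟨τ, hτ, hτ1, hτ2⟩ := hext i hi
        refine ⟨F.erase τ, ?_, ?_⟩
        · rw [Finset.card_erase_of_mem (hF2 τ hτ (cl_self hτ1 (hi₀.trans hi) hτ))]
          omega
        · rintro τ' hτ' ⟨h1, h2⟩
          refine Finset.mem_erase.2 ⟨?_, hF2 τ' hτ' (cl_self h1 (hi₀.trans hi) hτ')⟩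
          rintro rfl
          exact hne (hτ2.symm.trans h2)
    · have hc' : ∀ i₀ ≥ N₀, ∀ τ₀ < 2 ^ i₀, τ₀ ≠ ini A i₀ → ∃ i ≥ i₀, ∀ τ < 2 ^ i, Cl D N₀ i τ →
          τ % 2 ^ i₀ ≠ τ₀ := by
        intro i₀ hi₀ τ₀ hτ₀ hne
        by_contra h
        refine hc ⟨i₀, hi₀, τ₀, hτ₀, hne, fun i hi => ?_⟩
        by_contra h1
        refine h ⟨i, hi, fun τ hτ h2 h3 => h1 ⟨τ, hτ, h2, h3⟩⟩
      -- the search
      let C : ℕ → Prop := fun q => (q.unpair.1 < q.unpair.2.unpair.1 ∧ N₀ ≤ q.unpair.2.unpair.1) ∧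
        ∀ τ < 2 ^ q.unpair.2.unpair.1, Cl D N₀ q.unpair.2.unpair.1 τ →
          bt τ q.unpair.1 = q.unpair.2.unpair.2
      have hn : Primrec fun q : ℕ => q.unpair.1 := Primrec.fst.comp Primrec.unpair
      have hi : Primrec fun q : ℕ => q.unpair.2.unpair.1 :=
        Primrec.fst.comp (Primrec.unpair.comp (Primrec.snd.comp Primrec.unpair))
      have hb : Primrec fun q : ℕ => q.unpair.2.unpair.2 :=
        Primrec.snd.comp (Primrec.unpair.comp (Primrec.snd.comp Primrec.unpair))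
      have hC : Dc O C := by
        refine Dc.and (Dc.prim (PrimrecPred.and (Primrec.nat_lt.comp hn hi)
          (Primrec.nat_le.comp (Primrec.const N₀) hi))) ?_
        refine Dc.ball (P := fun q τ => Cl D N₀ q.unpair.2.unpair.1 τ →
          bt τ q.unpair.1 = q.unpair.2.unpair.2) ?_
          (Cp.prim (Pool.Agent.EFA.H21.pow_prim.comp (Primrec.const 2) hi))
        have hl : Primrec fun q : ℕ => q.unpair.1 := Primrec.fst.comp Primrec.unpair
        have hr : Primrec fun q : ℕ => q.unpair.2 := Primrec.snd.comp Primrec.unpair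
        refine Dc.imp ?_ (Dc.prim ?_)
        · have h1 := (cl_dc hD N₀).comp ((Cp.prim (O := O) (hi.comp hl)).pair (Cp.prim hr))
          refine h1.of_iff fun q => ?_
          simp only [Nat.unpair_pair]
        · refine Primrec.eq.comp ?_ (hb.comp hl)
          have h1 := bt_prim.comp (Primrec₂.natPair.comp hr (hn.comp hl))
          refine h1.of_eq fun q => ?_
          simp only [Nat.unpair_pair]
      obtain ⟨g, hg, hg'⟩ := hC.search (fun n => by
        have hi₀ : N₀ ≤ max (n + 1) N₀ := le_max_right _ _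
        have hni : n < max (n + 1) N₀ := lt_of_lt_of_le (Nat.lt_succ_self n) (le_max_left _ _)
        obtain ⟨i₀, hi₀'⟩ : ∃ i₀, i₀ = max (n + 1) N₀ := ⟨_, rfl⟩
        rw [← hi₀'] at hi₀ hni
        -- a level at which all wrong initial segments have died out
        have hI : ∀ K : ℕ, ∃ I ≥ i₀, ∀ τ₀ < K, τ₀ < 2 ^ i₀ → τ₀ ≠ ini A i₀ → ∀ τ < 2 ^ I,
            Cl D N₀ I τ → τ % 2 ^ i₀ ≠ τ₀ := by
          intro K
          induction K with
          | zero => exact ⟨i₀, le_refl _, fun τ₀ h => absurd h (Nat.not_lt_zero _)⟩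
          | succ K ihK =>
            obtain ⟨I, hI1, hI2⟩ := ihK
            by_cases hK : K < 2 ^ i₀ ∧ K ≠ ini A i₀
            · obtain ⟨i, hi1, hi2⟩ := hc' i₀ hi₀ K hK.1 hK.2
              refine ⟨max I i, hI1.trans (le_max_left _ _), ?_⟩
              intro τ₀ h1 h2 h3 τ hτ h4
              rcases Nat.lt_succ_iff_lt_or_eq.1 h1 with h5 | h5
              · have h6 := hI2 τ₀ h5 h2 h3 (τ % 2 ^ I) (Nat.mod_lt _ (by positivity))
                  (cl_down h4 (le_max_left _ _))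
                rwa [mod_mod_pow τ hI1] at h6
              · rw [h5]
                have h6 := hi2 (τ % 2 ^ i) (Nat.mod_lt _ (by positivity))
                  (cl_down h4 (le_max_right _ _))
                rwa [mod_mod_pow τ hi1] at h6
            · refine ⟨I, hI1, ?_⟩
              intro τ₀ h1 h2 h3
              rcases Nat.lt_succ_iff_lt_or_eq.1 h1 with h5 | h5
              · exact hI2 τ₀ h5 h2 h3
              · rw [h5] at h2 h3
                exact absurd ⟨h2, h3⟩ hK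
        obtain ⟨I, hI1, hI2⟩ := hI (2 ^ i₀)
        refine ⟨Nat.pair I (ind A n), ?_⟩
        simp only [C, Nat.unpair_pair]
        refine ⟨⟨hni.trans_le hI1, hi₀.trans hI1⟩, fun τ hτ h1 => ?_⟩
        have h2 : τ % 2 ^ i₀ = ini A i₀ := by
          by_contra h3
          exact hI2 (τ % 2 ^ i₀) (Nat.mod_lt _ (by positivity)) (Nat.mod_lt _ (by positivity)) h3
            τ hτ h1 rfl
        rw [← bt_mod τ hni, h2, bt_ini A hni])
      refine (Cp.right.comp hg).of_eq fun n => ?_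
      obtain ⟨⟨h1, h2⟩, h3⟩ := hg' n
      simp only [Nat.unpair_pair] at h1 h2 h3
      rw [← h3 (ini A _) (ini_lt A _) (cl_ini hA _), bt_ini A h1]

end Pool.Agent.Helper4RED
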