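import Pool.Agent.Helper4_RED.Idx

/-!
The use principle: every reduction is given by an r.e. set of axioms.
-/

set_option autoImplicit false

namespace Pool.Agent.Helper4RED

open Nat.Partrec (Code)
open Nat.Partrec.Code

/-- `G` with the finite oracle `B ∩ [0, k)`, `k → ∞`, computes `g` -/
def Approx (B : ℕ → Prop) (G g : ℕ →. ℕ) : Prop :=
  (∀ n k k' b, k ≤ k' → b ∈ G (Nat.pair (Nat.pair k (ini B k)) n) →
    b ∈ G (Nat.pair (Nat.pair k' (ini B k')) n)) ∧
  ∀ n b, b ∈ g n ↔ ∃ k, b ∈ G (Nat.pair (Nat.pair k (ini B k)) n)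

theorem approx_of_partrec {B : ℕ → Prop} {g : ℕ →. ℕ} (hg : Nat.Partrec g) :
    ∃ G : ℕ →. ℕ, Partrec G ∧ Approx B G g := by
  refine ⟨fun m => g m.unpair.2, (Partrec.nat_iff.2 hg).comp
    (Computable.snd.comp Computable.unpair), ?_, ?_⟩
  · intro n k k' b _ hb
    simpa only [Nat.unpair_pair] using hb
  · intro n b
    constructor
    · intro hb
      refine ⟨0, ?_⟩
      simpa only [Nat.unpair_pair] using hb
    · rintro ⟨k, hb⟩
      simpa only [Nat.unpair_pair] using hb

theorem use_principle {B : ℕ → Prop} {g : ℕ →. ℕ} (hg : Nat.RecursiveIn {chi B} g) :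
    ∃ G : ℕ →. ℕ, Partrec G ∧ Approx B G g := by
  induction hg with
  | zero => exact approx_of_partrec Nat.Partrec.zero
  | succ => exact approx_of_partrec Nat.Partrec.succ
  | left => exact approx_of_partrec Nat.Partrec.left
  | right => exact approx_of_partrec Nat.Partrec.right
  | oracle g hg =>
    rw [Set.mem_singleton_iff.1 hg]
    have hk : Primrec fun m : ℕ => m.unpair.1.unpair.1 :=
      Primrec.fst.comp (Primrec.unpair.comp (Primrec.fst.comp Primrec.unpair))
    have hσ : Primrec fun m : ℕ => m.unpair.1.unpair.2 :=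
      Primrec.snd.comp (Primrec.unpair.comp (Primrec.fst.comp Primrec.unpair))
    have hn : Primrec fun m : ℕ => m.unpair.2 := Primrec.snd.comp Primrec.unpair
    have h1 : Computable fun m : ℕ => Nat.testBit m.unpair.1.unpair.2 m.unpair.2 :=
      Computable₂.comp Mod.testBit_comp₂ hσ.to_comp hn.to_comp
    have h2 : Computable fun m : ℕ => (cond (Nat.testBit m.unpair.1.unpair.2 m.unpair.2)
        (some 1) (some 0) : Option ℕ) :=
      Computable.cond h1 (Computable.const _) (Computable.const _)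
    have h3 : Computable fun m : ℕ => (cond (decide (m.unpair.2 < m.unpair.1.unpair.1))
        (cond (Nat.testBit m.unpair.1.unpair.2 m.unpair.2) (some 1) (some 0)) none : Option ℕ) :=
      Computable.cond (Primrec.nat_lt.comp hn hk).decide.to_comp h2 (Computable.const _)
    have key : ∀ n k b, b ∈ ((cond (decide ((Nat.pair (Nat.pair k (ini B k)) n).unpair.2 <
        (Nat.pair (Nat.pair k (ini B k)) n).unpair.1.unpair.1))
        (cond (Nat.testBit (Nat.pair (Nat.pair k (ini B k)) n).unpair.1.unpair.2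
          (Nat.pair (Nat.pair k (ini B k)) n).unpair.2) (some 1) (some 0)) none : Option ℕ) :
          Part ℕ) ↔ n < k ∧ b ∈ chi B n := by
      intro n k b
      simp only [Nat.unpair_pair]
      unfold chi
      by_cases h : n < k
      · rw [decide_eq_true h]
        by_cases h' : B n
        · have h5 : Nat.testBit (ini B k) n = true := (ini_bit B k n).2 ⟨h, h'⟩
          simp [h5, h, h']
        · have h5 : Nat.testBit (ini B k) n = false := by
            rw [Bool.eq_false_iff]
            intro h6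
            exact h' ((ini_bit B k n).1 h6).2
          simp [h5, h, h']
      · rw [decide_eq_false h]
        simp [h]
    refine ⟨_, h3.ofOption, ?_, ?_⟩
    · intro n k k' b hkk hb
      rw [key] at hb ⊢
      exact ⟨hb.1.trans_le hkk, hb.2⟩
    · intro n b
      constructor
      · intro hb
        exact ⟨n + 1, (key _ _ _).2 ⟨Nat.lt_succ_self n, hb⟩⟩
      · rintro ⟨k, hk⟩
        exact ((key _ _ _).1 hk).2
  | @pair f h _ _ ihf ihh =>
    obtain ⟨F, hF, hF1, hF2⟩ := ihf
    obtain ⟨H, hH, hH1, hH2⟩ := ihh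
    refine ⟨_, Partrec.nat_iff.2 (Nat.Partrec.pair (Partrec.nat_iff.1 hF) (Partrec.nat_iff.1 hH)),
      ?_, ?_⟩
    · intro n k k' b hk hb
      simp only [Seq.seq, Part.map_eq_map, Part.mem_bind_iff, Part.mem_map_iff,
        exists_exists_and_eq_and] at hb ⊢
      obtain ⟨x, hx, y, hy, hxy⟩ := hb
      exact ⟨x, hF1 _ _ _ _ hk hx, y, hH1 _ _ _ _ hk hy, hxy⟩
    · intro n b
      simp only [Seq.seq, Part.map_eq_map, Part.mem_bind_iff, Part.mem_map_iff,
        exists_exists_and_eq_and]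
      constructor
      · rintro ⟨x, hx, y, hy, hxy⟩
        obtain ⟨k, hk⟩ := (hF2 _ _).1 hx
        obtain ⟨k', hk'⟩ := (hH2 _ _).1 hy
        exact ⟨max k k', x, hF1 _ _ _ _ (le_max_left _ _) hk, y,
          hH1 _ _ _ _ (le_max_right _ _) hk', hxy⟩
      · rintro ⟨k, x, hx, y, hy, hxy⟩
        exact ⟨x, (hF2 _ _).2 ⟨k, hx⟩, y, (hH2 _ _).2 ⟨k, hy⟩, hxy⟩
  | @comp f h _ _ ihf ihh =>
    obtain ⟨F, hF, hF1, hF2⟩ := ihf
    obtain ⟨H, hH, hH1, hH2⟩ := ihh
    have h1 : Partrec fun m : ℕ => (H m).bind fun x => F (Nat.pair m.unpair.1 x) := by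
      refine Partrec.bind hH (hF.comp ?_)
      exact Primrec₂.natPair.to_comp.comp (Computable.fst.comp (Computable.unpair.comp
        Computable.fst)) Computable.snd
    refine ⟨_, h1, ?_, ?_⟩
    · intro n k k' b hk hb
      simp only [Part.mem_bind_iff, Nat.unpair_pair] at hb ⊢
      obtain ⟨x, hx, hy⟩ := hb
      exact ⟨x, hH1 _ _ _ _ hk hx, hF1 _ _ _ _ hk hy⟩
    · intro n b
      simp only [Part.bind_eq_bind, Part.mem_bind_iff, Nat.unpair_pair]
      constructor
      · rintro ⟨x, hx, hy⟩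
        obtain ⟨k, hk⟩ := (hH2 _ _).1 hx
        obtain ⟨k', hk'⟩ := (hF2 _ _).1 hy
        exact ⟨max k k', x, hH1 _ _ _ _ (le_max_left _ _) hk,
          hF1 _ _ _ _ (le_max_right _ _) hk'⟩
      · rintro ⟨k, x, hx, hy⟩
        exact ⟨x, (hH2 _ _).2 ⟨k, hx⟩, (hF2 _ _).2 ⟨k, hy⟩⟩
  | @prec f h _ _ ihf ihh =>
    obtain ⟨F, hF, hF1, hF2⟩ := ihf
    obtain ⟨H, hH, hH1, hH2⟩ := ihh
    have hp : Primrec fun m : ℕ => m.unpair.1 := Primrec.fst.comp Primrec.unpair
    have ha : Primrec fun m : ℕ => m.unpair.2.unpair.1 :=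
      Primrec.fst.comp (Primrec.unpair.comp (Primrec.snd.comp Primrec.unpair))
    have hn : Primrec fun m : ℕ => m.unpair.2.unpair.2 :=
      Primrec.snd.comp (Primrec.unpair.comp (Primrec.snd.comp Primrec.unpair))
    have h1 : Partrec fun m : ℕ => F (Nat.pair m.unpair.1 m.unpair.2.unpair.1) :=
      hF.comp (Primrec₂.natPair.comp hp ha).to_comp
    have h2 : Partrec₂ fun (m : ℕ) (q : ℕ × ℕ) =>
        H (Nat.pair m.unpair.1 (Nat.pair m.unpair.2.unpair.1 (Nat.pair q.1 q.2))) := by
      refine hH.comp (Primrec.to_comp ?_)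
      exact Primrec₂.natPair.comp (hp.comp Primrec.fst) (Primrec₂.natPair.comp
        (ha.comp Primrec.fst) (Primrec₂.natPair.comp (Primrec.fst.comp Primrec.snd)
          (Primrec.snd.comp Primrec.snd)))
    have h3 := Partrec.nat_rec hn.to_comp h1 h2
    -- the recursion
    let R : ℕ → ℕ → ℕ → Part ℕ := fun p a n => Nat.rec (F (Nat.pair p a))
      (fun y IH => IH.bind fun i => H (Nat.pair p (Nat.pair a (Nat.pair y i)))) n
    let r : ℕ → ℕ → Part ℕ := fun a n => Nat.rec (f a)
      (fun y IH => IH.bind fun i => h (Nat.pair a (Nat.pair y i))) n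
    have hR0 : ∀ p a, R p a 0 = F (Nat.pair p a) := fun _ _ => rfl
    have hRs : ∀ p a n, R p a (n + 1) = (R p a n).bind fun i =>
      H (Nat.pair p (Nat.pair a (Nat.pair n i))) := fun _ _ _ => rfl
    have hr0 : ∀ a, r a 0 = f a := fun _ => rfl
    have hrs : ∀ a n, r a (n + 1) = (r a n).bind fun i =>
      h (Nat.pair a (Nat.pair n i)) := fun _ _ => rfl
    have hmono : ∀ a n k k' b, k ≤ k' → b ∈ R (Nat.pair k (ini B k)) a n →
        b ∈ R (Nat.pair k' (ini B k')) a n := by
      intro a n k k'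
      induction n with
      | zero =>
        intro b hk hb
        rw [hR0] at hb ⊢
        exact hF1 _ _ _ _ hk hb
      | succ n ih =>
        intro b hk hb
        rw [hRs, Part.mem_bind_iff] at hb ⊢
        obtain ⟨x, hx, hy⟩ := hb
        exact ⟨x, ih _ hk hx, hH1 _ _ _ _ hk hy⟩
    have hlim : ∀ a n b, b ∈ r a n ↔ ∃ k, b ∈ R (Nat.pair k (ini B k)) a n := by
      intro a n
      induction n with
      | zero =>
        intro b
        exact hF2 a b
      | succ n ih =>
        intro b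
        rw [hrs, Part.mem_bind_iff]
        constructor
        · rintro ⟨x, hx, hy⟩
          obtain ⟨k, hk⟩ := (ih _).1 hx
          obtain ⟨k', hk'⟩ := (hH2 _ _).1 hy
          refine ⟨max k k', ?_⟩
          rw [hRs, Part.mem_bind_iff]
          exact ⟨x, hmono _ _ _ _ _ (le_max_left _ _) hk, hH1 _ _ _ _ (le_max_right _ _) hk'⟩
        · rintro ⟨k, hk⟩
          rw [hRs, Part.mem_bind_iff] at hk
          obtain ⟨x, hx, hy⟩ := hk
          exact ⟨x, (ih _).2 ⟨k, hx⟩, (hH2 _ _).2 ⟨k, hy⟩⟩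
    have h4 : Partrec fun m : ℕ => R m.unpair.1 m.unpair.2.unpair.1 m.unpair.2.unpair.2 := h3
    refine ⟨_, h4, ?_, ?_⟩
    · intro n k k' b hk hb
      simp only [Nat.unpair_pair] at hb ⊢
      exact hmono _ _ _ _ _ hk hb
    · intro n b
      simp only [Nat.unpair_pair]
      exact hlim _ _ b
  | @rfind f _ ihf =>
    obtain ⟨F, hF, hF1, hF2⟩ := ihf
    have h1 : Partrec₂ fun (m n : ℕ) => (F (Nat.pair m.unpair.1 (Nat.pair m.unpair.2 n))).map
        fun x => decide (x = 0) := by
      have h2 : Partrec fun q : ℕ × ℕ => F (Nat.pair q.1.unpair.1 (Nat.pair q.1.unpair.2 q.2)) := by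
        refine hF.comp (Primrec.to_comp ?_)
        exact Primrec₂.natPair.comp (Primrec.fst.comp (Primrec.unpair.comp Primrec.fst))
          (Primrec₂.natPair.comp (Primrec.snd.comp (Primrec.unpair.comp Primrec.fst)) Primrec.snd)
      have h3 : Computable fun p : (ℕ × ℕ) × ℕ => decide (p.2 = 0) :=
        (Primrec.eq.comp Primrec.snd (Primrec.const 0)).decide.to_comp
      exact h2.map (g := fun (_ : ℕ × ℕ) (x : ℕ) => decide (x = 0)) h3
    have h3 := Partrec.rfind h1
    have ht : ∀ P : Part ℕ, true ∈ P.map (fun x => decide (x = 0)) ↔ 0 ∈ P := by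
      intro P
      simp [Part.mem_map_iff]
    have hf : ∀ P : Part ℕ, false ∈ P.map (fun x => decide (x = 0)) ↔ ∃ x ∈ P, x ≠ 0 := by
      intro P
      simp [Part.mem_map_iff]
    refine ⟨_, h3, ?_, ?_⟩
    · intro n k k' b hk hb
      simp only [Nat.mem_rfind, Nat.unpair_pair, ht, hf] at hb ⊢
      refine ⟨hF1 _ _ _ _ hk hb.1, fun {m} hm => ?_⟩
      obtain ⟨x, hx, hx0⟩ := hb.2 hm
      exact ⟨x, hF1 _ _ _ _ hk hx, hx0⟩
    · intro n b
      simp only [Part.map_eq_map, Nat.mem_rfind, Nat.unpair_pair, ht, hf]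
      constructor
      · rintro ⟨h4, h5⟩
        have h6 : ∀ c, c ≤ b → ∃ k, 0 ∈ F (Nat.pair (Nat.pair k (ini B k)) (Nat.pair n b)) ∧
            ∀ m < c, ∃ x ∈ F (Nat.pair (Nat.pair k (ini B k)) (Nat.pair n m)), x ≠ 0 := by
          intro c
          induction c with
          | zero =>
            intro _
            obtain ⟨k, hk⟩ := (hF2 _ _).1 h4
            exact ⟨k, hk, fun m hm => absurd hm (Nat.not_lt_zero m)⟩
          | succ c ih =>
            intro hc
            obtain ⟨k, hk, hk2⟩ := ih (Nat.le_of_succ_le hc)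
            obtain ⟨x, hx, hx0⟩ := h5 (Nat.lt_of_succ_le hc)
            obtain ⟨k', hk'⟩ := (hF2 _ _).1 hx
            refine ⟨max k k', hF1 _ _ _ _ (le_max_left _ _) hk, fun m hm => ?_⟩
            rcases Nat.lt_succ_iff_lt_or_eq.1 hm with h7 | h7
            · obtain ⟨x', hx', hx0'⟩ := hk2 m h7
              exact ⟨x', hF1 _ _ _ _ (le_max_left _ _) hx', hx0'⟩
            · rw [h7]
              exact ⟨x, hF1 _ _ _ _ (le_max_right _ _) hk', hx0⟩
        obtain ⟨k, hk, hk2⟩ := h6 b (le_refl b)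
        exact ⟨k, hk, fun {m} hm => hk2 m hm⟩
      · rintro ⟨k, hk, hk2⟩
        refine ⟨(hF2 _ _).2 ⟨k, hk⟩, fun {m} hm => ?_⟩
        obtain ⟨x, hx, hx0⟩ := hk2 hm
        exact ⟨x, (hF2 _ _).2 ⟨k, hx⟩, hx0⟩

theorem partrec_re_pred {G : ℕ →. ℕ} (hG : Partrec G) {e d : ℕ → ℕ} (he : Primrec e)
    (hd : Primrec d) : REPred fun m => d m ∈ G (e m) := by
  have h1 : Partrec fun m : ℕ => (G (e m)).bind fun x =>
      ((if x = d m then some () else none : Option Unit) : Part Unit) := by
    refine Partrec.bind (hG.comp he.to_comp) (Computable.ofOption ?_)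
    exact (Primrec.ite (Primrec.eq.comp Primrec.snd (hd.comp Primrec.fst)) (Primrec.const _)
      (Primrec.const _)).to_comp
  refine h1.of_eq fun m => ?_
  ext u
  simp only [Part.mem_bind_iff, Part.mem_assert_iff]
  constructor
  · rintro ⟨x, hx, hu⟩
    by_cases h : x = d m
    · rw [h] at hx
      exact ⟨hx, by simp⟩
    · rw [if_neg h] at hu
      simp at hu
  · rintro ⟨hx, _⟩
    refine ⟨d m, hx, ?_⟩
    rw [if_pos rfl]
    simp

/-- `A` is Turing reducible to `B` iff some r.e. set of axioms computes `A` from `B` -/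
theorem computes_of_tle {A B : ℕ → Prop} (h : TLE A B) : ∃ e, Computes e B A := by
  obtain ⟨G, hG, -, hG2⟩ := use_principle (RecursiveIn.iff_nat.1 h)
  have h1 : REPred fun m : ℕ => m.unpair.1.unpair.2 ∈ G (Nat.pair m.unpair.2 m.unpair.1.unpair.1) :=
    partrec_re_pred hG (Primrec₂.natPair.comp (Primrec.snd.comp Primrec.unpair)
      (Primrec.fst.comp (Primrec.unpair.comp (Primrec.fst.comp Primrec.unpair))))
      (Primrec.snd.comp (Primrec.unpair.comp (Primrec.fst.comp Primrec.unpair)))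
  obtain ⟨e, he⟩ := exists_wc h1
  refine ⟨e, fun n => ?_⟩
  have h2 : ∀ b, Val e B n b ↔ b ∈ chi A n := by
    intro b
    rw [hG2]
    unfold Val
    rw [he]
    simp only [Nat.unpair_pair]
  rw [h2, h2]
  unfold chi
  by_cases hn : A n
  · simp [hn]
  · simp [hn]

theorem tle_of_computes {A B : ℕ → Prop} {e : Code} (h : Computes e B A) : TLE A B := by
  rw [tle_iff]
  refine cp_of_val (x := fun _ => Encodable.encode e) (z := id) oracle_self
    (Cp.prim (Primrec.const _)) (Cp.prim Primrec.id) fun i => ?_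
  rw [cd_encode]
  exact ⟨(h i).1.1, (h i).2.1, (h i).1.2, (h i).2.2⟩

theorem computes_iff (A B : ℕ → Prop) : (∃ e, Computes e B A) ↔ TLE A B :=
  ⟨fun ⟨_, h⟩ => tle_of_computes h, computes_of_tle⟩

end Pool.Agent.Helper4RED
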